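import Pool.Agent.U151.LB.ArcY
import Pool.Agent.TH990.FU.Cov

/-!
The boundaries of the components of the complement of a subpath.
-/

set_option autoImplicit false

namespace Pool.Agent.U151.LB

open Set Filter Topology Metric
open Pool.Agent.Y989.FR (Fro)
open Pool.Agent.TH990.FU (Acc frontiers_acc)

/-- The subpath of `f` between the times `s` and `t`, on the whole unit interval. -/
noncomputable def subp (f : C(unitInterval, ℂ)) (s t : unitInterval) : C(unitInterval, ℂ) :=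
  ⟨fun x => f (projIcc (0:ℝ) 1 zero_le_one ((s : ℝ) + x * ((t : ℝ) - s))), by fun_prop⟩

theorem range_subp (f : C(unitInterval, ℂ)) {s t : unitInterval} (hst : s < t) :
    range (subp f s t) = f '' Icc s t := by
  have hst' : (s : ℝ) < t := hst
  ext w
  constructor
  · rintro ⟨x, rfl⟩
    have h1 : (s : ℝ) ≤ s + x * ((t : ℝ) - s) := by
      have := mul_nonneg x.2.1 (sub_nonneg.2 hst'.le)
      linarith
    have h2 : (s : ℝ) + x * ((t : ℝ) - s) ≤ t := by
      have := mul_le_mul_of_nonneg_right x.2.2 (sub_nonneg.2 hst'.le)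
      linarith
    have h3 : (s : ℝ) + x * ((t : ℝ) - s) ∈ Icc (0:ℝ) 1 :=
      ⟨s.2.1.trans h1, h2.trans t.2.2⟩
    refine ⟨⟨_, h3⟩, ⟨h1, h2⟩, ?_⟩
    show f _ = f (projIcc (0:ℝ) 1 zero_le_one _)
    rw [projIcc_of_mem _ h3]
  · rintro ⟨r, ⟨h1, h2⟩, rfl⟩
    have h1' : (s : ℝ) ≤ r := h1
    have h2' : (r : ℝ) ≤ t := h2
    have hpos : 0 < (t : ℝ) - s := sub_pos.2 hst'
    have h3 : ((r : ℝ) - s) / (t - s) ∈ Icc (0:ℝ) 1 :=
      ⟨div_nonneg (by linarith) hpos.le, by rw [div_le_one hpos]; linarith⟩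
    refine ⟨⟨_, h3⟩, ?_⟩
    show f (projIcc (0:ℝ) 1 zero_le_one ((s : ℝ) + ((r : ℝ) - s) / (t - s) * ((t : ℝ) - s))) = f r
    have e : (s : ℝ) + ((r : ℝ) - s) / (t - s) * ((t : ℝ) - s) = r := by
      rw [div_mul_cancel₀ _ hpos.ne']
      ring
    rw [e, projIcc_of_mem _ r.2]

/-- A path which leaves a ball can be stopped at its exit. -/
theorem stop_path {g : C(unitInterval, ℂ)} {w : ℂ} {η : ℝ} (h0 : dist (g 0) w < η)
    (h1 : η ≤ dist (g 1) w) : ∃ g' : C(unitInterval, ℂ), g' 0 = g 0 ∧ η ≤ dist (g' 1) w ∧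
      (∀ x, dist (g' x) w ≤ η) ∧ ∀ x, g' x ∈ range g := by
  have hcl : IsCompact {x : unitInterval | η ≤ dist (g x) w} :=
    (isClosed_le continuous_const (g.continuous.dist continuous_const)).isCompact
  obtain ⟨x0, hx0, hmin⟩ := hcl.exists_isLeast ⟨1, h1⟩
  have hlt : ∀ y < x0, dist (g y) w < η := by
    intro y hy
    by_contra hcon
    push Not at hcon
    exact absurd (hmin hcon) (not_le.2 hy)
  have hle : ∀ y ≤ x0, dist (g y) w ≤ η := by
    intro y hy
    have hx00 : (0 : unitInterval) < x0 := by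
      rcases eq_or_lt_of_le (show (0 : unitInterval) ≤ x0 from x0.2.1) with h | h
      · rw [← h] at hx0
        exact absurd h0 (not_lt.2 hx0)
      · exact h
    have hc2 : IsClosed {y : unitInterval | dist (g y) w ≤ η} :=
      isClosed_le (g.continuous.dist continuous_const) continuous_const
    have h2 : Iic x0 ⊆ {y : unitInterval | dist (g y) w ≤ η} := by
      have h3 : Iio x0 ⊆ {y : unitInterval | dist (g y) w ≤ η} := fun z hz => (hlt z hz).le
      have h4 := hc2.closure_subset_iff.2 h3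
      have h5 : (Iio x0).Nonempty := ⟨0, hx00⟩
      rwa [closure_Iio' h5] at h4
    exact h2 hy
  refine ⟨⟨fun x => g (x0 * x), by fun_prop⟩, ?_, ?_, ?_, ?_⟩
  · show g (x0 * 0) = g 0
    rw [mul_zero]
  · show η ≤ dist (g (x0 * 1)) w
    rw [mul_one]
    exact hx0
  · intro x
    exact hle _ (unitInterval.mul_le_left)
  · intro x
    exact ⟨_, rfl⟩

theorem acc_of_sub {f : C(unitInterval, ℂ)} {s t : unitInterval} (hst : s < t) {η : ℝ}
    (hη : 0 < η) {w : ℂ} (hw : w ∈ Acc η (subp f s t)) (h1 : w ∉ f '' Icc 0 s)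
    (h2 : w ∉ f '' Icc t 1) : w ∈ ⋃ i : ℕ, Acc (1 / ((i:ℝ) + 1)) f := by
  obtain ⟨⟨x, hx⟩, ⟨u, hu⟩, hg⟩ := hw
  have hcl : IsClosed (f '' Icc 0 s ∪ f '' Icc t 1) :=
    (isCompact_Icc.image f.continuous).isClosed.union (isCompact_Icc.image f.continuous).isClosed
  have hwK : w ∈ (f '' Icc 0 s ∪ f '' Icc t 1)ᶜ := by
    rintro (h | h)
    · exact h1 h
    · exact h2 h
  obtain ⟨d, hd, hball⟩ := Metric.isOpen_iff.1 hcl.isOpen_compl w hwK
  obtain ⟨i, hi⟩ := exists_nat_one_div_lt (lt_min hη (half_pos hd))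
  have hi1 : 1 / ((i:ℝ) + 1) ≤ η := hi.le.trans (min_le_left _ _)
  have hi2 : 1 / ((i:ℝ) + 1) < d := lt_of_lt_of_le hi ((min_le_right _ _).trans (by linarith))
  have hi0 : (0:ℝ) < 1 / ((i:ℝ) + 1) := by positivity
  have hsub : range (subp f s t) ⊆ range f := by
    rw [range_subp f hst]
    exact image_subset_range _ _
  refine mem_iUnion.2 ⟨i, hsub ⟨x, hx⟩, ?_, fun r hr => ?_⟩
  · obtain ⟨y, hy⟩ := hsub ⟨u, rfl⟩
    exact ⟨y, by rw [hy]; exact hi1.trans hu⟩
  · obtain ⟨g, g1, g2, g3⟩ := hg (min r (1 / ((i:ℝ) + 1))) (lt_min hr hi0)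
    obtain ⟨g', k1, k2, k3, k4⟩ := stop_path (g1.trans_le (min_le_right _ _)) (hi1.trans g2)
    refine ⟨g', ?_, k2, fun y hy => ?_⟩
    · rw [k1]
      exact g1.trans_le (min_le_left _ _)
    · have e1 : g' y ∈ (f '' Icc 0 s ∪ f '' Icc t 1)ᶜ :=
        hball (Metric.mem_ball.2 (lt_of_le_of_lt (k3 y) hi2))
      have e2 : g' y ∉ range (subp f s t) := by
        obtain ⟨z, hz⟩ := k4 y
        rw [← hz]
        exact g3 z
      rw [range_subp f hst] at e2
      obtain ⟨z, hz⟩ := hy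
      rcases le_total z s with h | h
      · exact e1 (Or.inl ⟨z, ⟨z.2.1, h⟩, hz⟩)
      · rcases le_total z t with h' | h'
        · exact e2 ⟨z, ⟨h, h'⟩, hz⟩
        · exact e1 (Or.inr ⟨z, ⟨h', z.2.2⟩, hz⟩)

/-- The boundaries of the components of the complement of a subpath. -/
theorem sides_sub {f : C(unitInterval, ℂ)} {s t : unitInterval} (hst : s < t)
    (hns : ¬ (f '' Icc s t).Subsingleton) :
    Fro (f '' Icc s t) ⊆ (⋃ i : ℕ, Acc (1 / ((i:ℝ) + 1)) f) ∪
      ({z | ∃ a b : unitInterval, a < b ∧ f a = z ∧ f b = z} ∪ {f s, f t}) := by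
  intro w hw
  have hne : ∃ a b, subp f s t a ≠ subp f s t b := by
    rw [not_subsingleton_iff] at hns
    obtain ⟨x, hx, y, hy, hxy⟩ := hns
    rw [← range_subp f hst] at hx hy
    obtain ⟨a, rfl⟩ := hx
    obtain ⟨b, rfl⟩ := hy
    exact ⟨a, b, hxy⟩
  have hw' : w ∈ ⋃ x : ℂ, frontier (connectedComponentIn (range (subp f s t))ᶜ x) := by
    rw [range_subp f hst]
    exact hw
  obtain ⟨i, hi⟩ := mem_iUnion.1 (frontiers_acc hne hw')
  have hwI : w ∈ f '' Icc s t := by
    rw [← range_subp f hst]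
    exact hi.1
  obtain ⟨b, hb, hbw⟩ := hwI
  by_cases h1 : w ∈ f '' Icc 0 s
  · obtain ⟨a, ha, haw⟩ := h1
    rcases lt_or_eq_of_le (ha.2.trans hb.1) with h | h
    · exact Or.inr (Or.inl ⟨a, b, h, haw, hbw⟩)
    · right; right; left
      have : b = s := le_antisymm (h ▸ ha.2) hb.1
      rw [← hbw, this]
  · by_cases h2 : w ∈ f '' Icc t 1
    · obtain ⟨a, ha, haw⟩ := h2
      rcases lt_or_eq_of_le (hb.2.trans ha.1) with h | h
      · exact Or.inr (Or.inl ⟨b, a, h, hbw, haw⟩)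
      · right; right; right
        have : b = t := le_antisymm hb.2 (h ▸ ha.1)
        rw [mem_singleton_iff, ← hbw, this]
    · exact Or.inl (acc_of_sub hst (by positivity) hi h1 h2)

/-- A point of a smaller set on the boundary of a component of the complement of a larger set is on
the boundary of a component of the complement of the smaller set. -/
theorem Fro_anti {K K' : Set ℂ} (hK : IsClosed K) (hKK : K ⊆ K') {z : ℂ} (hz : z ∈ K)
    (h : z ∈ Fro K') : z ∈ Fro K := by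
  obtain ⟨x, hx⟩ := mem_iUnion.1 h
  refine mem_iUnion.2 ⟨x, ?_⟩
  have h1 : connectedComponentIn K'ᶜ x ⊆ connectedComponentIn Kᶜ x :=
    connectedComponentIn_mono x (compl_subset_compl.2 hKK)
  have h2 : IsOpen (connectedComponentIn Kᶜ x) := hK.isOpen_compl.connectedComponentIn
  refine ⟨closure_mono h1 hx.1, ?_⟩
  rw [h2.interior_eq]
  intro h3
  exact connectedComponentIn_subset _ _ h3 hz

end Pool.Agent.U151.LB
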