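import Pool.Agent.U151.LB.ArcD

/-!
Subpaths of the exploration path of a rectangle: the limit.
-/

set_option autoImplicit false

namespace Pool.Agent.U151.LB

open H974 H12S Finset H389NS H984P H984N H342P
open Pool.Agent.Y989.FR (Tk)
open Pool.Agent.W822.PD (EnV)
open Pool.Agent.TH966.DP (zp dist_pos_zp zp_dist zp_inj pl_node nt nt_mul)

/-- The rectangle without a neighbourhood of the boundary. -/
def DkX (R : Rect) (η : ℝ) : Set ℂ :=
  {z | (-R.A + η < z.re ∧ z.re < R.B - η) ∧ (η < z.im ∧ z.im < R.H - η)}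

theorem isOpen_DkX (R : Rect) (η : ℝ) : IsOpen (DkX R η) := by
  refine IsOpen.inter (IsOpen.inter ?_ ?_) (IsOpen.inter ?_ ?_)
  · exact isOpen_lt continuous_const Complex.continuous_re
  · exact isOpen_lt Complex.continuous_re continuous_const
  · exact isOpen_lt continuous_const Complex.continuous_im
  · exact isOpen_lt Complex.continuous_im continuous_const

theorem arc_VX {t c E : ℝ} {M B n a r : ℕ} (R : Rect) {d : ℝ} (hd : 0 < d) {F : Finset Edg}
    (hbad : ¬ BadX t c E M B n a r (R.dm d) F) {x y : unitInterval}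
    (hxy : x ≤ y) {κ1 : ℝ} (hr : d * (r + 4) ≤ κ1) (hD : R.curve d F x ∈ DkX R (5 * κ1))
    (hdist : 2 * κ1 < dist (R.curve d F x) (R.curve d F y)) :
    ∃ V : Finset Vtx, c * (n : ℝ) ^ (4/3 : ℝ) ≤ (V.card : ℝ) ∧
      EnV t V ≤ E * (n : ℝ) ^ (8/3 - t) ∧ ∀ w ∈ V, Tk M B (a / 64) w ((R.dm d).cfg F) ∧
        inR ((R.dm d).l + 3 * r) ((R.dm d).r - 3 * r) (3 * r) ((R.dm d).h - 3 * r) w ∧
        ∃ i ≤ (R.dm d).len F, ((R.dm d).walk F i).1 = w ∧ ∃ s : unitInterval, (x ≤ s ∧ s ≤ y) ∧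
          R.curve d F s = pos d ((R.dm d).walk F i) := by
  obtain ⟨N, hNdef⟩ : ∃ N, N = (R.dm d).len F := ⟨_, rfl⟩
  have hr0 : (0:ℝ) ≤ r := Nat.cast_nonneg _
  have hκ1 : 0 < κ1 := lt_of_lt_of_le (by positivity) hr
  have hN : 0 < N := by
    rcases Nat.eq_zero_or_pos N with h | h
    · exfalso
      have e : ∀ s : unitInterval, R.curve d F s = pos d ((R.dm d).walk F 0) := by
        intro s
        unfold Rect.curve
        rw [← hNdef, h, pl_apply']
        simp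
      rw [e, e, dist_self] at hdist
      linarith
    · exact h
  have hN' : (0:ℝ) < N := by exact_mod_cast hN
  have hcurve : ∀ s, R.curve d F s = pl N (fun k => pos d ((R.dm d).walk F k)) s := by
    intro s
    unfold Rect.curve
    rw [← hNdef]
  have hst := fun k => Pool.Agent.W462.DPL.step (R := R) hd.le F k
  obtain ⟨i, hiN, ⟨hi1, hi2⟩, hi⟩ := Pool.Agent.W462.DPL.pl_close' hN
    (p := fun k => pos d ((R.dm d).walk F k)) (fun k _ => hst k) x
  obtain ⟨j, hjN, ⟨hj1, hj2⟩, hj⟩ := Pool.Agent.W462.DPL.pl_close' hN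
    (p := fun k => pos d ((R.dm d).walk F k)) (fun k _ => hst k) y
  rw [← hcurve] at hi hj
  have hxy' : (x : ℝ) ≤ y := hxy
  have hxyN : (x : ℝ) * N ≤ y * N := mul_le_mul_of_nonneg_right hxy' hN'.le
  -- the indices
  have hij : i + 1 ≤ j := by
    by_contra hcon
    have h1 : j ≤ i := by omega
    have h2 : i ≤ j + 1 := by
      have : (i : ℝ) ≤ j + 1 := by linarith
      exact_mod_cast this
    have h3 : dist (pos d ((R.dm d).walk F i)) (pos d ((R.dm d).walk F j)) ≤ d / 2 := by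
      rcases (show i = j ∨ i = j + 1 by omega) with h | h
      · rw [h, dist_self]; positivity
      · rw [h, dist_comm]; exact hst j
    have h4 := dist_triangle4 (R.curve d F x) (pos d ((R.dm d).walk F i))
      (pos d ((R.dm d).walk F j)) (R.curve d F y)
    rw [dist_comm (pos d ((R.dm d).walk F j)) (R.curve d F y)] at h4
    nlinarith
  have hi' : dist (R.curve d F x) (pos d ((R.dm d).walk F (i + 1))) ≤ d := by
    have h1 := hst i
    have h2 := dist_triangle (R.curve d F x) (pos d ((R.dm d).walk F i))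
      (pos d ((R.dm d).walk F (i + 1)))
    linarith
  obtain ⟨σ', hσ'⟩ : ∃ σ' : St, σ' = (R.dm d).walk F (i + 1) := ⟨_, rfl⟩
  obtain ⟨m, hm⟩ : ∃ m, j = m + (i + 1) := ⟨j - (i + 1), by omega⟩
  have hwalk : ∀ s, (R.dm d).walk F (s + (i + 1)) = orb ((R.dm d).cfg F) σ' s := by
    intro s
    rw [hσ']
    unfold Dm.walk
    rw [orb_add]
  rw [← hσ'] at hi'
  rw [hm, hwalk] at hj
  have hzi : dist (R.curve d F x) (zp d σ'.1) ≤ 3 / 2 * d := by
    have h1 := dist_pos_zp hd.le σ'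
    have h2 := dist_triangle (R.curve d F x) (pos d σ') (zp d σ'.1)
    linarith
  have hzj : dist (R.curve d F y) (zp d (orb ((R.dm d).cfg F) σ' m).1) ≤ d := by
    have h1 := dist_pos_zp hd.le (orb ((R.dm d).cfg F) σ' m)
    have h2 := dist_triangle (R.curve d F y) (pos d (orb ((R.dm d).cfg F) σ' m))
      (zp d (orb ((R.dm d).cfg F) σ' m).1)
    linarith
  have hfar : Far σ'.1 r (orb ((R.dm d).cfg F) σ' m).1 := by
    apply far_of_sd
    by_contra hcon
    push Not at hcon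
    have h1 : ((sd σ'.1 (orb ((R.dm d).cfg F) σ' m).1 : ℤ) : ℝ) ≤ r := by
      have : sd σ'.1 (orb ((R.dm d).cfg F) σ' m).1 ≤ (r : ℤ) := hcon.le
      exact_mod_cast this
    have h2 := Y989.FR.LIM3.zp_le hd.le σ'.1 (orb ((R.dm d).cfg F) σ' m).1
    have h3 : d * ((sd σ'.1 (orb ((R.dm d).cfg F) σ' m).1 : ℤ) : ℝ) ≤ d * r :=
      mul_le_mul_of_nonneg_left h1 hd.le
    have h4 := dist_triangle4 (R.curve d F x) (zp d σ'.1)
      (zp d (orb ((R.dm d).cfg F) σ' m).1) (R.curve d F y)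
    rw [dist_comm (zp d (orb ((R.dm d).cfg F) σ' m).1) (R.curve d F y)] at h4
    nlinarith
  -- first exit
  have hex : ∃ τ, Far σ'.1 r (orb ((R.dm d).cfg F) σ' τ).1 := ⟨m, hfar⟩
  classical
  obtain ⟨τ, hτ, hτ1, hτm⟩ : ∃ τ, Far σ'.1 r (orb ((R.dm d).cfg F) σ' τ).1 ∧
      (∀ s < τ, ¬ Far σ'.1 r (orb ((R.dm d).cfg F) σ' s).1) ∧ τ ≤ m :=
    ⟨Nat.find hex, Nat.find_spec hex, fun s hs => Nat.find_min hex hs, Nat.find_min' hex hfar⟩
  have hin : inR ((R.dm d).l + 4 * r) ((R.dm d).r - 4 * r) (4 * r) ((R.dm d).h - 4 * r) σ'.1 := by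
    obtain ⟨⟨d1, d2⟩, d3, d4⟩ := hD
    have e1 : |(R.curve d F x).re - (zp d σ'.1).re| ≤ 3 / 2 * d := by
      have := Complex.abs_re_le_norm (R.curve d F x - zp d σ'.1)
      rw [Complex.sub_re, ← dist_eq_norm] at this
      exact this.trans hzi
    have e2 : |(R.curve d F x).im - (zp d σ'.1).im| ≤ 3 / 2 * d := by
      have := Complex.abs_im_le_norm (R.curve d F x - zp d σ'.1)
      rw [Complex.sub_im, ← dist_eq_norm] at this
      exact this.trans hzi
    rw [abs_le] at e1 e2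
    have p1 : (zp d σ'.1).re = d * σ'.1.1 := rfl
    have p2 : (zp d σ'.1).im = d * (σ'.1.2 + 1) := rfl
    rw [p1] at e1
    rw [p2] at e2
    have fl : ((⌊-(R.A / d)⌋ : ℤ) : ℝ) ≤ -(R.A / d) := Int.floor_le _
    have cB : R.B / d ≤ ((⌈R.B / d⌉ : ℤ) : ℝ) := Int.le_ceil _
    have cH : R.H / d ≤ ((⌈R.H / d⌉ : ℤ) : ℝ) := Int.le_ceil _
    have fl' : d * ((⌊-(R.A / d)⌋ : ℤ) : ℝ) ≤ -R.A := by
      have := mul_le_mul_of_nonneg_left fl hd.le
      have e : d * -(R.A / d) = -R.A := by field_simp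
      linarith
    have cB' : R.B ≤ d * ((⌈R.B / d⌉ : ℤ) : ℝ) := by
      have := mul_le_mul_of_nonneg_left cB hd.le
      have e : d * (R.B / d) = R.B := by field_simp
      linarith
    have cH' : R.H ≤ d * ((⌈R.H / d⌉ : ℤ) : ℝ) := by
      have := mul_le_mul_of_nonneg_left cH hd.le
      have e : d * (R.H / d) = R.H := by field_simp
      linarith
    have q : ∀ u w : ℤ, d * (u : ℝ) < d * w → u < w := by
      intro u w h
      have := lt_of_mul_lt_mul_left h hd.le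
      exact_mod_cast this
    have hl : (R.dm d).l = ⌊-(R.A / d)⌋ + 1 := rfl
    have hrr : (R.dm d).r = ⌈R.B / d⌉ - 1 := rfl
    have hh : (R.dm d).h = ⌈R.H / d⌉ - 2 := rfl
    unfold inR
    rw [hl, hrr, hh]
    have g1 : ⌊-(R.A / d)⌋ + 1 + 4 * (r : ℤ) < σ'.1.1 := by
      apply q
      push_cast
      nlinarith
    have g2 : σ'.1.1 < ⌈R.B / d⌉ - 1 - 4 * (r : ℤ) := by
      apply q
      push_cast
      nlinarith
    have g3 : 4 * (r : ℤ) < σ'.1.2 := by
      apply q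
      push_cast
      nlinarith
    have g4 : σ'.1.2 < ⌈R.H / d⌉ - 2 - 4 * (r : ℤ) := by
      apply q
      push_cast
      nlinarith
    exact ⟨⟨g1.le, g2.le⟩, g3.le, g4.le⟩
  have hgood : RFrN t c E M B n a σ' τ ((R.dm d).cfg F) := by
    by_contra hcon
    exact hbad ⟨σ', τ, hin, hτ1, hτ, hcon⟩
  obtain ⟨V, hV1, hV2, hV3⟩ := hgood
  refine ⟨V, hV1, hV2, fun w hw => ?_⟩
  obtain ⟨⟨s, hsτ, hsw⟩, hTk⟩ := hV3 w hw
  have hle : s + (i + 1) ≤ j := by omega
  have hlen : s + (i + 1) ≤ N := by omega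
  refine ⟨hTk, ?_, s + (i + 1), by omega, ?_, nt N _ hlen, ⟨?_, ?_⟩, ?_⟩
  · have h1 := near_orb hτ1 hsτ
    rw [hsw] at h1
    unfold sd at h1
    rw [max_le_iff, abs_le, abs_le] at h1
    unfold inR at hin ⊢
    omega
  · rw [hwalk, hsw]
  · show (x : ℝ) ≤ ((s + (i + 1) : ℕ) : ℝ) / N
    rw [le_div_iff₀ hN']
    push_cast
    have : (0:ℝ) ≤ s := Nat.cast_nonneg _
    linarith
  · show ((s + (i + 1) : ℕ) : ℝ) / N ≤ y
    rw [div_le_iff₀ hN']
    have : ((s + (i + 1) : ℕ) : ℝ) ≤ j := by exact_mod_cast hle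
    linarith
  · rw [hcurve]
    exact pl_node (fun k => pos d ((R.dm d).walk F k)) hN hlen (nt_mul hN hlen)

end Pool.Agent.U151.LB
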