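import Pool.Agent.U151.LB.ArcL
import Pool.Agent.U151.OB.Fin

/-!
Arcs of the limits which are not a point meet the open square.
-/

set_option autoImplicit false

namespace Pool.Agent.U151.LB

open MeasureTheory Filter Topology H342P H342L H342T
open Pool.Agent.W822.PD (Sqc Sq Tr)
open scoped ENNReal NNReal

/-- Connected sets which are not a point have dimension at least one. -/
theorem one_le_dimH {S : Set ℂ} (hS : IsPreconnected S) (h : ¬ S.Subsingleton) : 1 ≤ dimH S := by
  have key : ∀ (g : ℂ → ℝ), LipschitzWith 1 g → ∀ x ∈ S, ∀ y ∈ S, g x < g y → 1 ≤ dimH S := by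
    intro g hg x hx y hy hxy
    have h1 : IsPreconnected (g '' S) := hS.image g hg.continuous.continuousOn
    have h2 : Set.Icc (g x) (g y) ⊆ g '' S :=
      h1.Icc_subset ⟨x, hx, rfl⟩ ⟨y, hy, rfl⟩
    have h3 : dimH (g '' S) = 1 := by
      have h4 : (interior (g '' S)).Nonempty := by
        refine Set.Nonempty.mono (interior_mono h2) ?_
        rw [interior_Icc]
        exact Set.nonempty_Ioo.2 hxy
      rw [Real.dimH_of_nonempty_interior h4, Module.finrank_self, Nat.cast_one]
    rw [← h3]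
    exact hg.dimH_image_le S
  have hre : LipschitzWith 1 Complex.re := by
    refine LipschitzWith.of_dist_le_mul fun x y => ?_
    rw [NNReal.coe_one, one_mul, Real.dist_eq, ← Complex.sub_re, Complex.dist_eq]
    exact Complex.abs_re_le_norm _
  have him : LipschitzWith 1 Complex.im := by
    refine LipschitzWith.of_dist_le_mul fun x y => ?_
    rw [NNReal.coe_one, one_mul, Real.dist_eq, ← Complex.sub_im, Complex.dist_eq]
    exact Complex.abs_im_le_norm _
  rw [Set.not_subsingleton_iff] at h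
  obtain ⟨x, hx, y, hy, hxy⟩ := h
  by_cases h1 : x.re = y.re
  · have h2 : x.im ≠ y.im := fun h2 => hxy (Complex.ext h1 h2)
    rcases lt_or_gt_of_ne h2 with h3 | h3
    · exact key _ him x hx y hy h3
    · exact key _ him y hy x hx h3
  · rcases lt_or_gt_of_ne h1 with h3 | h3
    · exact key _ hre x hx y hy h3
    · exact key _ hre y hy x hx h3

theorem meets {sel : (n : ℕ) → Finset Plain.Edge → ℤ × ℤ}
    {γ : (n : ℕ) → Finset Plain.Edge → Curve} (hT : Tr sel γ) {k : ℕ → ℕ}
    (hk : Tendsto k atTop atTop) {μ : ProbabilityMeasure Curve}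
    (hμ : Tendsto (fun i => lawOf (k i) (γ (k i))) atTop (𝓝 μ)) :
    ∀ᵐ c : Curve ∂(μ : Measure Curve), ∀ u v : unitInterval,
      ¬ (c.path '' Set.Icc u v).Subsingleton → (c.path '' Set.Icc u v ∩ Sq).Nonempty := by
  have hpos : ∀ j : ℕ, (0:ℝ) < 1 / ((j:ℝ) + 1) := fun j => by positivity
  have h2 : ∀ᵐ c : Curve ∂(μ : Measure Curve), ∀ j : ℕ, Set.range c.path ⊆ Sqc ∧
      dimH {z | z ∈ Set.range c.path ∧ z ∈ Sqc \ Sq ∧ ∃ u, 1 / ((j:ℝ) + 1) ≤ dist (c.path u) z} ≤
        ENNReal.ofReal (2/3) := by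
    rw [ae_all_iff]
    intro j
    exact Pool.Agent.W597.PDBL.bl Pool.Agent.W320.PD.HB.hb sel γ hT k hk μ hμ _ (hpos j)
  filter_upwards [h2] with c c2 u v huv
  by_contra hcon
  rw [Set.not_nonempty_iff_eq_empty] at hcon
  have hsub : c.path '' Set.Icc u v ⊆ ⋃ j : ℕ,
      {z | z ∈ Set.range c.path ∧ z ∈ Sqc \ Sq ∧ ∃ u, 1 / ((j:ℝ) + 1) ≤ dist (c.path u) z} := by
    intro z hz
    have hr : z ∈ Set.range c.path := Set.image_subset_range _ _ hz
    have hns : z ∉ Sq := fun h => by
      have : z ∈ c.path '' Set.Icc u v ∩ Sq := ⟨hz, h⟩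
      rw [hcon] at this
      exact this
    obtain ⟨y, hy, hyz⟩ : ∃ y ∈ c.path '' Set.Icc u v, y ≠ z := by
      by_contra h3
      push Not at h3
      exact huv fun a ha b hb => (h3 a ha).trans (h3 b hb).symm
    obtain ⟨w, -, rfl⟩ := hy
    obtain ⟨j, hj⟩ := exists_nat_one_div_lt (dist_pos.2 hyz)
    exact Set.mem_iUnion.mpr ⟨j, hr, ⟨(c2 0).1 hr, hns⟩, w, hj.le⟩
  have h3 : dimH (c.path '' Set.Icc u v) ≤ ENNReal.ofReal (2/3) := by
    refine (dimH_mono hsub).trans ?_
    rw [dimH_iUnion]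
    exact iSup_le fun j => (c2 j).2
  have h4 := (one_le_dimH (isPreconnected_Icc.image _ c.path.continuous.continuousOn) huv).trans h3
  have h5 : ENNReal.ofReal (2/3) < 1 := by
    rw [← ENNReal.ofReal_one]
    exact (ENNReal.ofReal_lt_ofReal_iff one_pos).2 (by norm_num)
  exact absurd h4 (not_le.2 h5)

end Pool.Agent.U151.LB
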