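import Pool.Agent.U151.LB.ArcX
import Pool.Agent.U151.LB.ArcM

/-!
All subpaths of the limits of the exploration path of a rectangle: lower bound.
-/

set_option autoImplicit false

namespace Pool.Agent.U151.LB

open H974 H984N MeasureTheory Filter Topology
open Pool.Agent.Y989.FR (Fro)
open scoped ENNReal NNReal

theorem iUnion_DkX (R : Rect) : (⋃ m : ℕ, DkX R (5 * (1 / ((m : ℝ) + 1) / 2))) = R.D := by
  ext z
  simp only [Set.mem_iUnion]
  constructor
  · rintro ⟨m, ⟨h1, h2⟩, h3, h4⟩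
    have h0 : 0 < 5 * (1 / ((m : ℝ) + 1) / 2) := by positivity
    exact ⟨by linarith, by linarith, by linarith, by linarith⟩
  · rintro ⟨h1, h2, h3, h4⟩
    obtain ⟨η, hη⟩ : ∃ η : ℝ, η = min (min (z.re + R.A) (R.B - z.re)) (min z.im (R.H - z.im)) :=
      ⟨_, rfl⟩
    have hη0 : 0 < η := by
      rw [hη]
      exact lt_min (lt_min (by linarith) (by linarith)) (lt_min h3 (by linarith))
    have g1 : η ≤ z.re + R.A := by rw [hη]; exact (min_le_left _ _).trans (min_le_left _ _)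
    have g2 : η ≤ R.B - z.re := by rw [hη]; exact (min_le_left _ _).trans (min_le_right _ _)
    have g3 : η ≤ z.im := by rw [hη]; exact (min_le_right _ _).trans (min_le_left _ _)
    have g4 : η ≤ R.H - z.im := by rw [hη]; exact (min_le_right _ _).trans (min_le_right _ _)
    obtain ⟨m, hm⟩ := exists_nat_one_div_lt (show 0 < η / 5 by positivity)
    refine ⟨m, ⟨?_, ?_⟩, ?_, ?_⟩ <;> linarith

theorem mono_DkX (R : Rect) : Monotone (fun m : ℕ => DkX R (5 * (1 / ((m : ℝ) + 1) / 2))) := by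
  intro m m' hmm z hz
  obtain ⟨⟨h1, h2⟩, h3, h4⟩ := hz
  have h5 : 1 / ((m' : ℝ) + 1) ≤ 1 / ((m : ℝ) + 1) := Nat.one_div_le_one_div hmm
  exact ⟨⟨by linarith, by linarith⟩, by linarith, by linarith⟩

/-- Every subpath of the limit, unless it is a point, which meets the domain, meets the boundaries
of the components of the complement in a set of dimension at least `4/3`. -/
theorem arcsX (R : Rect) {δ : ℕ → ℝ} (hδ : ∀ i, 0 < δ i) (hlim : Tendsto δ atTop (𝓝 0))
    {μ : ProbabilityMeasure X} (hμ : Tendsto (fun i => R.law (δ i)) atTop (𝓝 μ)) :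
    ∀ᵐ p : X ∂(μ : Measure X), ∀ u v : unitInterval,
      (p.1 '' Set.Icc u v ∩ R.D).Nonempty → ¬ (p.1 '' Set.Icc u v).Subsingleton →
      (4/3 : ℝ≥0∞) ≤ dimH (Fro (Set.range p.1) ∩ p.1 '' Set.Icc u v) := by
  have e43 : ENNReal.ofReal (4/3) = 4/3 := by
    rw [ENNReal.ofReal_div_of_pos (by norm_num)]
    norm_num
  have h3 : ∀ᵐ p : X ∂(μ : Measure X), ∀ j m : ℕ, ∀ u v : unitInterval, u ≤ v →
      p.1 u ∈ DkX R (5 * (1 / ((m : ℝ) + 1) / 2)) →
      1 / ((m : ℝ) + 1) < dist (p.1 u) (p.1 v) →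
      ENNReal.ofReal (4/3 - 1 / ((j:ℝ) + 1)) ≤
        dimH (Fro (Set.range p.1) ∩ p.1 '' Set.Icc u v) := by
    rw [ae_all_iff]
    intro j
    rw [ae_all_iff]
    intro m
    rcases le_or_gt (4/3 - 1 / ((j:ℝ) + 1)) 0 with h | h
    · filter_upwards with c u v _ _ _
      rw [ENNReal.ofReal_of_nonpos h]
      exact bot_le
    · have h4 : (0:ℝ) < 1 / ((j:ℝ) + 1) := by positivity
      exact llX Y989.FR.QC.t_QC Y989.FR.GEO.t_GEO Y989.FR.CHN.t_CHN R hδ hlim hμ h (by linarith)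
        (by positivity)
  filter_upwards [h3] with c c3 u v huv1 huv2
  have hlim : Tendsto (fun j : ℕ => ENNReal.ofReal (4/3 - 1 / ((j:ℝ) + 1))) atTop
      (𝓝 (ENNReal.ofReal (4/3 - 0))) := by
    apply ENNReal.tendsto_ofReal
    apply tendsto_const_nhds.sub
    exact tendsto_one_div_add_atTop_nhds_zero_nat
  rw [sub_zero, e43] at hlim
  refine le_of_tendsto' hlim (fun j => ?_)
  refine all_arcs (mono_DkX R) ?_ (fun m u v huv h1 h2 => c3 j m u v huv h1 h2) ?_ huv2
  · rw [iUnion_DkX]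
    exact Pool.Agent.TH990.FU.D_open R
  · rw [iUnion_DkX]
    exact huv1

end Pool.Agent.U151.LB
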