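import Pool.Agent.U151.LB.Sym
import Pool.Agent.H984R3.Per.LowSharp

set_option autoImplicit false

/-!
ROT and LOW: rotation invariance; union bound over the starts and the four directions (adapted from
`Pool.Agent.W320.PD`).
-/

namespace Pool.Agent.U151.LB

open H974 H12S H984P H342P Finset H984N
open Pool.Agent.W822.PD (EnV)

theorem rF_corner (v : Vtx) (q : Q4) : face (rV v, rQ q) = rF (face (v, q)) := rot_face (v, q)

theorem rot_frA (M B a : ℕ) (σ : St) (F : Finset Edg) (v : Vtx)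
    (h : FrA M B a (rS σ) Set.univ (↑(rM F)) (rV v)) : FrA M B a σ Set.univ (↑F) v := by
  unfold FrA at h ⊢
  rw [Set.inter_univ, ← Set.compl_eq_univ_sdiff] at h ⊢
  obtain ⟨h1, ⟨q', h2⟩, ⟨u', h3, h4⟩, -, h5⟩ := h
  obtain ⟨u, rfl⟩ := rV.surjective u'
  obtain ⟨q, rfl⟩ := LT_rQ.2 q'
  rw [rF_corner, rot_face] at h2
  exact ⟨rot_reach.mp h1, ⟨q, rot_dreach.mp h2⟩, ⟨u, rot_reach.mp h3, LT_far.mp h4⟩,
    Set.subset_univ _, Tk_rot.mp h5⟩

theorem sd_rot (v w : Vtx) : sd (rV v) (rV w) = sd v w := iso_rot.dist v w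

theorem rot : S_ROT := by
  intro t c E M B a σ F h
  obtain ⟨V, hc, hE, hV⟩ := h
  refine ⟨V.map rV.symm.toEmbedding, ?_, ?_, ?_⟩
  · rw [Finset.card_map]
    exact hc
  · refine le_trans (le_of_eq ?_) hE
    unfold EnV
    rw [Finset.sum_map]
    refine Finset.sum_congr rfl fun v _ => ?_
    rw [Finset.sum_map]
    refine Finset.sum_congr rfl fun w _ => ?_
    have : sd (rV.symm v) (rV.symm w) = sd v w := by
      rw [← sd_rot, Equiv.apply_symm_apply, Equiv.apply_symm_apply]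
    simp only [Equiv.coe_toEmbedding, this]
  · intro v hv
    rw [Finset.mem_map] at hv
    obtain ⟨w, hw, rfl⟩ := hv
    apply rot_frA
    simp only [Equiv.coe_toEmbedding, Equiv.apply_symm_apply]
    exact hV w hw

theorem low_back {M B a : ℕ} {F : Set Edg} {σ σ' : St} {v : Vtx} (h1 : Reach F σ.1 σ'.1)
    (h2 : DReach Fᶜ (face σ) (face σ')) (h : FrA M B a σ' Set.univ F v) :
    FrA M B a σ Set.univ F v := by
  obtain ⟨k1, ⟨q, k2⟩, k3, k4, k5⟩ := h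
  rw [Set.compl_eq_univ_sdiff] at h2
  refine ⟨?_, ⟨q, h2.trans k2⟩, k3, k4, k5⟩
  rw [Set.inter_univ] at k1 ⊢
  exact h1.trans k1

theorem low_back' {t c E : ℝ} {M B a : ℕ} {F : Set Edg} {σ σ' : St} (h1 : Reach F σ.1 σ'.1)
    (h2 : DReach Fᶜ (face σ) (face σ')) (h : RFr t c E M B a σ' Set.univ F) :
    RFr t c E M B a σ Set.univ F := by
  obtain ⟨V, hc, hE, hV⟩ := h
  exact ⟨V, hc, hE, fun v hv => low_back h1 h2 (hV v hv)⟩

theorem low (hI : S_ITE) (hRot : S_ROT) : S_LOW := by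
  obtain ⟨C, hC, hcount⟩ := strand_count_sum
  refine ⟨8 * C, by positivity, ?_⟩
  intro t0 c0 E0 MM BB0 n a K δ R ha hK hδ0 hδ1 hok hR
  have ha1 : 1 ≤ a := by omega
  have hw : 0 ≤ (1 - δ) ^ K := pow_nonneg (by linarith) _
  have hR1 : 1 ≤ R := by
    have : (0:ℤ) ≤ 121 * a * K := by positivity
    omega
  have h := LS_four (n := n) (B := 2 * C * ((n:ℝ) / a + 1) ^ 2 * (1 - δ) ^ K) (R := R)
    (E := fun b c F => ∃ i ∈ Finset.range (n / a + 2), ∃ y0 ∈ Finset.Icc c (c + n),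
      RE ((b + i * a) - 60 * a) ((b + i * a) + 121 * a * K + 60 * a) (y0 - 2 * R - 60 * a)
        (y0 + 2 * R + 60 * a) ⊆ RE b (b + n) c (c + n) ∧
      (Long' (b + i * a) y0 (2 * R) a K (↑F) ∧
        ¬ RFr t0 c0 E0 MM BB0 a (st0 (b + i * a) y0) Set.univ (↑F)))
    (P := fun b c F σ t => inR (b + 3 * R + 60 * a) (b + n - 3 * R - 60 * a) (c + 3 * R + 60 * a)
      (c + n - 3 * R - 60 * a) σ.1 ∧
      (∀ s < t, ¬ Far σ.1 R (orb (↑F) σ s).1) ∧ ¬ RFr t0 c0 E0 MM BB0 a σ Set.univ (↑F))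
    (G := fun F => ∃ σ : St,
      inR (3 * R + 60 * a) (n - 3 * R - 60 * a) (3 * R + 60 * a) (n - 3 * R - 60 * a) σ.1 ∧
      (∃ t, Far σ.1 R (orb (↑F) σ t).1) ∧ ¬ RFr t0 c0 E0 MM BB0 a σ Set.univ (↑F)) ?_ ?_ ?_ ?_
  · refine h.trans (le_of_eq ?_)
    ring
  · intro b c
    refine LS_sum (K := K) (R := R) hw ha hC hcount
      (fun A y0 F => Long' A y0 (2 * R) a K (↑F) ∧
        ¬ RFr t0 c0 E0 MM BB0 a (st0 A y0) Set.univ (↑F)) ?_
    intro A y0 hS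
    exact hI t0 c0 E0 MM BB0 _ A y0 (2 * R) a K δ ha1 hK hδ0 hδ1 hS (hok b c A y0)
  · rintro b c F σ t ⟨h1, h2, h3⟩
    refine ⟨?_, ?_, fun h4 => h3 (hRot _ _ _ _ _ _ _ _ h4)⟩
    · simp only [inR, rS, rV, Equiv.coe_fn_mk] at h1 ⊢
      omega
    · intro s hs
      rw [rot_orb]
      exact fun hh => h2 s hs (LT_far.1 hh)
  · rintro b c F σ t ⟨hin, hf, hM⟩ hx
    obtain ⟨i, hi, y0, hy0, hS, Y, T, s0, hs0, hst, hT, hy⟩ := LS_det ha1 hK hR hin hf hx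
    refine ⟨i, hi, y0, hy0, hS, ⟨Y, T, hst, hy⟩, fun h4 => hM ?_⟩
    obtain ⟨h1, h2⟩ := LT_orb (F := ↑F) (σ := σ) s0
    rw [hs0] at h1 h2
    exact low_back' h1 h2 h4
  · rintro F ⟨σ, hin, hfar, hM⟩
    obtain ⟨t, ht, hex⟩ := first_far hR1 hfar
    exact ⟨σ, t, ⟨by simpa using hin, ht, hM⟩, hex⟩

end Pool.Agent.U151.LB
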