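import Pool.Agent.U151.LB.Vis
import Pool.Agent.U151.LB.Low

/-!
LOW for visited vertices: union bound over the starts and the four directions, in every box.
-/

set_option autoImplicit false

namespace Pool.Agent.U151.LB

open H974 H12S H984P H342P Finset H984N
open Pool.Agent.W822.PD (EnV)
open Pool.Agent.Y989.FR (Tk)

theorem rM_box (b c : ℤ) (n : ℕ) : rM (RE b (b + n) c (c + n)) =
    RE (-c - n) (-c - n + n) b (b + n) := by
  rw [rot_RE]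
  congr 1 <;> ring

/-- `H984P.LS_four` in every box. -/
theorem LS4 {n : ℕ} {B : ℝ} {R b0 c0 : ℤ} (E : ℤ → ℤ → Finset Edg → Prop)
    (P : ℤ → ℤ → Finset Edg → St → ℕ → Prop)
    (hE : ∀ b c : ℤ, Pr (fun _ => (1/2:ℝ)) (RE b (b + n) c (c + n)) (E b c) ≤ B)
    (hrot : ∀ b c F σ t, P b c F σ t → P (-c - n) b (rM F) (rS σ) t)
    (hdet : ∀ b c F σ t, P b c F σ t → (orb (↑F) σ t).1.1 = σ.1.1 + R → E b c F)
    (G : Finset Edg → Prop) (hG : ∀ F, G F → ∃ σ t, P b0 c0 F σ t ∧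
      ((orb (↑F) σ t).1.1 = σ.1.1 + R ∨ (orb (↑F) σ t).1.2 = σ.1.2 + R ∨
        (orb (↑F) σ t).1.1 = σ.1.1 - R ∨ (orb (↑F) σ t).1.2 = σ.1.2 - R)) :
    Pr (fun _ => (1/2:ℝ)) (RE b0 (b0 + n) c0 (c0 + n)) G ≤ 4 * B := by
  have hok2 : Ok (fun _ : Edg => (1/2:ℝ)) := fun _ => ⟨by norm_num, by norm_num⟩
  have e0 := hE b0 c0
  have p1 : Pr (fun _ => (1/2:ℝ)) (RE b0 (b0 + n) c0 (c0 + n))
      (fun F => E (-c0 - n) b0 (rM F)) ≤ B := by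
    rw [← rot_pr, rM_box]
    exact hE _ _
  have p2 : Pr (fun _ => (1/2:ℝ)) (RE b0 (b0 + n) c0 (c0 + n))
      (fun F => E (-b0 - n) (-c0 - n) (rM (rM F))) ≤ B := by
    rw [← rot_pr (A := fun F => E (-b0 - n) (-c0 - n) (rM F)), rM_box, ← rot_pr, rM_box]
    exact hE _ _
  have p3 : Pr (fun _ => (1/2:ℝ)) (RE b0 (b0 + n) c0 (c0 + n))
      (fun F => E (-(-c0 - n) - n) (-b0 - n) (rM (rM (rM F)))) ≤ B := by
    rw [← rot_pr (A := fun F => E (-(-c0 - n) - n) (-b0 - n) (rM (rM F))), rM_box,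
      ← rot_pr (A := fun F => E (-(-c0 - n) - n) (-b0 - n) (rM F)), rM_box, ← rot_pr, rM_box]
    exact hE _ _
  have key : Pr (fun _ => (1/2:ℝ)) (RE b0 (b0 + n) c0 (c0 + n)) G ≤
      Pr (fun _ => (1/2:ℝ)) (RE b0 (b0 + n) c0 (c0 + n)) (fun F => (E b0 c0 F ∨
        E (-c0 - n) b0 (rM F)) ∨ (E (-b0 - n) (-c0 - n) (rM (rM F)) ∨
          E (-(-c0 - n) - n) (-b0 - n) (rM (rM (rM F))))) := by
    apply Pr_mono hok2
    intro F _ hGF
    obtain ⟨σ, t, q0, hex⟩ := hG F hGF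
    have q1 := hrot _ _ _ _ _ q0
    have q2 := hrot _ _ _ _ _ q1
    have q3 := hrot _ _ _ _ _ q2
    rcases hex with h | h | h | h
    · exact Or.inl (Or.inl (hdet _ _ _ _ _ q0 h))
    · refine Or.inr (Or.inr (hdet _ _ _ _ _ q3 ?_))
      rw [rot_orb, rot_orb, rot_orb]
      simp only [rS, rV, Equiv.coe_fn_mk]
      omega
    · refine Or.inr (Or.inl (hdet _ _ _ _ _ q2 ?_))
      rw [rot_orb, rot_orb]
      simp only [rS, rV, Equiv.coe_fn_mk]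
      omega
    · refine Or.inl (Or.inr (hdet _ _ _ _ _ q1 ?_))
      rw [rot_orb]
      simp only [rS, rV, Equiv.coe_fn_mk]
      omega
  have u1 := Pr_or_le hok2 (RE b0 (b0 + n) c0 (c0 + n)) (fun F => E b0 c0 F ∨
    E (-c0 - n) b0 (rM F))
    (fun F => E (-b0 - n) (-c0 - n) (rM (rM F)) ∨
      E (-(-c0 - n) - n) (-b0 - n) (rM (rM (rM F))))
  have u2 := Pr_or_le hok2 (RE b0 (b0 + n) c0 (c0 + n)) (fun F => E b0 c0 F)
    (fun F => E (-c0 - n) b0 (rM F))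
  have u3 := Pr_or_le hok2 (RE b0 (b0 + n) c0 (c0 + n))
    (fun F => E (-b0 - n) (-c0 - n) (rM (rM F)))
    (fun F => E (-(-c0 - n) - n) (-b0 - n) (rM (rM (rM F))))
  have b0' : Pr (fun _ => (1/2:ℝ)) (RE b0 (b0 + n) c0 (c0 + n)) (fun F => E b0 c0 F) ≤ B := e0
  linarith

theorem rotV {t c E : ℝ} {M B a : ℕ} {σ : St} {τ : ℕ} {F : Finset Edg}
    (h : RFrV t c E M B a (rS σ) τ (↑(rM F))) : RFrV t c E M B a σ τ (↑F) := by
  obtain ⟨V, hc, hE, hV⟩ := h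
  refine ⟨V.map rV.symm.toEmbedding, ?_, ?_, ?_⟩
  · rw [Finset.card_map]
    exact hc
  · refine le_trans (le_of_eq ?_) hE
    unfold EnV
    rw [Finset.sum_map]
    refine Finset.sum_congr rfl fun v _ => ?_
    rw [Finset.sum_map]
    refine Finset.sum_congr rfl fun w _ => ?_
    have : sd (rV.symm v) (rV.symm w) = sd v w := by
      rw [← sd_rot, Equiv.apply_symm_apply, Equiv.apply_symm_apply]
    simp only [Equiv.coe_toEmbedding, this]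
  · intro v hv
    rw [Finset.mem_map] at hv
    obtain ⟨w, hw, rfl⟩ := hv
    obtain ⟨⟨s, hs, h1⟩, h2⟩ := hV w hw
    simp only [Equiv.coe_toEmbedding]
    refine ⟨⟨s, hs, ?_⟩, ?_⟩
    · rw [rot_orb] at h1
      have h3 : rV (orb (↑F) σ s).1 = w := h1
      rw [← h3, Equiv.symm_apply_apply]
    · refine Tk_rot.1 ?_
      rw [Equiv.apply_symm_apply]
      exact h2

/-- LOW for visited vertices. -/
theorem lowV : ∃ C : ℝ, 0 < C ∧ ∀ (t c E : ℝ) (M B n a K : ℕ) (δ : ℝ) (R : ℤ), 64 ≤ a →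
    1 ≤ K → 0 ≤ δ → δ ≤ 1 →
    (∀ b c' A y0 : ℤ, TrialF t c E M B (RE b (b + n) c' (c' + n)) A y0 a δ) →
    121 * a * (K + 1 : ℕ) + a + 2 ≤ R → ∀ b0 c0 : ℤ,
    Pr (fun _ => (1/2:ℝ)) (RE b0 (b0 + n) c0 (c0 + n)) (fun F => ∃ (σ : St) (τ : ℕ),
      inR (b0 + 3 * R + 60 * a) (b0 + n - 3 * R - 60 * a) (c0 + 3 * R + 60 * a)
        (c0 + n - 3 * R - 60 * a) σ.1 ∧
      (∀ s < τ, ¬ Far σ.1 R (orb (↑F) σ s).1) ∧ Far σ.1 R (orb (↑F) σ τ).1 ∧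
      ¬ RFrV t c E M B a σ τ (↑F)) ≤
      C * ((n:ℝ) / a + 1) ^ 2 * (1 - δ) ^ K := by
  obtain ⟨C, hC, hcount⟩ := strand_count_sum
  refine ⟨8 * C, by positivity, ?_⟩
  intro t0 c1 E0 MM BB0 n a K δ R ha hK hδ0 hδ1 hok hR b0 c0
  have ha1 : 1 ≤ a := by omega
  have hw : 0 ≤ (1 - δ) ^ K := pow_nonneg (by linarith) _
  have hR1 : 1 ≤ R := by
    have : (0:ℤ) ≤ 121 * a * (K + 1 : ℕ) := by positivity
    omega
  have h := LS4 (n := n) (B := 2 * C * ((n:ℝ) / a + 1) ^ 2 * (1 - δ) ^ K) (R := R)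
    (b0 := b0) (c0 := c0)
    (E := fun b c F => ∃ i ∈ Finset.range (n / a + 2), ∃ y0 ∈ Finset.Icc c (c + n),
      RE ((b + i * a) - 60 * a) ((b + i * a) + 121 * a * (K + 1 : ℕ) + 60 * a)
        (y0 - 2 * R - 60 * a) (y0 + 2 * R + 60 * a) ⊆ RE b (b + n) c (c + n) ∧
      (∃ (Y : ℤ) (T : ℕ), Strand (↑F) (b + i * a) y0 ((b + i * a) + 121 * a * (K + 1 : ℕ)) Y T ∧
        (∀ s ≤ T, |(orb (↑F) (st0 (b + i * a) y0) s).1.2 - y0| ≤ 2 * R) ∧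
        ¬ RFrV t0 c1 E0 MM BB0 a (st0 (b + i * a) y0) T (↑F)))
    (P := fun b c F σ t => inR (b + 3 * R + 60 * a) (b + n - 3 * R - 60 * a) (c + 3 * R + 60 * a)
      (c + n - 3 * R - 60 * a) σ.1 ∧
      (∀ s < t, ¬ Far σ.1 R (orb (↑F) σ s).1) ∧ ¬ RFrV t0 c1 E0 MM BB0 a σ t (↑F))
    ?_ ?_ ?_ (G := fun F => ∃ (σ : St) (τ : ℕ),
      inR (b0 + 3 * R + 60 * a) (b0 + n - 3 * R - 60 * a) (c0 + 3 * R + 60 * a)
        (c0 + n - 3 * R - 60 * a) σ.1 ∧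
      (∀ s < τ, ¬ Far σ.1 R (orb (↑F) σ s).1) ∧ Far σ.1 R (orb (↑F) σ τ).1 ∧
      ¬ RFrV t0 c1 E0 MM BB0 a σ τ (↑F)) ?_
  · refine h.trans (le_of_eq ?_)
    ring
  · intro b c
    refine LS_sum (K := K + 1) (R := R) (n := n) hw (by omega) hC hcount
      (fun A y0 F => ∃ (Y : ℤ) (T : ℕ), Strand (↑F) A y0 (A + 121 * a * (K + 1 : ℕ)) Y T ∧
        (∀ s ≤ T, |(orb (↑F) (st0 A y0) s).1.2 - y0| ≤ 2 * R) ∧
        ¬ RFrV t0 c1 E0 MM BB0 a (st0 A y0) T (↑F)) ?_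
    intro A y0 hS
    refine ite_vis ha hK hδ1 (Finset.Subset.trans ?_ hS) (hok b c A y0)
    unfold H984P.BB
    refine RE_subset le_rfl ?_ le_rfl le_rfl
    push_cast
    nlinarith
  · rintro b c F σ t ⟨h1, h2, h3⟩
    refine ⟨?_, ?_, fun h4 => h3 (rotV h4)⟩
    · simp only [inR, rS, rV, Equiv.coe_fn_mk] at h1 ⊢
      omega
    · intro s hs
      rw [rot_orb]
      exact fun hh => h2 s hs (LT_far.1 hh)
  · rintro b c F σ t ⟨hin, hf, hM⟩ hx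
    obtain ⟨i, hi, y0, hy0, hS, Y, T, s0, hs0, hst, hT, hy⟩ :=
      LS_det (K := K + 1) ha1 (by omega) (by exact_mod_cast hR) hin hf hx
    refine ⟨i, hi, y0, hy0, by exact_mod_cast hS, Y, T, by exact_mod_cast hst, hy, fun h4 => hM ?_⟩
    obtain ⟨V, hV1, hV2, hV3⟩ := h4
    refine ⟨V, hV1, hV2, fun v hv => ?_⟩
    obtain ⟨⟨s, hs, h5⟩, h6⟩ := hV3 v hv
    refine ⟨⟨s + s0, by omega, ?_⟩, h6⟩
    rw [orb_add, hs0]
    exact h5
  · rintro F ⟨σ, τ, hin, hf, hfar, hM⟩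
    obtain ⟨t, ht, hex⟩ := first_far hR1 ⟨τ, hfar⟩
    have hft : Far σ.1 R (orb (↑F) σ t).1 := by
      unfold Far
      omega
    have : t = τ := by
      rcases lt_trichotomy t τ with h | h | h
      · exact absurd hft (hf t h)
      · exact h
      · exact absurd hfar (ht τ h)
    subst this
    exact ⟨σ, t, ⟨hin, hf, hM⟩, hex⟩

end Pool.Agent.U151.LB
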