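import Pool.Agent.U151.LB.Ite
import Pool.Agent.H984R3.Per.SideL

/-!
Visited vertices: the vertices which a trial produces are visited by the prolonged strand.
-/

set_option autoImplicit false

namespace Pool.Agent.U151.LB

open H974 H984P H342P Finset
open Pool.Agent.Y989.FR (Tk)
open Pool.Agent.W822.PD (EnV)

theorem ends_mv {σ : St} : (src (ae σ) = σ.1 ∧ tgt (ae σ) = (mv σ).1) ∨
    (src (ae σ) = (mv σ).1 ∧ tgt (ae σ) = σ.1) := by
  obtain ⟨⟨x, y⟩, q⟩ := σ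
  cases q
  · left; simp
  · left; simp
  · right; simp
  · right; simp

theorem faces_rt {σ : St} : (dsrc (ae σ) = face σ ∧ dtgt (ae σ) = face (rt σ)) ∨
    (dsrc (ae σ) = face (rt σ) ∧ dtgt (ae σ) = face σ) := by
  obtain ⟨⟨x, y⟩, q⟩ := σ
  cases q
  · right; simp
  · left; simp
  · left; simp
  · right; simp

/-- The vertices which are connected, locally, to the start of a strand are visited. -/
theorem vis {F : Set Edg} {A y0 X Y : ℤ} {T : ℕ} (hst : Strand F A y0 X Y T) {W : Set Edg}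
    (hW : ∀ e ∈ W, e ∈ Exm F (st0 A y0) T ∨ (A ≤ e.1 ∧ e.1 < X)) {v : Vtx} {q : Q4}
    (h1 : Reach (F ∩ W) (st0 A y0).1 v) (h2 : DReach (W \ F) (face (st0 A y0)) (face (v, q)))
    (hv1 : A < v.1) (hv2 : v.1 < X) : ∃ s ≤ T, (orb F (st0 A y0) s).1 = v := by
  obtain ⟨hv, hf, hS⟩ := side_exists hst
  have c1 : ∀ e ∈ F ∩ W, hv (src e) = hv (tgt e) := by
    rintro e ⟨heF, heW⟩
    by_cases hE : e ∈ Exm F (st0 A y0) T
    · obtain ⟨s, hs, rfl⟩ := mem_Exm.1 hE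
      have e1 := (hS.strand s hs.le).1
      have e2 := (hS.strand (s + 1) hs).1
      rw [orb_succ, nxt_open heF] at e2
      rcases ends_mv (σ := orb F (st0 A y0) s) with ⟨h3, h4⟩ | ⟨h3, h4⟩
      · rw [h3, h4, e1, e2]
      · rw [h3, h4, e1, e2]
    · have h3 : A ≤ e.1 ∧ e.1 < X := (hW e heW).resolve_left hE
      exact (hS.free e hE h3.1 (by omega)).1
  have c2 : ∀ e ∈ W \ F, hf (dsrc e) = hf (dtgt e) := by
    rintro e ⟨heW, heF⟩
    by_cases hE : e ∈ Exm F (st0 A y0) T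
    · obtain ⟨s, hs, rfl⟩ := mem_Exm.1 hE
      have e1 := (hS.strand s hs.le).2
      have e2 := (hS.strand (s + 1) hs).2
      rw [orb_succ, nxt_closed heF] at e2
      rcases faces_rt (σ := orb F (st0 A y0) s) with ⟨h3, h4⟩ | ⟨h3, h4⟩
      · rw [h3, h4, e1, e2]
      · rw [h3, h4, e1, e2]
    · have h3 : A ≤ e.1 ∧ e.1 < X := (hW e heW).resolve_left hE
      exact (hS.free e hE h3.1 (by omega)).2.1
  have d1 : ∀ u, Reach (F ∩ W) (st0 A y0).1 u → hv (st0 A y0).1 = hv u := by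
    intro u h
    induction h with
    | refl => rfl
    | tail _ hs ih =>
      obtain ⟨e, he, h | h⟩ := hs
      · rw [ih, ← h.1, ← h.2]; exact c1 e he
      · rw [ih, ← h.1, ← h.2]; exact (c1 e he).symm
  have d2 : ∀ g, DReach (W \ F) (face (st0 A y0)) g → hf (face (st0 A y0)) = hf g := by
    intro u h
    induction h with
    | refl => rfl
    | tail _ hs ih =>
      obtain ⟨e, he, h | h⟩ := hs
      · rw [ih, ← h.1, ← h.2]; exact c2 e he
      · rw [ih, ← h.1, ← h.2]; exact (c2 e he).symm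
  have z := hS.strand 0 (Nat.zero_le _)
  rw [orb_zero] at z
  have f1 : hv v = 0 := by rw [← d1 v h1, z.1]
  have f2 : hf (face (v, q)) = 1 := by rw [← d2 _ h2, z.2]
  have hE : ae (v, q) ∈ Exm F (st0 A y0) T := by
    by_contra hE
    have hA : A ≤ (ae (v, q)).1 ∧ (ae (v, q)).1 < X := by
      cases q
      · exact ⟨by show A ≤ v.1; omega, by show v.1 < X; omega⟩
      · exact ⟨by show A ≤ v.1; omega, by show v.1 < X; omega⟩
      · exact ⟨by show A ≤ v.1 - 1; omega, by show v.1 - 1 < X; omega⟩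
      · exact ⟨by show A ≤ v.1; omega, by show v.1 < X; omega⟩
    obtain ⟨g1, g2, g3⟩ := hS.free (ae (v, q)) hE hA.1 (by omega)
    have k1 : hv (src (ae (v, q))) = 0 := by
      rcases ends_mv (σ := (v, q)) with ⟨h3, h4⟩ | ⟨h3, h4⟩
      · rw [h3]; exact f1
      · rw [g1, h4]; exact f1
    have k2 : hf (dtgt (ae (v, q))) = 1 := by
      rcases faces_rt (σ := (v, q)) with ⟨h3, h4⟩ | ⟨h3, h4⟩
      · rw [← g2, h3]; exact f2
      · rw [h4]; exact f2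
    rw [k1, k2] at g3
    exact absurd g3 (by decide)
  obtain ⟨x1, x2⟩ := hS.exv _ hE
  rcases ends_mv (σ := (v, q)) with ⟨h3, h4⟩ | ⟨h3, h4⟩
  · rw [h3] at x1
    exact x1 f1
  · rw [h4] at x2
    exact x2 f1

/-- Many visited vertices with thick paths, with small energy. -/
def RFrV (t c E : ℝ) (M B a : ℕ) (σ : St) (τ : ℕ) (F : Set Edg) : Prop :=
  ∃ V : Finset Vtx, c * (a : ℝ) ^ (4/3 : ℝ) ≤ (V.card : ℝ) ∧
    EnV t V ≤ E * (a : ℝ) ^ (8/3 - t) ∧ ∀ v ∈ V, (∃ s ≤ τ, (orb F σ s).1 = v) ∧ Tk M B (a / 64) v F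

section

variable {t c E : ℝ} {M B : ℕ} {S : Finset Edg} {A y0 H : ℤ} {a K : ℕ}

/-- all trials fail -/
theorem ite_all {δ : ℝ} (ha : 1 ≤ a) (hK : 1 ≤ K) (hδ1 : δ ≤ 1) (hS : BB A y0 H a K ⊆ S)
    (htr : TrialF t c E M B S A y0 a δ) :
    Pr (fun _ => (1/2:ℝ)) S (fun F => Long' A y0 H a K (↑F) ∧
      ∀ j, 1 ≤ j → j ≤ K → ITE_Fl t c E M B A y0 a j (↑F)) ≤
    (1 - δ) ^ K * Pr (fun _ => (1/2:ℝ)) S (fun F => Long' A y0 H a 1 (↑F)) := by
  have hp : Ok (fun _ : Edg => (1/2:ℝ)) := fun _ => ⟨by norm_num, by norm_num⟩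
  obtain ⟨K', rfl⟩ : ∃ K', K = K' + 1 := ⟨K - 1, by omega⟩
  have h3 : 0 ≤ 1 - δ := by linarith
  have h5 : Pr (fun _ => (1/2:ℝ)) S
      (fun F => ITE_EE t c E M B A y0 H a (K'+1) (↑F) ∧ ITE_Fl t c E M B A y0 a (K'+1) (↑F)) ≤
      (1 - δ) ^ (K' + 1) * Pr (fun _ => (1/2:ℝ)) S (fun F => Long' A y0 H a 1 (↑F)) := by
    refine (ITE_step ha hS (by omega) le_rfl htr).trans ?_
    calc (1 - δ) * _ ≤ (1 - δ) * ((1 - δ) ^ K' *
          Pr (fun _ => (1/2:ℝ)) S (fun F => Long' A y0 H a 1 (↑F))) :=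
          mul_le_mul_of_nonneg_left (ITE_EE_bound ha hδ1 hS htr K' le_rfl) h3
      _ = _ := by ring
  refine le_trans (Pr_mono hp fun F _ hF => ?_) h5
  obtain ⟨hL, hfail⟩ := hF
  exact ⟨⟨it_long hL, fun j hj hji => hfail j hj hji.le⟩, hfail (K' + 1) (by omega) le_rfl⟩

/-- a successful trial gives visited vertices -/
theorem succ_vis {F : Set Edg} (ha : 64 ≤ a) {i : ℕ} (hi : 1 ≤ i) (hiK : i ≤ K) {Y : ℤ} {T : ℕ}
    (hst : Strand F A y0 (A + 121 * a * (K + 1 : ℕ)) Y T)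
    (hs : ¬ ITE_Fl t c E M B A y0 a i F) : RFrV t c E M B a (st0 A y0) T F := by
  unfold ITE_Fl at hs
  rw [not_not] at hs
  obtain ⟨V, hV1, hV2, hV3⟩ := hs
  refine ⟨V, hV1, hV2, fun v hv => ?_⟩
  obtain ⟨h1, ⟨q, h2⟩, -, h4, h5⟩ := hV3 v hv
  refine ⟨?_, h5⟩
  have ha' : (64:ℤ) ≤ a := by exact_mod_cast ha
  have hi' : (1:ℤ) ≤ i := by exact_mod_cast hi
  have hiK' : (i:ℤ) ≤ K := by exact_mod_cast hiK
  obtain ⟨P, hP⟩ : ∃ P : ℤ, P = (a:ℤ) * i := ⟨_, rfl⟩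
  obtain ⟨Q, hQ⟩ : ∃ Q : ℤ, Q = (a:ℤ) * K := ⟨_, rfl⟩
  have hP1 : (a:ℤ) ≤ P := by rw [hP]; nlinarith
  have hPQ : P ≤ Q := by rw [hP, hQ]; nlinarith
  have eP : A + 121 * (a:ℤ) * i = A + 121 * P := by rw [hP]; ring
  have eQ : A + 121 * (a:ℤ) * ((K + 1 : ℕ) : ℤ) = A + 121 * Q + 121 * a := by
    rw [hQ]; push_cast; ring
  -- the long strand determines the short one
  have hcr : CR A y0 (Finset.sup' (Finset.range (T + 1)) ⟨0, Finset.mem_range.2 (by omega)⟩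
      (fun s => |(orb F (st0 A y0) s).1.2 - y0|)) a (K + 1) F := by
    apply it_long
    refine ⟨Y, T, hst, fun s hs => ?_⟩
    exact Finset.le_sup' (fun s => |(orb F (st0 A y0) s).1.2 - y0|)
      (Finset.mem_range.2 (by omega))
  have hdown := it_down (j := i) (by omega) hi (by omega : i ≤ K + 1) hcr
  have hT := (it_of_strand hst).1
  have hsub : Exm F (st0 A y0) (tT A y0 F (A + 121 * a * i)) ⊆ Exm F (st0 A y0) T := by
    apply it_exm_mono
    rw [← hT]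
    exact hdown.2
  have hW : ∀ e ∈ (↑(Exm F (st0 A y0) (tT A y0 F (A + 121 * a * i)) ∪
      Bl (A + 121 * a * i) (tY A y0 F (A + 121 * a * i)) a) : Set Edg),
      e ∈ Exm F (st0 A y0) T ∨ (A ≤ e.1 ∧ e.1 < A + 121 * a * (K + 1 : ℕ)) := by
    intro e he
    rw [Finset.mem_coe, Finset.mem_union] at he
    rcases he with he | he
    · exact Or.inl (hsub he)
    · right
      rw [eQ]
      rw [eP] at he
      unfold Bl at he
      obtain ⟨x, y, _ | _⟩ := e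
      · rw [mem_RE_false] at he
        simp only
        omega
      · rw [mem_RE_true] at he
        simp only
        omega
  have hlo : ∀ e ∈ (↑(Exm F (st0 A y0) (tT A y0 F (A + 121 * a * i)) ∪
      Bl (A + 121 * a * i) (tY A y0 F (A + 121 * a * i)) a) : Set Edg),
      A - 1 ≤ e.1 ∧ e.1 < A + 121 * a * (K + 1 : ℕ) := by
    intro e he
    rcases hW e he with h | h
    · have := exm_loc hst h
      omega
    · omega
  have hk : 8 ≤ 8 * (a / 64) := by omega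
  have b1 : ((v.1 - 2, v.2, true) : Edg) ∈ H12S.blk v (8 * (a / 64)) := by
    unfold H12S.blk
    rw [mem_RE_true]
    omega
  have b2 : ((v.1 + 1, v.2, true) : Edg) ∈ H12S.blk v (8 * (a / 64)) := by
    unfold H12S.blk
    rw [mem_RE_true]
    omega
  have c1 := hlo _ (h4 (Finset.mem_coe.2 b1))
  have c2 := hlo _ (h4 (Finset.mem_coe.2 b2))
  simp only at c1 c2
  exact vis hst hW h1 h2 (by omega) (by omega)

/-- ITE for visited vertices. -/
theorem ite_vis {δ : ℝ} (ha : 64 ≤ a) (hK : 1 ≤ K) (hδ1 : δ ≤ 1) (hS : BB A y0 H a K ⊆ S)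
    (htr : TrialF t c E M B S A y0 a δ) :
    Pr (fun _ => (1/2:ℝ)) S (fun F => ∃ (Y : ℤ) (T : ℕ),
      Strand (↑F) A y0 (A + 121 * a * (K + 1 : ℕ)) Y T ∧
      (∀ s ≤ T, |(orb (↑F) (st0 A y0) s).1.2 - y0| ≤ H) ∧
      ¬ RFrV t c E M B a (st0 A y0) T (↑F)) ≤
    (1 - δ) ^ K * Pr (fun _ => (1/2:ℝ)) S (fun F => Long' A y0 H a 1 (↑F)) := by
  have hp : Ok (fun _ : Edg => (1/2:ℝ)) := fun _ => ⟨by norm_num, by norm_num⟩
  refine le_trans (Pr_mono hp fun F _ hF => ?_) (ite_all (by omega) hK hδ1 hS htr)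
  obtain ⟨Y, T, hst, hy, hno⟩ := hF
  refine ⟨?_, fun j hj hjK => ?_⟩
  · have hcr := it_long (i := K + 1) (show Long' A y0 H a (K + 1) (↑F) from ⟨Y, T, hst, hy⟩)
    have h2 := (it_down (j := K) (by omega) hK (by omega) hcr).1
    exact ⟨_, _, h2.1, h2.2⟩
  · by_contra hcon
    exact hno (succ_vis ha hj hjK hst hcon)

end

end Pool.Agent.U151.LB
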