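import Pool.Agent.Y989.FR.T_LG
import Pool.Agent.W822.PD.ClosedC

/-!
Abstract passage to the limit for curves modulo reparametrisation.
-/

set_option autoImplicit false

namespace Pool.Agent.U151.LB

open Set Filter Topology Metric Pool.Agent.H389R2.Dim MeasureTheory H342L
open Pool.Agent.Y989.FR Pool.Agent.Y989.FR.LG Pool.Agent.W822.PD
open scoped ENNReal NNReal

/-- Invariance under reparametrisation. -/
def RInv (Q : Set (C(unitInterval, ℂ) × ℂ)) : Prop :=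
  ∀ (f : C(unitInterval, ℂ)) (φ : unitInterval ≃o unitInterval) (z : ℂ), (f, z) ∈ Q →
    (rep f φ, z) ∈ Q

theorem rep_symm (f : C(unitInterval, ℂ)) (φ : unitInterval ≃o unitInterval) :
    rep (rep f φ) φ.symm = f := by
  ext t
  rw [rep_apply, rep_apply, OrderIso.apply_symm_apply]

theorem AA_rep {K : Set ℂ} {Q : ℕ → Set (C(unitInterval, ℂ) × ℂ)} (hQ : ∀ k, RInv (Q k)) (e : ℝ)
    (f : C(unitInterval, ℂ)) (φ : unitInterval ≃o unitInterval) :
    AA K Q e (rep f φ) = AA K Q e f := by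
  apply Set.Subset.antisymm
  · rintro z ⟨hz, h⟩
    refine ⟨hz, fun k hk => ?_⟩
    have h1 := hQ k (rep f φ) φ.symm z (h k hk)
    rwa [rep_symm] at h1
  · rintro z ⟨hz, h⟩
    exact ⟨hz, fun k hk => hQ k f φ z (h k hk)⟩

theorem isClosed_goodC {t δ c e : ℝ} {K : Set ℂ} {Q : ℕ → Set (C(unitInterval, ℂ) × ℂ)}
    (hQ : ∀ k, IsClosed (Q k)) (hR : ∀ k, RInv (Q k)) (hK : IsCompact K) :
    IsClosed {γ : Curve | Good t δ c (AA K Q e γ.path)} :=
  isClosed_curve (isClosed_good_AA hQ hK) (fun f φ h => by rwa [AA_rep hR])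

/-- Abstract passage to the limit. -/
theorem lgC {μs : ℕ → ProbabilityMeasure Curve} {μ : ProbabilityMeasure Curve}
    (hμ : Tendsto μs atTop (𝓝 μ)) {t : ℝ} (ht : 0 < t) (T : C(unitInterval, ℂ) → Set ℂ)
    (h : ∀ ε : ℝ≥0∞, 0 < ε → ∃ (c : ℝ) (K : Set ℂ) (Q : ℕ → Set (C(unitInterval, ℂ) × ℂ)), 0 < c ∧
      IsCompact K ∧ (∀ k, IsClosed (Q k)) ∧ (∀ k, RInv (Q k)) ∧
      (∀ f, ∀ z ∈ K, (∀ k, (f, z) ∈ Q k) → z ∈ T f) ∧
      ∀ ε' : ℝ, 0 < ε' → ∀ᶠ i in atTop,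
        (μs i : Measure Curve) {γ : Curve | ¬ Good t ε' c (AA K Q ε' γ.path)} ≤ ε) :
    ∀ᵐ p : Curve ∂(μ : Measure Curve), ENNReal.ofReal t ≤ dimH (T p.path) := by
  rw [ae_iff, ← nonpos_iff_eq_zero]
  apply ENNReal.le_of_forall_pos_le_add
  intro ε hε _
  obtain ⟨c, K, Q, hc, hK, hQ, hR, hT, h1⟩ := h ε (by exact_mod_cast hε)
  have hT0 : ∀ f, AA K Q 0 f ⊆ T f := by
    rintro f z ⟨hz, hh⟩
    exact hT f z hz (fun k => hh k (by positivity))
  have hopen : ∀ ε' : ℝ, IsOpen {p : Curve | ¬ Good t ε' c (AA K Q ε' p.path)} := by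
    intro ε'
    exact (isClosed_goodC (t := t) (δ := ε') (c := c) (e := ε') hQ hR hK).isOpen_compl
  have h2 : ∀ ε' : ℝ, 0 < ε' →
      (μ : Measure Curve) {p : Curve | ¬ Good t ε' c (AA K Q ε' p.path)} ≤ ε := by
    intro ε' hε'
    refine (ProbabilityMeasure.le_liminf_measure_open_of_tendsto hμ (hopen ε')).trans ?_
    exact liminf_le_of_frequently_le (h1 ε' hε').frequently
  set Bd : ℕ → Set Curve := fun n =>
    {p : Curve | ¬ Good t (1 / ((n : ℝ) + 1)) c (AA K Q (1 / ((n : ℝ) + 1)) p.path)} with hBd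
  have hmono : Monotone Bd := by
    intro n n' hnn p hp hG
    apply hp
    have h3 := hG.anti (Nat.one_div_le_one_div (α := ℝ) hnn)
    exact h3.mono (AA_mono (Nat.one_div_le_one_div hnn) p.path)
  have h3 : {p : Curve | ¬ ENNReal.ofReal t ≤ dimH (T p.path)} ⊆ ⋃ n : ℕ, Bd n := by
    intro p hp
    by_contra hcon
    simp only [hBd, Set.mem_iUnion, Set.mem_ofPred_eq, not_exists, not_not] at hcon
    apply hp
    have h4 : ∀ δ' : ℝ, 0 < δ' → Good t δ' c (AA K Q 0 p.path) := by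
      intro δ' hδ'
      apply LG.good_zero hQ hK
      intro n
      obtain ⟨m, hm⟩ := exists_nat_one_div_lt hδ'
      have h5 := hcon (max n m)
      have h6 : (1 : ℝ) / (((max n m : ℕ) : ℝ) + 1) ≤ 1 / ((n : ℝ) + 1) :=
        Nat.one_div_le_one_div (le_max_left _ _)
      have h7 : (1 : ℝ) / (((max n m : ℕ) : ℝ) + 1) ≤ 1 / ((m : ℝ) + 1) :=
        Nat.one_div_le_one_div (le_max_right _ _)
      exact (h5.mono (AA_mono h6 p.path)).anti (h7.trans hm.le)
    exact (le_dimH_of_good ht hc (isCompact_AA hQ hK p.path) h4).trans (dimH_mono (hT0 p.path))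
  refine le_trans (measure_mono h3) ?_
  rw [zero_add, hmono.measure_iUnion]
  exact iSup_le fun n => h2 _ (by positivity)

theorem Qc_rinv (M κ R e : ℝ) (B N : ℕ) : RInv (Qc M κ R e B N) := by
  rintro f φ z ⟨h1, ⟨s, hs⟩, x, h2, h3, h4, h5, h6⟩
  refine ⟨h1, ⟨φ.symm s, ?_⟩, x, h2, h3, h4, h5, ?_⟩
  · show dist (rep f φ (φ.symm s)) z ≤ e
    rw [rep_apply, OrderIso.apply_symm_apply]
    exact hs
  · intro i s
    show dist (x i) z ^ B ≤ M * dist (x i) (rep f φ s) + e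
    rw [rep_apply]
    exact h6 i (φ s)

end Pool.Agent.U151.LB
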