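import Pool.Agent.U151.LB.Det
import Pool.Agent.Y989.FR.T_GOOD3

/-!
TRI: probability of a trial (after `H984P.trial` and `Pool.Agent.W806.PDTri.trialC`).
-/

set_option autoImplicit false

namespace Pool.Agent.U151.LB

open H974 H12S Finset H389NS H984P H984N H342P
open Pool.Agent.Y989.FR (Tk E3 core3 V3 Awy AE Gd3 S_GOOD3)
open Pool.Agent.W822.PD (EnV tr)
open Pool.Agent.W806.PDTri (she mem_tr sd_shift shv EnV_shift)
open H984P.Tr760

/-- The shift from the standard core to the core of the trial. -/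
def zz (X Y : ℤ) (a : ℕ) : Vtx := (X + 91 * a, Y - 21 * a)

theorem core_ctr {X Y : ℤ} {a : ℕ} {v : Vtx} (h : v ∈ core3 (a : ℤ)) :
    (v.1 + (zz X Y a).1, v.2 + (zz X Y a).2) ∈ ctr (X + 32 * a, Y) a := by
  unfold core3 at h
  simp only [ctr, zz, Finset.mem_product, Finset.mem_Icc] at h ⊢
  omega

theorem she_PR {z v : Vtx} {a : ℕ} {e : Edg} :
    she z e ∈ PR (v.1 + z.1, v.2 + z.2) a ↔ e ∈ PR v a := by
  obtain ⟨x, y, _ | _⟩ := e
  · simp only [she, PR, mem_RE_false]; omega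
  · simp only [she, PR, mem_RE_true]; omega

theorem she_DR {z v : Vtx} {a : ℕ} {e : Edg} :
    dl (she z e) ∈ DR (v.1 + z.1, v.2 + z.2) a ↔ dl e ∈ DR v a := by
  obtain ⟨x, y, _ | _⟩ := e
  · simp only [she, DR, dl_f, mem_RE_true]; omega
  · simp only [she, DR, dl_t, mem_RE_false]; omega

theorem she_blk {z v : Vtx} {k : ℕ} {e : Edg} :
    she z e ∈ H12S.blk (v.1 + z.1, v.2 + z.2) k ↔ e ∈ H12S.blk v k := by
  obtain ⟨x, y, _ | _⟩ := e
  · simp only [she, H12S.blk, mem_RE_false]; omega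
  · simp only [she, H12S.blk, mem_RE_true]; omega

theorem blk_Hk {X Y : ℤ} {a : ℕ} (ha : 1 ≤ a) {v : Vtx} (h : v ∈ ctr (X + 32 * a, Y) a)
    {e : Edg} (he : e ∈ H12S.blk v (8 * (a / 64))) : e ∉ HkE X Y a ∧ dl e ∉ HkE' X Y a := by
  have ha' : (1 : ℤ) ≤ a := by exact_mod_cast ha
  have hv := ctr_bd h
  have hk : 8 * (((8 * (a / 64) : ℕ)) : ℤ) ≤ a := by omega
  obtain ⟨x, y, _ | _⟩ := e
  · simp only [H12S.blk, mem_RE_false] at he
    simp only [HkE, HkE', dl_f, Finset.mem_union, mem_RE_true, mem_RE_false]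
    omega
  · simp only [H12S.blk, mem_RE_true] at he
    simp only [HkE, HkE', dl_t, Finset.mem_union, mem_RE_false, mem_RE_true]
    omega

theorem blk_Bl {X Y : ℤ} {a : ℕ} (ha : 1 ≤ a) {v : Vtx} (h : v ∈ ctr (X + 32 * a, Y) a)
    {e : Edg} (he : e ∈ H12S.blk v (8 * (a / 64))) : e ∈ Bl X Y a := by
  have ha' : (1 : ℤ) ≤ a := by exact_mod_cast ha
  have hv := ctr_bd h
  have hk : 8 * (((8 * (a / 64) : ℕ)) : ℤ) ≤ a := by omega
  obtain ⟨x, y, _ | _⟩ := e
  · simp only [H12S.blk, mem_RE_false] at he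
    simp only [Bl, mem_RE_false]
    omega
  · simp only [H12S.blk, mem_RE_true] at he
    simp only [Bl, mem_RE_true]
    omega

theorem core_bd {a : ℤ} {v : Vtx} (h : v ∈ core3 a) :
    (-(60 * a) ≤ v.1 ∧ v.1 ≤ -(58 * a)) ∧ (20 * a ≤ v.2 ∧ v.2 ≤ 22 * a) := by
  unfold core3 at h
  rw [Finset.mem_product, Finset.mem_Icc, Finset.mem_Icc] at h
  exact h

theorem PR_CB {a : ℕ} {v : Vtx} (ha : 1 ≤ a) (h : v ∈ core3 (a : ℤ)) {e : Edg} (he : e ∈ PR v a) :
    e ∈ CB a := by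
  have ha' : (1 : ℤ) ≤ a := by exact_mod_cast ha
  have hv := core_bd h
  unfold CB
  obtain ⟨x, y, _ | _⟩ := e
  · simp only [PR, NB, mem_RE_false] at he ⊢
    omega
  · simp only [PR, NB, mem_RE_true] at he ⊢
    omega

theorem DR_CB {a : ℕ} {v : Vtx} (ha : 1 ≤ a) (h : v ∈ core3 (a : ℤ)) {e : Edg}
    (he : dl e ∈ DR v a) : e ∈ CB a := by
  have ha' : (1 : ℤ) ≤ a := by exact_mod_cast ha
  have hv := core_bd h
  unfold CB
  obtain ⟨x, y, _ | _⟩ := e
  · simp only [DR, NB, dl_f, mem_RE_true, mem_RE_false] at he ⊢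
    omega
  · simp only [DR, NB, dl_t, mem_RE_false, mem_RE_true] at he ⊢
    omega

theorem blk_CB {a : ℕ} {v : Vtx} (ha : 1 ≤ a) (h : v ∈ core3 (a : ℤ)) {e : Edg}
    (he : e ∈ H12S.blk v (8 * (a / 64))) : e ∈ CB a := by
  have ha' : (1 : ℤ) ≤ a := by exact_mod_cast ha
  have hv := core_bd h
  have hk : 8 * (((8 * (a / 64) : ℕ)) : ℤ) ≤ a := by omega
  unfold CB
  obtain ⟨x, y, _ | _⟩ := e
  · simp only [H12S.blk, NB, mem_RE_false] at he ⊢
    omega
  · simp only [H12S.blk, NB, mem_RE_true] at he ⊢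
    omega

theorem NN_mono {t c E : ℝ} {M B a : ℕ} {F G : Finset Edg}
    (h : ∀ v ∈ core3 (a : ℤ), E3 M B a v F → E3 M B a v G) (hN : NN t c E M B a F) :
    NN t c E M B a G := by
  obtain ⟨V, h1, h2⟩ := hN
  exact ⟨V, h1, fun v hv => ⟨(h2 v hv).1, h v (h2 v hv).1 (h2 v hv).2⟩⟩

theorem NN_congr {t c E : ℝ} {M B a : ℕ} (ha : 1 ≤ a) {F G : Finset Edg}
    (h : ∀ e ∈ CB a, (e ∈ F ↔ e ∈ G)) (hN : NN t c E M B a F) : NN t c E M B a G := by
  refine NN_mono (fun v hv => E3_mono ?_ ?_ ?_) hN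
  · intro e he heF
    exact (h e (PR_CB ha hv he)).1 heF
  · intro e he heG
    exact (h e (DR_CB ha hv he)).2 heG
  · intro e he
    exact h e (blk_CB ha hv he)

theorem NN_loc {t c E : ℝ} {M B a : ℕ} (ha : 1 ≤ a) (F : Finset Edg) :
    NN t c E M B a F ↔ NN t c E M B a (F ∩ CB a) := by
  have key : ∀ e ∈ CB a, (e ∈ F ↔ e ∈ F ∩ CB a) := by
    intro e he
    rw [Finset.mem_inter]
    exact ⟨fun h => ⟨h, he⟩, fun h => h.1⟩
  exact ⟨NN_congr ha key, NN_congr ha fun e he => (key e he).symm⟩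

theorem Pr_NN {t c E : ℝ} {M B a : ℕ} (ha : 1 ≤ a) {S : Finset Edg} (hS : CB a ⊆ S) :
    Pr (fun _ => (1/2:ℝ)) S (NN t c E M B a) = Pr (fun _ => (1/2:ℝ)) (CB a) (NN t c E M B a) := by
  refine Pr_local (p := fun _ => (1/2:ℝ)) hS (A := NN t c E M B a) ?_
  intro F _
  exact NN_loc ha F

/-- Probability of the hooks and many vertices. -/
theorem trialL : ∃ c1 : ℝ, 0 < c1 ∧ ∀ (t c E : ℝ) (M B a : ℕ) (p : ℝ), 192 ≤ a → 0 ≤ p →
    p ≤ Pr (fun _ => (1/2:ℝ)) (CB a) (NN t c E M B a) →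
    ∀ (S k F0 : Finset Edg) (A y0 X Y : ℤ) (T : ℕ),
    F0 ⊆ S → k ⊆ S → Strand (↑F0 : Set Edg) A y0 X Y T → A ≤ X - 9 * a →
    Bl X Y a ⊆ S → ((A - 1, y0, true) : Edg) ∈ k → Exm (↑F0) (st0 A y0) T ⊆ k →
    (∀ e ∈ k, e ∈ Bl X Y a → e ∈ Exm (↑F0) (st0 A y0) T) →
    p * (c1 * c1) ≤
      Pr (fun _ => (1/2:ℝ)) (S \ k) (fun G => RFr t c E M B a (st0 A y0)
        (↑(Exm (↑F0) (st0 A y0) T ∪ Bl X Y a)) (↑((F0 ∩ k) ∪ G))) := by
  classical
  obtain ⟨c0', hc0', hpr⟩ := pr_hook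
  refine ⟨c0', hc0', ?_⟩
  intro t c E M B a p ha192 hp hcen S k F0 A y0 X Y T hF0 hk hst hA hBl hent hEk hkE
  have ha : 1 ≤ a := by omega
  have ha' : (1 : ℤ) ≤ a := by exact_mod_cast ha
  obtain ⟨hv, hf, hS⟩ := side_exists hst
  -- edges of the block which are not examined are fresh
  have fresh : ∀ e, e ∈ Bl X Y a → e ∉ Exm (↑F0) (st0 A y0) T → e ∈ S \ k := by
    intro e he he'
    rw [Finset.mem_sdiff]
    exact ⟨hBl he, fun h => he' (hkE e h he)⟩
  have notEx : ∀ e : Edg, X ≤ e.1 → e ∉ Exm (↑F0) (st0 A y0) T := by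
    intro e he h
    have := (exm_loc hst h).2.1
    omega
  set D := S \ k with hD
  set TL := Tlow (↑F0) A y0 X Y T a hv with hTL
  set TU := Tup (↑F0) A y0 X Y T a hf with hTU
  have TL_D : ∀ e ∈ TL, e ∈ D := fun e he => fresh e (H984P.Tr760.HkE_sub ha he.1) he.2.1
  have TU_D : ∀ e ∈ TU, e ∈ D := fun e he => fresh e (dHk_sub ha he.1) he.2.1
  have LS_TL : ∀ e ∈ LS X Y a, e ∈ TL := by
    intro e he
    obtain ⟨h1, h2, h3, h4, h5⟩ := LS_loc he
    refine ⟨LS_sub he, notEx e h5, ?_, ?_⟩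
    · exact (hS.rightv (src e).1 (src e).2 h1).2 h2
    · exact (hS.rightv (tgt e).1 (tgt e).2 h3).2 h4
  have US_TU : ∀ e, dl e ∈ US X Y a → e ∈ TU := by
    intro e he
    obtain ⟨h1, h2, h3, h4, h5⟩ := US_loc he
    refine ⟨US_sub he, notEx e h5, ?_, ?_⟩
    · exact (hS.rightf (dsrc e).1 (dsrc e).2 h1).2 h2
    · exact (hS.rightf (dtgt e).1 (dtgt e).2 h3).2 h4
  set T1 := D.filter (fun e => e ∈ TL) with hT1
  set T2 := D.filter (fun e => e ∈ TU) with hT2
  have mT1 : ∀ e, e ∈ T1 ↔ e ∈ TL := by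
    intro e
    rw [hT1, Finset.mem_filter]
    exact ⟨fun h => h.2, fun h => ⟨TL_D e h, h⟩⟩
  have mT2 : ∀ e, e ∈ T2 ↔ e ∈ TU := by
    intro e
    rw [hT2, Finset.mem_filter]
    exact ⟨fun h => h.2, fun h => ⟨TU_D e h, h⟩⟩
  have hdisj : Disjoint T1 T2 := by
    rw [Finset.disjoint_left]
    intro e h1 h2
    rw [mT1] at h1
    rw [mT2] at h2
    obtain ⟨h1a, h1b, h1c, h1d⟩ := h1
    obtain ⟨h2a, h2b, h2c, h2d⟩ := h2
    have hAe : A ≤ e.1 := by
      have := HkE_ge h1a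
      omega
    by_cases hray : X ≤ e.1 ∧ e.2.1 = Y
    · obtain ⟨x, y, _ | _⟩ := e
      · simp only at hray
        rw [tgt_false] at h1d
        have := (hS.rightv x (y + 1) hray.1).1 h1d
        omega
      · simp only at hray
        rw [dsrc_true] at h2c
        have := (hS.rightf x (y - 1) hray.1).1 h2c
        omega
    · obtain ⟨_, _, h3⟩ := hS.free e h1b hAe hray
      rw [h1c, h2d] at h3
      exact absurd h3 (by decide)
  set Lst : Set Vtx := {v | ∃ s ≤ T, (orb (↑F0) (st0 A y0) s).1 = v} with hLst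
  set Rst : Set Vtx := {f | ∃ s ≤ T, face (orb (↑F0) (st0 A y0) s) = f} with hRst
  set z : Vtx := zz X Y a with hz
  set N : Finset Edg → Prop := fun G => NN t c E M B a (tr z G) with hN
  have key := harris_signed (p := fun _ : Edg => (1/2:ℝ)) ok_half (S := D) (T₁ := T1) (T₂ := T2)
    (Finset.filter_subset _ _) (Finset.filter_subset _ _) hdisj
    (N := N)
    (f := fun G => LEv X Y a Lst TL (↑G : Set Edg))
    (g := fun G => UEv X Y a Rst TU (↑G : Set Edg))
    (by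
      intro F _
      constructor
      · apply LEv_mono
        · intro e he heF
          rw [Finset.mem_coe, Finset.mem_inter]
          exact ⟨heF, (mT1 e).2 (LS_TL e he)⟩
        · intro e he heF
          rw [Finset.mem_coe, Finset.mem_inter]
          exact ⟨heF, (mT1 e).2 he⟩
      · apply LEv_mono
        · intro e _ heF
          rw [Finset.mem_coe, Finset.mem_inter] at heF
          exact heF.1
        · intro e _ heF
          rw [Finset.mem_coe, Finset.mem_inter] at heF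
          exact heF.1)
    (by
      intro F G hFG
      apply LEv_mono
      · intro e _ heF
        exact hFG heF
      · intro e _ heF
        exact hFG heF)
    (by
      intro F _
      constructor
      · apply UEv_mono
        · intro e _ heF
          rw [Finset.mem_coe, Finset.mem_inter] at heF
          exact heF.1
        · intro e _ heF
          rw [Finset.mem_coe, Finset.mem_inter] at heF
          exact heF.1
      · apply UEv_mono
        · intro e he heF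
          rw [Finset.mem_coe, Finset.mem_inter]
          exact ⟨heF, (mT2 e).2 (US_TU e he)⟩
        · intro e he heF
          rw [Finset.mem_coe, Finset.mem_inter]
          exact ⟨heF, (mT2 e).2 he⟩)
    (by
      intro F G hFG
      apply UEv_mono
      · intro e _ heF
        exact hFG heF
      · intro e _ heF
        exact hFG heF)
    (by
      intro F G hFD hGD hout h1 h2 hNF
      have hO : ∀ e, dl e ∉ HkE' X Y a → e ∈ F → e ∈ G := by
        intro e he heF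
        have hn2 : e ∉ T2 := fun h => he ((mT2 e).1 h).1
        by_cases hn1 : e ∈ T1
        · exact (Finset.mem_inter.1 (h1 (Finset.mem_inter.2 ⟨heF, hn1⟩))).1
        · have : e ∈ F \ (T1 ∪ T2) := by
            rw [Finset.mem_sdiff, Finset.mem_union]
            exact ⟨heF, fun h => h.elim hn1 hn2⟩
          rw [hout, Finset.mem_sdiff] at this
          exact this.1
      have hD' : ∀ e, e ∉ HkE X Y a → e ∈ G → e ∈ F := by
        intro e he heG
        have hn1 : e ∉ T1 := fun h => he ((mT1 e).1 h).1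
        by_cases hn2 : e ∈ T2
        · exact (Finset.mem_inter.1 (h2 (Finset.mem_inter.2 ⟨heG, hn2⟩))).1
        · have : e ∈ G \ (T1 ∪ T2) := by
            rw [Finset.mem_sdiff, Finset.mem_union]
            exact ⟨heG, fun h => h.elim hn1 hn2⟩
          rw [← hout, Finset.mem_sdiff] at this
          exact this.1
      refine NN_mono (fun v hvc => E3_mono ?_ ?_ ?_) hNF
      · intro e he heF
        rw [mem_tr] at heF ⊢
        exact hO _ (fun h => PR_Hk ha (core_ctr hvc) (she_PR.2 he) h) heF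
      · intro e he heG
        rw [mem_tr] at heG ⊢
        exact hD' _ (fun h => DR_Hk ha (core_ctr hvc) (she_DR.2 he) h) heG
      · intro e he
        rw [mem_tr, mem_tr]
        have h5 := blk_Hk ha (core_ctr (X := X) (Y := Y) hvc) (she_blk.2 he)
        exact ⟨hO _ h5.2, hD' _ h5.1⟩)
  have hDS : D ⊆ S := Finset.sdiff_subset
  -- lower bound for the first hook
  have hPf : c0' ≤ Pr (fun _ => (1/2:ℝ)) D (fun G => LEv X Y a Lst TL (↑G : Set Edg)) := by
    refine (hpr X Y a S ha hBl).1.trans ?_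
    have e1 : Pr (fun _ => (1/2:ℝ)) D (fun G => LEv X Y a Lst TL (↑G : Set Edg)) =
        Pr (fun _ => (1/2:ℝ)) S (fun G => LEv X Y a Lst TL (↑(G ∩ D) : Set Edg)) := by
      rw [Pr_local (S := S) (S' := D) hDS (A := fun G => LEv X Y a Lst TL (↑(G ∩ D) : Set Edg))
        (fun F _ => by rw [Finset.inter_assoc, Finset.inter_self])]
      apply Pr_congr
      intro F hF
      rw [Finset.inter_eq_left.2 hF]
    rw [e1]
    apply Pr_mono ok_half
    intro F hF hHk
    have h3 := low_side ha hst hS hA hHk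
    refine LEv_mono ?_ ?_ h3
    · intro e he heF
      rw [Finset.mem_coe, Finset.mem_inter]
      exact ⟨heF, TL_D e (LS_TL e he)⟩
    · intro e he heF
      rw [Finset.mem_coe, Finset.mem_inter]
      exact ⟨heF, TL_D e he⟩
  have hPg : c0' ≤ Pr (fun _ => (1/2:ℝ)) D (fun G => UEv X Y a Rst TU (↑G : Set Edg)) := by
    refine (hpr X Y a S ha hBl).2.trans ?_
    have e1 : Pr (fun _ => (1/2:ℝ)) D (fun G => UEv X Y a Rst TU (↑G : Set Edg)) =
        Pr (fun _ => (1/2:ℝ)) S (fun G => UEv X Y a Rst TU (↑(G ∩ D) : Set Edg)) := by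
      rw [Pr_local (S := S) (S' := D) hDS (A := fun G => UEv X Y a Rst TU (↑(G ∩ D) : Set Edg))
        (fun F _ => by rw [Finset.inter_assoc, Finset.inter_self])]
      apply Pr_congr
      intro F hF
      rw [Finset.inter_eq_left.2 hF]
    rw [e1]
    apply Pr_mono ok_half
    intro F hF hHk
    have h3 := up_side ha hst hS hA hHk
    refine UEv_mono ?_ ?_ h3
    · intro e _ heF
      rw [Finset.mem_coe, Finset.mem_inter] at heF
      exact heF.1
    · intro e _ heF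
      rw [Finset.mem_coe, Finset.mem_inter] at heF
      exact heF.1
  -- the core is fresh
  have hCBD : ∀ e ∈ CB a, she z e ∈ D := by
    intro e he
    have h1 : she z e ∈ NB (X + 32 * a, Y) a := by
      unfold CB at he
      obtain ⟨x, y, _ | _⟩ := e
      · simp only [she, zz, hz, NB, mem_RE_false] at he ⊢
        omega
      · simp only [she, zz, hz, NB, mem_RE_true] at he ⊢
        omega
    exact fresh _ (NB_sub h1) (notEx _ (NB_ge h1))
  have hPN : p ≤ Pr (fun _ => (1/2:ℝ)) D N := by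
    have hsub : CB a ⊆ tr z D := by
      intro e he
      rw [mem_tr]
      exact hCBD e he
    have h1 := Pr_NN (t := t) (c := c) (E := E) (M := M) (B := B) ha hsub
    have h2 := (trl (-z.1) (-z.2)).pr (1/2) D (NN t c E M B a)
    refine hcen.trans (le_of_eq ?_)
    rw [← h1]
    exact h2
  have hNfg : p * (c0' * c0') ≤ Pr (fun _ => (1/2:ℝ)) D (fun F => N F ∧
      (LEv X Y a Lst TL (↑F : Set Edg) ∧ UEv X Y a Rst TU (↑F : Set Edg))) := by
    refine le_trans ?_ key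
    exact mul_le_mul hPN (mul_le_mul hPf hPg hc0'.le (hc0'.le.trans hPf)) (by positivity)
      (hp.trans hPN)
  refine hNfg.trans ?_
  apply Pr_mono ok_half
  rintro G hG ⟨hNV, hL', hU'⟩
  -- the configuration with the examined edges
  have hmem : ∀ e, e ∉ k → (e ∈ (F0 ∩ k) ∪ G ↔ e ∈ G) := by
    intro e he
    rw [Finset.mem_union, Finset.mem_inter]
    exact ⟨fun h => h.elim (fun h => absurd h.2 he) id, Or.inr⟩
  have hmemk : ∀ e, e ∈ k → (e ∈ F0 ↔ e ∈ (F0 ∩ k) ∪ G) := by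
    intro e he
    rw [Finset.mem_union, Finset.mem_inter]
    exact ⟨fun h => Or.inl ⟨h, he⟩, fun h => h.elim (fun h => h.1)
      (fun h => absurd he (Finset.mem_sdiff.1 (hG h)).2)⟩
  have hagr : ∀ e ∈ Exm (↑F0 : Set Edg) (st0 A y0) T,
      (e ∈ (↑F0 : Set Edg) ↔ e ∈ (↑((F0 ∩ k) ∪ G) : Set Edg)) := fun e he => hmemk e (hEk he)
  have hent' : ((A - 1, y0, true) : Edg) ∈ (↑((F0 ∩ k) ∪ G) : Set Edg) :=
    (hmemk _ hent).1 hst.ent
  have hst' := strand_congr hst hagr hent'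
  have hEx : Exm (↑((F0 ∩ k) ∪ G) : Set Edg) (st0 A y0) T = Exm (↑F0 : Set Edg) (st0 A y0) T :=
    Exm_congr hagr
  have hLs : {v | ∃ s ≤ T, (orb (↑((F0 ∩ k) ∪ G) : Set Edg) (st0 A y0) s).1 = v} = Lst := by
    ext v
    constructor
    · rintro ⟨s, hs, h⟩
      exact ⟨s, hs, by rw [← orb_congr hagr hs]; exact h⟩
    · rintro ⟨s, hs, h⟩
      exact ⟨s, hs, by rw [orb_congr hagr hs]; exact h⟩
  have hRs : {f | ∃ s ≤ T, face (orb (↑((F0 ∩ k) ∪ G) : Set Edg) (st0 A y0) s) = f} = Rst := by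
    ext v
    constructor
    · rintro ⟨s, hs, h⟩
      exact ⟨s, hs, by rw [← orb_congr hagr hs]; exact h⟩
    · rintro ⟨s, hs, h⟩
      exact ⟨s, hs, by rw [orb_congr hagr hs]; exact h⟩
  have hTLs : Tlow (↑((F0 ∩ k) ∪ G) : Set Edg) A y0 X Y T a hv = TL := by
    rw [hTL]
    unfold Tlow
    rw [hEx]
  have hTUs : Tup (↑((F0 ∩ k) ∪ G) : Set Edg) A y0 X Y T a hf = TU := by
    rw [hTU]
    unfold Tup
    rw [hEx]
  have notk : ∀ e ∈ D, e ∉ k := fun e he => (Finset.mem_sdiff.1 he).2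
  have hNV' : NN t c E M B a (tr z ((F0 ∩ k) ∪ G)) := by
    refine NN_congr ha ?_ hNV
    intro e he
    rw [mem_tr, mem_tr]
    exact (hmem _ (notk _ (hCBD e he))).symm
  have hdet : ∀ v ∈ ctr (X + 32 * a, Y) a, RA v a (↑((F0 ∩ k) ∪ G) : Set Edg) → _ :=
    fun v hvc hRA => det_v (F := (F0 ∩ k) ∪ G) (A := A) (y0 := y0) (hv := hv) (hf := hf) ha
    (by
      rw [hLs, hTLs]
      refine LEv_mono ?_ ?_ hL'
      · intro e _ he
        exact Finset.mem_union_right _ he
      · intro e _ he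
        exact Finset.mem_union_right _ he)
    (by
      rw [hRs, hTUs]
      refine UEv_mono ?_ ?_ hU'
      · intro e he heF
        exact (hmem e (notk e (TU_D e (US_TU e he)))).1 heF
      · intro e he heF
        exact (hmem e (notk e (TU_D e he))).1 heF) hvc hRA
  rw [hEx] at hdet
  obtain ⟨V, ⟨hV1, hV2⟩, hV3⟩ := hNV'
  refine ⟨V.map (shv z), ?_, ?_, ?_⟩
  · rw [Finset.card_map]
    exact hV1
  · rw [EnV_shift]
    exact hV2
  · intro v hv'
    rw [Finset.mem_map] at hv'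
    obtain ⟨w, hw, rfl⟩ := hv'
    obtain ⟨hwc, hRAw, hTkw⟩ := hV3 w hw
    have hwc' : shv z w ∈ ctr (X + 32 * a, Y) a := core_ctr (X := X) (Y := Y) hwc
    obtain ⟨⟨d1, d2⟩, u, d3, d4⟩ := hdet (shv z w) hwc' (RA_tr hRAw)
    refine ⟨d1, ⟨.ne, ?_⟩, ⟨u, d3, d4⟩, ?_, ?_⟩
    · exact d2
    · intro e he
      rw [Finset.coe_union]
      exact Or.inr (Finset.mem_coe.2 (blk_Bl ha hwc' (Finset.mem_coe.1 he)))
    · exact Tk_tr.1 hTkw

theorem tri (hg : S_GOOD3) : S_TRI := by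
  intro t ht ht1
  obtain ⟨c1, hc1, htr⟩ := trialL
  obtain ⟨M, B, a0, c0, E0, p, hM, hB, ha0, hc0, hE0, hp, hp1, hgd⟩ := hg t ht ht1
  refine ⟨M, B, a0, c0, E0, p * (c1 * c1), hM, hB, ha0, hc0, hE0, by positivity, ?_⟩
  intro S A y0 a ha k F0 X Y T hF0 hk hst hA hBl hent hEk hkE
  have hcen : p ≤ Pr (fun _ => (1/2:ℝ)) (CB a) (NN t c0 E0 M B a) := by
    have h1 := hgd a ha (W92.DP.SA (4 * a) ∪ CB a) Finset.subset_union_left
    have h2 := Pr_NN (t := t) (c := c0) (E := E0) (M := M) (B := B) (a := a) (by omega)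
      (S := W92.DP.SA (4 * a) ∪ CB a) Finset.subset_union_right
    rw [← h2]
    refine h1.trans ?_
    unfold PQ
    exact Pr_mono ok_half fun F _ h => NN_of_Gd h
  exact htr t c0 E0 M B a p (by omega) hp.le hcen S k F0 A y0 X Y T hF0 hk hst (by omega) hBl
    hent hEk hkE

end Pool.Agent.U151.LB
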