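import Pool.Agent.U151.LB.Cur
import Pool.Agent.U151.LB.Lim
import Pool.Agent.U151.LB.Tri
import Pool.Agent.U151.LB.Ite
import Pool.Agent.U151.LB.Low
import Pool.Agent.U151.LB.Big
import Pool.Agent.U151.LB.Par
import Pool.Agent.Y989.FR.T_QC
import Pool.Agent.Y989.FR.T_GEO
import Pool.Agent.Y989.FR.T_CHN
import Pool.Agent.Y989.FR.AllA
import Pool.Agent.Y989.FR.All

/-!
Lower bound for the dimension of the boundaries of the components of the complement, for the limits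
of the closed path.
-/

set_option autoImplicit false

namespace Pool.Agent.U151.LB

open H974 H12S Finset H389NS H984P H984N H342P H342L H342T
open MeasureTheory Filter Topology Pool.Agent.H389R2.Dim
open Pool.Agent.W822.PD (EnV pt_dist pt_inj Sqc Sq Tr isCompact_Sqc)
open Pool.Agent.Y989.FR (Tk AE Awy Qc Fro S_QC S_GEO S_CHN)
open Pool.Agent.Y989.FR.LG (AA)
open scoped ENNReal NNReal

theorem norm_pt {n : ℕ} {w : Vtx} (h : pt n w ∈ Sqc) : ‖pt n w‖ ≤ 2 := by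
  obtain ⟨h1, h2, h3, h4⟩ := h
  refine (Complex.norm_le_abs_re_add_abs_im _).trans ?_
  rw [abs_of_nonneg h1, abs_of_nonneg h3]
  linarith

/-- vertices of the cluster are in the box -/
theorem in_Sqc {n : ℕ} (hn : 0 < n) {F : Finset Edg} (hF : F ⊆ RE 0 n 0 n) {v w u : Vtx}
    (hw : Reach (↑F : Set Edg) v w) (hu : Reach (↑F : Set Edg) v u) (hne : u ≠ w) :
    pt n w ∈ Sqc := by
  have h2 : inR 0 n 0 n w := pb_box hF (hu.symm.trans hw) (fun h => hne h)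
  unfold inR at h2
  have hn' : (0 : ℝ) < n := by exact_mod_cast hn
  obtain ⟨⟨a1, a2⟩, a3, a4⟩ := h2
  have b1 : (0 : ℝ) ≤ w.1 := by exact_mod_cast a1
  have b2 : (w.1 : ℝ) ≤ n := by exact_mod_cast a2
  have b3 : (0 : ℝ) ≤ w.2 := by exact_mod_cast a3
  have b4 : (w.2 : ℝ) ≤ n := by exact_mod_cast a4
  refine ⟨?_, ?_, ?_, ?_⟩
  · show 0 ≤ (w.1 : ℝ) / n
    positivity
  · show (w.1 : ℝ) / n ≤ 1
    rw [div_le_one hn']
    exact b2
  · show 0 ≤ (w.2 : ℝ) / n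
    positivity
  · show (w.2 : ℝ) / n ≤ 1
    rw [div_le_one hn']
    exact b4

theorem ll (hP : S_PAR) (hqc : S_QC) (hgeo : S_GEO) (hchn : S_CHN)
    {sel : (n : ℕ) → Finset Plain.Edge → ℤ × ℤ}
    {γ : (n : ℕ) → Finset Plain.Edge → Curve} (hT : Tr sel γ) {k : ℕ → ℕ}
    (hk : Tendsto k atTop atTop) {μ : ProbabilityMeasure Curve}
    (hμ : Tendsto (fun i => lawOf (k i) (γ (k i))) atTop (𝓝 μ)) {t : ℝ} (ht : 0 < t)
    (ht1 : t < 4/3) :
    ∀ᵐ c : Curve ∂(μ : Measure Curve), ENNReal.ofReal t ≤ dimH (Fro (Set.range c.path)) := by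
  obtain ⟨hsel, htr⟩ := hT
  refine lgC hμ ht (fun f => Fro (Set.range f)) ?_
  intro ε hε
  obtain ⟨δ, hδ, hδε⟩ : ∃ δ : ℝ, 0 < δ ∧ ENNReal.ofReal δ ≤ ε := by
    rcases eq_or_ne ε ∞ with h | h
    · exact ⟨1, one_pos, by rw [h]; exact le_top⟩
    · exact ⟨ε.toReal, ENNReal.toReal_pos hε.ne' h, by rw [ENNReal.ofReal_toReal h]⟩
  obtain ⟨M, B, ρ, c0, E0, hM, hB, hρ, hc0, hE0, n0, hn0⟩ := hP t ht ht1 δ hδ
  obtain ⟨M', hM'⟩ : ∃ M' : ℝ, M' = 2 ^ B * M := ⟨_, rfl⟩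
  have hMr : (0:ℝ) < M := by
    have : 0 < M := by omega
    exact_mod_cast this
  have hM'0 : 0 < M' := by rw [hM']; positivity
  obtain ⟨NN, hNN⟩ := Classical.axiomOfChoice (fun k : ℕ =>
    hchn 4 (1 / ((k : ℝ) + 1)) (by positivity))
  refine ⟨2 ^ (-t) / (E0 / c0 ^ 2), Sqc,
    fun k => Qc M' (ρ / 128) 4 (1 / ((k : ℝ) + 1)) B (NN k), by positivity, isCompact_Sqc,
    fun k => hqc _ _ _ _ _ _, fun k => Qc_rinv _ _ _ _ _ _, ?_, ?_⟩
  · intro f z _ hz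
    exact hgeo M' (ρ / 128) 4 B NN f z hM'0 (by positivity) hB hz
  · intro ε' hε'
    obtain ⟨n1, hn1⟩ := exists_nat_gt (1 / ε')
    obtain ⟨n2, hn2⟩ := exists_nat_gt (4 / ε')
    obtain ⟨n3, hn3⟩ := exists_nat_gt (M' / ε')
    have hev : ∀ᶠ i in atTop, max (max n0 n1) (max (max n2 n3) 1) ≤ k i := tendsto_atTop.mp hk _
    filter_upwards [hev] with i hi
    rw [max_le_iff, max_le_iff, max_le_iff, max_le_iff] at hi
    obtain ⟨⟨hi0, hi1⟩, ⟨hi2, hi4⟩, hi3⟩ := hi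
    have hopen : IsOpen {p : Curve |
        ¬ Good t ε' (2 ^ (-t) / (E0 / c0 ^ 2)) (AA Sqc
          (fun k => Qc M' (ρ / 128) 4 (1 / ((k : ℝ) + 1)) B (NN k)) ε' p.path)} :=
      (isClosed_goodC (fun k => hqc _ _ _ _ _ _) (fun k => Qc_rinv _ _ _ _ _ _)
        isCompact_Sqc).isOpen_compl
    rw [lawOf_apply _ _ hopen.measurableSet]
    refine le_trans (ENNReal.ofReal_le_ofReal ?_) hδε
    have hkpos : (0:ℝ) < k i := by exact_mod_cast hi3
    have hk1 : (n1 : ℝ) ≤ k i := by exact_mod_cast hi1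
    have hk2 : (n2 : ℝ) ≤ k i := by exact_mod_cast hi2
    have hk4 : (n3 : ℝ) ≤ k i := by exact_mod_cast hi4
    have hinv : ((k i : ℕ) : ℝ)⁻¹ = 1 / (k i : ℝ) := (one_div _).symm
    have q1 : 1 / ((k i : ℕ) : ℝ) ≤ ε' := by
      rw [div_le_iff₀ hkpos]
      rw [div_lt_iff₀ hε'] at hn1
      nlinarith
    have q2 : 4 * ((k i : ℕ) : ℝ)⁻¹ ≤ ε' := by
      rw [← div_eq_mul_inv, div_le_iff₀ hkpos]
      rw [div_lt_iff₀ hε'] at hn2
      nlinarith
    have q3 : M' * ((k i : ℕ) : ℝ)⁻¹ ≤ ε' := by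
      rw [← div_eq_mul_inv, div_le_iff₀ hkpos]
      rw [div_lt_iff₀ hε'] at hn3
      nlinarith
    refine le_trans (Plain.prob_le_of_pr ?_) (hn0 (k i) hi0)
    intro F hF hbad
    refine ⟨sel (k i) F, Plain.isMax_of_largest (hsel _ _ hi3 hF), fun hcon => hbad ?_⟩
    obtain ⟨a, ha1, ha2, ha3, V, hV1, hV2, hV3⟩ := hcon
    have ha2' : (a : ℝ) ≤ k i := by exact_mod_cast ha2
    refine good_of_V hi3 ht hc0 hE0 q1 hV1 hV2 ?_
    intro w hw
    have hfr := hV3 w hw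
    have hF' : F ⊆ RE 0 (k i) 0 (k i) := by
      rw [← Plain.edges_eq]
      exact hF
    have hsq : pt (k i) w ∈ Sqc := by
      obtain ⟨h1, -, ⟨u, hu, hfar⟩, -⟩ := hfr
      refine in_Sqc hi3 hF' h1 hu ?_
      rintro rfl
      unfold Far at hfar
      omega
    have hk64 : 64 * (a / 64) ≤ a := Nat.mul_div_le a 64
    have hk128 : a ≤ 128 * (a / 64) := by omega
    have hk64' : 64 * ((a / 64 : ℕ) : ℝ) ≤ a := by exact_mod_cast hk64
    have hk128' : (a : ℝ) ≤ 128 * ((a / 64 : ℕ) : ℝ) := by exact_mod_cast hk128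
    have hk0 : (0:ℝ) ≤ ((a / 64 : ℕ) : ℝ) := Nat.cast_nonneg _
    have r1 : ((k i : ℕ) : ℝ)⁻¹ * ((a / 64 : ℕ) : ℝ) ≤ 1 / 64 := by
      rw [mul_comm, ← div_eq_mul_inv, div_le_iff₀ hkpos]
      linarith
    refine ⟨hsq, fun j hj => ?_⟩
    refine mem_QcC hi3 (htr _ _ hi3 hF) (by omega) hB ha3 rfl hfr hM'0.le ?_ (q2.trans hj)
      (q3.trans hj) ?_ ?_ (hNN j)
    · rw [hM']
      have h1 : (((k i : ℕ) : ℝ)⁻¹ * (8 * ((a / 64 : ℕ) : ℝ))) ^ (B - 1) ≤ 1 := by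
        apply pow_le_one₀ (by positivity)
        linarith
      have h2 : (0:ℝ) ≤ 2 ^ B * M := by positivity
      nlinarith
    · rw [mul_comm, ← div_eq_mul_inv, le_div_iff₀ hkpos]
      linarith
    · have := norm_pt hsq
      linarith

theorem s_par : S_PAR := par (tri Y989.FR.a_GOOD3) (low t_ITE rot) big

/-- The union of the boundaries of the components of the complement has dimension at least `4/3`. -/
theorem lower {sel : (n : ℕ) → Finset Plain.Edge → ℤ × ℤ}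
    {γ : (n : ℕ) → Finset Plain.Edge → Curve} (hT : Tr sel γ) {k : ℕ → ℕ}
    (hk : Tendsto k atTop atTop) {μ : ProbabilityMeasure Curve}
    (hμ : Tendsto (fun i => lawOf (k i) (γ (k i))) atTop (𝓝 μ)) :
    ∀ᵐ c : Curve ∂(μ : Measure Curve), (4/3 : ℝ≥0∞) ≤ dimH (Fro (Set.range c.path)) := by
  have e43 : ENNReal.ofReal (4/3) = 4/3 := by
    rw [ENNReal.ofReal_div_of_pos (by norm_num)]
    norm_num
  have h3 : ∀ᵐ c : Curve ∂(μ : Measure Curve), ∀ j : ℕ,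
      ENNReal.ofReal (4/3 - 1 / ((j:ℝ) + 1)) ≤ dimH (Fro (Set.range c.path)) := by
    rw [ae_all_iff]
    intro j
    rcases le_or_gt (4/3 - 1 / ((j:ℝ) + 1)) 0 with h | h
    · filter_upwards with c
      rw [ENNReal.ofReal_of_nonpos h]
      exact bot_le
    · have h4 : (0:ℝ) < 1 / ((j:ℝ) + 1) := by positivity
      exact ll s_par Y989.FR.QC.t_QC Y989.FR.GEO.t_GEO Y989.FR.CHN.t_CHN hT hk hμ h (by linarith)
  filter_upwards [h3] with c c3
  have hlim : Tendsto (fun j : ℕ => ENNReal.ofReal (4/3 - 1 / ((j:ℝ) + 1))) atTop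
      (𝓝 (ENNReal.ofReal (4/3 - 0))) := by
    apply ENNReal.tendsto_ofReal
    apply tendsto_const_nhds.sub
    exact tendsto_one_div_add_atTop_nhds_zero_nat
  rw [sub_zero, e43] at hlim
  exact le_of_tendsto' hlim (fun j => c3 j)

end Pool.Agent.U151.LB
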