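import Pool.Agent.U151.LB.Lim

/-!
Passage to the limit for all arcs of a curve simultaneously.
-/

set_option autoImplicit false

namespace Pool.Agent.U151.LB

open Set Filter Topology Metric Pool.Agent.H389R2.Dim MeasureTheory H342L
open Pool.Agent.Y989.FR Pool.Agent.Y989.FR.LG Pool.Agent.W822.PD
open scoped ENNReal NNReal

/-- The point is visited at a time in `[u, v]`. -/
def Qa (u v : unitInterval) (Q : ℕ → Set (C(unitInterval, ℂ) × ℂ)) (k : ℕ) :
    Set (C(unitInterval, ℂ) × ℂ) :=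
  {p | p ∈ Q k ∧ ∃ w : unitInterval, (u ≤ w ∧ w ≤ v) ∧ dist (p.1 w) p.2 ≤ 1 / ((k : ℝ) + 1)}

theorem isClosed_Qa {Q : ℕ → Set (C(unitInterval, ℂ) × ℂ)} (hQ : ∀ k, IsClosed (Q k))
    (u v : unitInterval) (k : ℕ) : IsClosed (Qa u v Q k) := by
  refine (hQ k).inter ?_
  have hcl : IsClosed {q : (C(unitInterval, ℂ) × ℂ) × unitInterval |
      (u ≤ q.2 ∧ q.2 ≤ v) ∧ dist (q.1.1 q.2) q.1.2 ≤ 1 / ((k : ℝ) + 1)} := by
    refine IsClosed.inter (IsClosed.inter ?_ ?_) ?_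
    · exact isClosed_le continuous_const (continuous_subtype_val.comp continuous_snd)
    · exact isClosed_le (continuous_subtype_val.comp continuous_snd) continuous_const
    · refine isClosed_le (Continuous.dist ?_ ?_) continuous_const
      · fun_prop
      · fun_prop
  have h2 := isClosedMap_fst_of_compactSpace _ hcl
  have h3 : {p : C(unitInterval, ℂ) × ℂ | ∃ w : unitInterval, (u ≤ w ∧ w ≤ v) ∧
      dist (p.1 w) p.2 ≤ 1 / ((k : ℝ) + 1)} = Prod.fst ''
      {q : (C(unitInterval, ℂ) × ℂ) × unitInterval |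
      (u ≤ q.2 ∧ q.2 ≤ v) ∧ dist (q.1.1 q.2) q.1.2 ≤ 1 / ((k : ℝ) + 1)} := by
    ext p
    constructor
    · rintro ⟨w, h⟩
      exact ⟨(p, w), h, rfl⟩
    · rintro ⟨⟨p', w⟩, h, rfl⟩
      exact ⟨w, h⟩
  rw [← h3] at h2
  exact h2

/-- All arcs starting in `D` with end points at distance more than `κ` are good. -/
def GA (t e c κ : ℝ) (D K : Set ℂ) (Q : ℕ → Set (C(unitInterval, ℂ) × ℂ))
    (f : C(unitInterval, ℂ)) : Prop :=
  ∀ u v : unitInterval, u ≤ v → f u ∈ D → κ < dist (f u) (f v) →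
    Good t e c (AA K (Qa u v Q) e f)

theorem isClosed_GA {t e c κ : ℝ} {D K : Set ℂ} {Q : ℕ → Set (C(unitInterval, ℂ) × ℂ)}
    (hQ : ∀ k, IsClosed (Q k)) (hK : IsCompact K) (hD : IsOpen D) :
    IsClosed {f | GA t e c κ D K Q f} := by
  have h : {f | GA t e c κ D K Q f} = ⋂ (u : unitInterval) (v : unitInterval) (_ : u ≤ v),
      ({f : C(unitInterval, ℂ) | f u ∈ D}ᶜ ∪ ({f : C(unitInterval, ℂ) | κ < dist (f u) (f v)}ᶜ ∪
        {f : C(unitInterval, ℂ) | Good t e c (AA K (Qa u v Q) e f)})) := by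
    ext f
    simp only [GA, mem_ofPred_eq, mem_iInter, mem_union, mem_compl_iff]
    constructor
    · intro h u v huv
      by_cases h1 : f u ∈ D
      · by_cases h2 : κ < dist (f u) (f v)
        · exact Or.inr (Or.inr (h u v huv h1 h2))
        · exact Or.inr (Or.inl h2)
      · exact Or.inl h1
    · intro h u v huv h1 h2
      rcases h u v huv with h3 | h3 | h3
      · exact absurd h1 h3
      · exact absurd h2 h3
      · exact h3
  rw [h]
  refine isClosed_iInter fun u => isClosed_iInter fun v => isClosed_iInter fun _ => ?_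
  have c1 : ∀ w : unitInterval, Continuous (fun f : C(unitInterval, ℂ) => f w) := fun w => by
    fun_prop
  refine (hD.preimage (c1 u)).isClosed_compl.union (IsClosed.union ?_ ?_)
  · exact (isOpen_lt continuous_const ((c1 u).dist (c1 v))).isClosed_compl
  · exact isClosed_good_AA (fun k => isClosed_Qa hQ u v k) hK

theorem GA_rep {t e c κ : ℝ} {D K : Set ℂ} {Q : ℕ → Set (C(unitInterval, ℂ) × ℂ)}
    (hR : ∀ k, RInv (Q k)) (f : C(unitInterval, ℂ)) (φ : unitInterval ≃o unitInterval)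
    (h : GA t e c κ D K Q f) : GA t e c κ D K Q (rep f φ) := by
  intro u v huv h1 h2
  rw [rep_apply] at h1
  rw [rep_apply, rep_apply] at h2
  refine (h (φ u) (φ v) (φ.monotone huv) h1 h2).mono ?_
  rintro z ⟨hz, hh⟩
  refine ⟨hz, fun k hk => ?_⟩
  obtain ⟨h3, w, ⟨h4, h5⟩, h6⟩ := hh k hk
  refine ⟨hR k f φ z h3, φ.symm w, ⟨?_, ?_⟩, ?_⟩
  · exact (φ.le_symm_apply).2 h4
  · exact (φ.symm_apply_le).2 h5
  · show dist (rep f φ (φ.symm w)) z ≤ _
    rw [rep_apply, OrderIso.apply_symm_apply]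
    exact h6

theorem GA_anti {t e e' c κ : ℝ} {D K : Set ℂ} {Q : ℕ → Set (C(unitInterval, ℂ) × ℂ)}
    (he : e ≤ e') {f : C(unitInterval, ℂ)} (h : GA t e c κ D K Q f) : GA t e' c κ D K Q f :=
  fun u v huv h1 h2 => ((h u v huv h1 h2).mono (AA_mono he f)).anti he

/-- The limit. -/
theorem GA_lim {t c κ : ℝ} {D K : Set ℂ} {Q : ℕ → Set (C(unitInterval, ℂ) × ℂ)} (ht : 0 < t)
    (hc : 0 < c) (hK : IsCompact K) (hQ : ∀ k, IsClosed (Q k)) {T : Set ℂ}
    {f : C(unitInterval, ℂ)} (hT : ∀ z ∈ K, (∀ k, (f, z) ∈ Q k) → z ∈ T)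
    (h : ∀ n : ℕ, GA t (1 / ((n : ℝ) + 1)) c κ D K Q f) {u v : unitInterval} (huv : u ≤ v)
    (h1 : f u ∈ D) (h2 : κ < dist (f u) (f v)) :
    ENNReal.ofReal t ≤ dimH (T ∩ f '' Icc u v) := by
  have hQ' := fun k => isClosed_Qa hQ u v k
  have h4 : ∀ δ' : ℝ, 0 < δ' → Good t δ' c (AA K (Qa u v Q) 0 f) := by
    intro δ' hδ'
    apply LG.good_zero hQ' hK
    intro n
    obtain ⟨m, hm⟩ := exists_nat_one_div_lt hδ'
    have h5 := h (max n m) u v huv h1 h2
    have h6 : (1 : ℝ) / (((max n m : ℕ) : ℝ) + 1) ≤ 1 / ((n : ℝ) + 1) :=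
      Nat.one_div_le_one_div (le_max_left _ _)
    have h7 : (1 : ℝ) / (((max n m : ℕ) : ℝ) + 1) ≤ 1 / ((m : ℝ) + 1) :=
      Nat.one_div_le_one_div (le_max_right _ _)
    exact (h5.mono (AA_mono h6 f)).anti (h7.trans hm.le)
  refine (le_dimH_of_good ht hc (isCompact_AA hQ' hK f) h4).trans (dimH_mono ?_)
  rintro z ⟨hz, hh⟩
  refine ⟨hT z hz (fun k => (hh k (by positivity)).1), ?_⟩
  have hcl : IsClosed (f '' Icc u v) := (isCompact_Icc.image f.continuous).isClosed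
  rw [← hcl.closure_eq, Metric.mem_closure_iff]
  intro ε hε
  obtain ⟨m, hm⟩ := exists_nat_one_div_lt hε
  obtain ⟨-, w, hw, hd⟩ := hh m (by positivity)
  refine ⟨f w, ⟨w, hw, rfl⟩, ?_⟩
  rw [dist_comm]
  exact lt_of_le_of_lt hd hm

/-- Abstract passage to the limit for all arcs. -/
theorem lgA {Y : Type*} [TopologicalSpace Y] [MeasurableSpace Y] [OpensMeasurableSpace Y]
    [HasOuterApproxClosed Y] (path : Y → C(unitInterval, ℂ))
    {μs : ℕ → ProbabilityMeasure Y} {μ : ProbabilityMeasure Y}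
    (hμ : Tendsto μs atTop (𝓝 μ)) {t κ : ℝ} {D : Set ℂ} (ht : 0 < t)
    (T : C(unitInterval, ℂ) → Set ℂ)
    (h : ∀ ε : ℝ≥0∞, 0 < ε → ∃ (c : ℝ) (K : Set ℂ) (Q : ℕ → Set (C(unitInterval, ℂ) × ℂ)), 0 < c ∧
      IsCompact K ∧ (∀ k, IsClosed (Q k)) ∧
      (∀ ε' : ℝ, IsClosed {y : Y | GA t ε' c κ D K Q (path y)}) ∧
      (∀ f, ∀ z ∈ K, (∀ k, (f, z) ∈ Q k) → z ∈ T f) ∧
      ∀ ε' : ℝ, 0 < ε' → ∀ᶠ i in atTop,
        (μs i : Measure Y) {y : Y | ¬ GA t ε' c κ D K Q (path y)} ≤ ε) :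
    ∀ᵐ y : Y ∂(μ : Measure Y), ∀ u v : unitInterval, u ≤ v → path y u ∈ D →
      κ < dist (path y u) (path y v) → ENNReal.ofReal t ≤ dimH (T (path y) ∩ path y '' Icc u v) := by
  rw [ae_iff, ← nonpos_iff_eq_zero]
  apply ENNReal.le_of_forall_pos_le_add
  intro ε hε _
  obtain ⟨c, K, Q, hc, hK, hQ, hcl, hT, h1⟩ := h ε (by exact_mod_cast hε)
  have h2 : ∀ ε' : ℝ, 0 < ε' →
      (μ : Measure Y) {y : Y | ¬ GA t ε' c κ D K Q (path y)} ≤ ε := by
    intro ε' hε'
    refine (ProbabilityMeasure.le_liminf_measure_open_of_tendsto hμ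
      (hcl ε').isOpen_compl).trans ?_
    exact liminf_le_of_frequently_le (h1 ε' hε').frequently
  set Bd : ℕ → Set Y := fun n =>
    {y : Y | ¬ GA t (1 / ((n : ℝ) + 1)) c κ D K Q (path y)} with hBd
  have hmono : Monotone Bd := by
    intro n n' hnn p hp hG
    exact hp (GA_anti (Nat.one_div_le_one_div hnn) hG)
  have h3 : {y : Y | ¬ ∀ u v : unitInterval, u ≤ v → path y u ∈ D →
      κ < dist (path y u) (path y v) →
        ENNReal.ofReal t ≤ dimH (T (path y) ∩ path y '' Icc u v)} ⊆ ⋃ n : ℕ, Bd n := by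
    intro y hy
    by_contra hcon
    simp only [hBd, Set.mem_iUnion, Set.mem_ofPred_eq, not_exists, not_not] at hcon
    exact hy fun u v huv h4 h5 => GA_lim ht hc hK hQ (hT _) hcon huv h4 h5
  refine le_trans (measure_mono h3) ?_
  rw [zero_add, hmono.measure_iUnion]
  exact iSup_le fun n => h2 _ (by positivity)

/-- An arc which meets the open set `D` and is not a point contains an arc which starts in `D` and
ends at another point. -/
theorem arc_start {f : C(unitInterval, ℂ)} {D : Set ℂ} (hD : IsOpen D) {u v : unitInterval}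
    (h1 : (f '' Icc u v ∩ D).Nonempty) (h2 : ¬ (f '' Icc u v).Subsingleton) :
    ∃ a b : unitInterval, u ≤ a ∧ a ≤ b ∧ b ≤ v ∧ f a ∈ D ∧ f a ≠ f b := by
  by_contra hcon
  push Not at hcon
  obtain ⟨_, ⟨w, hw, rfl⟩, hwD⟩ := h1
  have e1 : f w = f v := hcon w v hw.1 hw.2 le_rfl hwD
  have hpre : IsPreconnected (f '' Icc u v) :=
    isPreconnected_Icc.image f f.continuous.continuousOn
  rw [isPreconnected_iff_subset_of_disjoint_closed] at hpre
  have h3 := hpre {f v} Dᶜ isClosed_singleton hD.isClosed_compl ?_ ?_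
  · rcases h3 with h3 | h3
    · apply h2
      intro x hx y hy
      have e2 := h3 hx
      have e3 := h3 hy
      rw [mem_singleton_iff] at e2 e3
      rw [e2, e3]
    · exact h3 ⟨w, hw, rfl⟩ hwD
  · rintro _ ⟨x, hx, rfl⟩
    by_cases hxD : f x ∈ D
    · left
      exact hcon x v hx.1 hx.2 le_rfl hxD
    · right
      exact hxD
  · ext x
    simp only [mem_inter_iff, mem_singleton_iff, mem_compl_iff, mem_empty_iff_false, iff_false,
      not_and, not_not]
    rintro - rfl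
    rw [← e1]
    exact hwD

/-- All arcs. -/
theorem all_arcs {f : C(unitInterval, ℂ)} {T : Set ℂ} {t : ℝ≥0∞} {D : ℕ → Set ℂ}
    (hmono : Monotone D) (hDo : IsOpen (⋃ m, D m))
    (h : ∀ m : ℕ, ∀ u v : unitInterval, u ≤ v → f u ∈ D m →
      1 / ((m : ℝ) + 1) < dist (f u) (f v) → t ≤ dimH (T ∩ f '' Icc u v))
    {u v : unitInterval} (h1 : (f '' Icc u v ∩ ⋃ m, D m).Nonempty)
    (h2 : ¬ (f '' Icc u v).Subsingleton) : t ≤ dimH (T ∩ f '' Icc u v) := by
  obtain ⟨a, b, g1, g2, g3, g4, g5⟩ := arc_start hDo h1 h2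
  rw [mem_iUnion] at g4
  obtain ⟨m1, hm1⟩ := g4
  obtain ⟨m2, hm2⟩ := exists_nat_one_div_lt (dist_pos.2 g5)
  refine (h (max m1 m2) a b g2 (hmono (le_max_left _ _) hm1) ?_).trans (dimH_mono ?_)
  · exact lt_of_le_of_lt (Nat.one_div_le_one_div (le_max_right _ _)) hm2
  · exact inter_subset_inter_right _ (image_mono (Icc_subset_Icc g1 g3))

end Pool.Agent.U151.LB
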