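import Pool.Agent.U151.LB.ArcV
import Pool.Agent.U151.LB.LimV
import Pool.Agent.U151.LB.LL

/-!
All arcs of the limits of the closed path.
-/

set_option autoImplicit false

namespace Pool.Agent.U151.LB

open H974 H12S Finset H389NS H984P H984N H342P H342L H342T
open MeasureTheory Filter Topology Pool.Agent.H389R2.Dim
open Pool.Agent.W822.PD (EnV pt_dist pt_inj Sqc Sq Tr isCompact_Sqc isClosed_curve)
open Pool.Agent.Y989.FR (Tk AE Awy Qc Fro S_QC S_GEO S_CHN)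
open Pool.Agent.Y989.FR.LG (AA)
open scoped ENNReal NNReal

theorem llA (hqc : S_QC) (hgeo : S_GEO) (hchn : S_CHN)
    {sel : (n : ℕ) → Finset Plain.Edge → ℤ × ℤ}
    {γ : (n : ℕ) → Finset Plain.Edge → Curve} (hT : Tr sel γ) {k : ℕ → ℕ}
    (hk : Tendsto k atTop atTop) {μ : ProbabilityMeasure Curve}
    (hμ : Tendsto (fun i => lawOf (k i) (γ (k i))) atTop (𝓝 μ)) {t : ℝ} (ht : 0 < t)
    (ht1 : t < 4/3) {κ : ℝ} (hκ : 0 < κ) :
    ∀ᵐ c : Curve ∂(μ : Measure Curve), ∀ u v : unitInterval, u ≤ v →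
      c.path u ∈ Dk (5 * (κ / 2)) → κ < dist (c.path u) (c.path v) →
      ENNReal.ofReal t ≤ dimH (Fro (Set.range c.path) ∩ c.path '' Set.Icc u v) := by
  obtain ⟨hsel, htr⟩ := hT
  refine lgA (fun c : Curve => c.path) hμ ht (fun f => Fro (Set.range f)) ?_
  intro ε hε
  obtain ⟨δ, hδ, hδε⟩ : ∃ δ : ℝ, 0 < δ ∧ ENNReal.ofReal δ ≤ ε := by
    rcases eq_or_ne ε ∞ with h | h
    · exact ⟨1, one_pos, by rw [h]; exact le_top⟩
    · exact ⟨ε.toReal, ENNReal.toReal_pos hε.ne' h, by rw [ENNReal.ofReal_toReal h]⟩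
  obtain ⟨M, B, ρ, c0, E0, hM, hB, hρ, hc0, hE0, n0, hn0⟩ :=
    parV ht ht1 (tri Y989.FR.a_GOOD3) (κ := κ / 4) (by positivity) hδ
  obtain ⟨M', hM'⟩ : ∃ M' : ℝ, M' = 2 ^ B * M := ⟨_, rfl⟩
  have hMr : (0:ℝ) < M := by
    have : 0 < M := by omega
    exact_mod_cast this
  have hM'0 : 0 < M' := by rw [hM']; positivity
  obtain ⟨NN, hNN⟩ := Classical.axiomOfChoice (fun k : ℕ =>
    hchn 4 (1 / ((k : ℝ) + 1)) (by positivity))
  have hcl := fun ε' : ℝ => isClosed_curve (isClosed_GA (t := t) (e := ε')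
    (c := 2 ^ (-t) / (E0 / c0 ^ 2)) (κ := κ) (K := Sqc)
    (fun k => hqc M' (ρ / 128) 4 (1 / ((k : ℝ) + 1)) B (NN k)) isCompact_Sqc
    (isOpen_Dk (5 * (κ / 2)))) (fun f φ h => GA_rep (fun k => Qc_rinv _ _ _ _ _ _) f φ h)
  refine ⟨2 ^ (-t) / (E0 / c0 ^ 2), Sqc,
    fun k => Qc M' (ρ / 128) 4 (1 / ((k : ℝ) + 1)) B (NN k), by positivity, isCompact_Sqc,
    fun k => hqc _ _ _ _ _ _, hcl, ?_, ?_⟩
  · intro f z _ hz
    exact hgeo M' (ρ / 128) 4 B NN f z hM'0 (by positivity) hB hz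
  · intro ε' hε'
    obtain ⟨n1, hn1⟩ := exists_nat_gt (1 / ε')
    obtain ⟨n2, hn2⟩ := exists_nat_gt (4 / ε')
    obtain ⟨n3, hn3⟩ := exists_nat_gt (M' / ε')
    obtain ⟨n4, hn4⟩ := exists_nat_gt (16 / κ)
    have hev : ∀ᶠ i in atTop, max (max n0 n1) (max (max n2 n3) (max n4 1)) ≤ k i :=
      tendsto_atTop.mp hk _
    filter_upwards [hev] with i hi
    rw [max_le_iff, max_le_iff, max_le_iff, max_le_iff, max_le_iff] at hi
    obtain ⟨⟨hi0, hi1⟩, ⟨hi2, hi4⟩, hi5, hi3⟩ := hi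
    have hop : IsOpen {y : Curve | ¬ GA t ε' (2 ^ (-t) / (E0 / c0 ^ 2)) κ (Dk (5 * (κ / 2))) Sqc
        (fun k => Qc M' (ρ / 128) 4 (1 / ((k : ℝ) + 1)) B (NN k)) y.path} :=
      (hcl ε').isOpen_compl
    rw [lawOf_apply _ _ hop.measurableSet]
    refine le_trans (ENNReal.ofReal_le_ofReal ?_) hδε
    have hkpos : (0:ℝ) < k i := by exact_mod_cast hi3
    have hk1 : (n1 : ℝ) ≤ k i := by exact_mod_cast hi1
    have hk2 : (n2 : ℝ) ≤ k i := by exact_mod_cast hi2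
    have hk4 : (n3 : ℝ) ≤ k i := by exact_mod_cast hi4
    have hk5 : (n4 : ℝ) ≤ k i := by exact_mod_cast hi5
    have hinv : ((k i : ℕ) : ℝ)⁻¹ = 1 / (k i : ℝ) := (one_div _).symm
    have q1 : 1 / ((k i : ℕ) : ℝ) ≤ ε' := by
      rw [div_le_iff₀ hkpos]
      rw [div_lt_iff₀ hε'] at hn1
      nlinarith
    have q2 : 4 * ((k i : ℕ) : ℝ)⁻¹ ≤ ε' := by
      rw [← div_eq_mul_inv, div_le_iff₀ hkpos]
      rw [div_lt_iff₀ hε'] at hn2
      nlinarith
    have q3 : M' * ((k i : ℕ) : ℝ)⁻¹ ≤ ε' := by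
      rw [← div_eq_mul_inv, div_le_iff₀ hkpos]
      rw [div_lt_iff₀ hε'] at hn3
      nlinarith
    obtain ⟨a, R, ha3, ha1, haR, hRκ, hpr⟩ := hn0 (k i) hi0
    have hpr := hpr 0 0
    rw [zero_add] at hpr
    refine le_trans (Plain.prob_le_of_pr ?_) hpr
    intro F hF hbad
    by_contra hcon
    apply hbad
    intro u v huv hD hd
    have hR4 : (R : ℝ) + 4 ≤ κ / 2 * (k i : ℕ) := by
      rw [div_lt_iff₀ hκ] at hn4
      nlinarith
    obtain ⟨V, hV1, hV2, hV3⟩ := arc_V hi3 (htr _ _ hi3 hF) haR hcon huv hR4 hD (by linarith)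
    have han : a ≤ k i := by
      have h16 : (16 * a : ℝ) ≤ R := by exact_mod_cast haR
      have hD1 := hD.1
      have h5 : 5 * (κ / 2) < 1 - 5 * (κ / 2) := hD1.1.trans hD1.2
      have : (a : ℝ) ≤ k i := by
        have h6 : (0:ℝ) ≤ a := Nat.cast_nonneg _
        nlinarith
      exact_mod_cast this
    have ha2' : (a : ℝ) ≤ k i := by exact_mod_cast han
    refine good_of_V hi3 ht hc0 hE0 q1 hV1 hV2 ?_
    intro w hw
    obtain ⟨hfr, s, hs, hsw⟩ := hV3 w hw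
    have hF' : F ⊆ RE 0 (k i) 0 (k i) := by
      rw [← Plain.edges_eq]
      exact hF
    have hsq : pt (k i) w ∈ Sqc := by
      obtain ⟨h1, -, ⟨u, hu, hfar⟩, -⟩ := hfr
      refine in_Sqc hi3 hF' h1 hu ?_
      rintro rfl
      unfold Far at hfar
      omega
    have hk64 : 64 * (a / 64) ≤ a := Nat.mul_div_le a 64
    have hk128 : a ≤ 128 * (a / 64) := by omega
    have hk64' : 64 * ((a / 64 : ℕ) : ℝ) ≤ a := by exact_mod_cast hk64
    have hk128' : (a : ℝ) ≤ 128 * ((a / 64 : ℕ) : ℝ) := by exact_mod_cast hk128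
    have hk0 : (0:ℝ) ≤ ((a / 64 : ℕ) : ℝ) := Nat.cast_nonneg _
    have r1 : ((k i : ℕ) : ℝ)⁻¹ * ((a / 64 : ℕ) : ℝ) ≤ 1 / 64 := by
      rw [mul_comm, ← div_eq_mul_inv, div_le_iff₀ hkpos]
      linarith
    refine ⟨hsq, fun j hj => ⟨?_, s, hs, ?_⟩⟩
    · refine mem_QcC hi3 (htr _ _ hi3 hF) (by omega) hB ha3 rfl hfr hM'0.le ?_ (q2.trans hj)
        (q3.trans hj) ?_ ?_ (hNN j)
      · rw [hM']
        have h1 : (((k i : ℕ) : ℝ)⁻¹ * (8 * ((a / 64 : ℕ) : ℝ))) ^ (B - 1) ≤ 1 := by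
          apply pow_le_one₀ (by positivity)
          linarith
        have h2 : (0:ℝ) ≤ 2 ^ B * M := by positivity
        nlinarith
      · rw [mul_comm, ← div_eq_mul_inv, le_div_iff₀ hkpos]
        linarith
      · have := norm_pt hsq
        linarith
    · rw [hsw, dist_self]
      positivity

theorem iUnion_Dk : (⋃ m : ℕ, Dk (5 * (1 / ((m : ℝ) + 1) / 2))) = Dk 0 := by
  ext z
  simp only [Set.mem_iUnion]
  constructor
  · rintro ⟨m, ⟨h1, h2⟩, h3, h4⟩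
    have h0 : 0 < 5 * (1 / ((m : ℝ) + 1) / 2) := by positivity
    exact ⟨⟨by linarith, by linarith⟩, by linarith, by linarith⟩
  · rintro ⟨⟨h1, h2⟩, h3, h4⟩
    obtain ⟨η, hη⟩ : ∃ η : ℝ, η = min (min z.re (1 - 0 - z.re)) (min z.im (1 - 0 - z.im)) :=
      ⟨_, rfl⟩
    have hη0 : 0 < η := by
      rw [hη]
      exact lt_min (lt_min h1 (by linarith)) (lt_min h3 (by linarith))
    have g1 : η ≤ z.re := by rw [hη]; exact (min_le_left _ _).trans (min_le_left _ _)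
    have g2 : η ≤ 1 - 0 - z.re := by rw [hη]; exact (min_le_left _ _).trans (min_le_right _ _)
    have g3 : η ≤ z.im := by rw [hη]; exact (min_le_right _ _).trans (min_le_left _ _)
    have g4 : η ≤ 1 - 0 - z.im := by rw [hη]; exact (min_le_right _ _).trans (min_le_right _ _)
    obtain ⟨m, hm⟩ := exists_nat_one_div_lt (show 0 < η / 5 by positivity)
    refine ⟨m, ⟨?_, ?_⟩, ?_, ?_⟩ <;> linarith

theorem mono_Dk : Monotone (fun m : ℕ => Dk (5 * (1 / ((m : ℝ) + 1) / 2))) := by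
  intro m m' hmm z hz
  obtain ⟨⟨h1, h2⟩, h3, h4⟩ := hz
  have h5 : 1 / ((m' : ℝ) + 1) ≤ 1 / ((m : ℝ) + 1) := Nat.one_div_le_one_div hmm
  exact ⟨⟨by linarith, by linarith⟩, by linarith, by linarith⟩

/-- Every arc of the closed path, unless it is a point, which meets the open square, meets the
boundaries of the components of the complement in a set of dimension at least `4/3`. -/
theorem arcsL {sel : (n : ℕ) → Finset Plain.Edge → ℤ × ℤ}
    {γ : (n : ℕ) → Finset Plain.Edge → Curve} (hT : Tr sel γ) {k : ℕ → ℕ}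
    (hk : Tendsto k atTop atTop) {μ : ProbabilityMeasure Curve}
    (hμ : Tendsto (fun i => lawOf (k i) (γ (k i))) atTop (𝓝 μ)) :
    ∀ᵐ c : Curve ∂(μ : Measure Curve), ∀ u v : unitInterval,
      (c.path '' Set.Icc u v ∩ Dk 0).Nonempty → ¬ (c.path '' Set.Icc u v).Subsingleton →
      (4/3 : ℝ≥0∞) ≤ dimH (Fro (Set.range c.path) ∩ c.path '' Set.Icc u v) := by
  have e43 : ENNReal.ofReal (4/3) = 4/3 := by
    rw [ENNReal.ofReal_div_of_pos (by norm_num)]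
    norm_num
  have h3 : ∀ᵐ c : Curve ∂(μ : Measure Curve), ∀ j m : ℕ, ∀ u v : unitInterval, u ≤ v →
      c.path u ∈ Dk (5 * (1 / ((m : ℝ) + 1) / 2)) →
      1 / ((m : ℝ) + 1) < dist (c.path u) (c.path v) →
      ENNReal.ofReal (4/3 - 1 / ((j:ℝ) + 1)) ≤
        dimH (Fro (Set.range c.path) ∩ c.path '' Set.Icc u v) := by
    rw [ae_all_iff]
    intro j
    rw [ae_all_iff]
    intro m
    rcases le_or_gt (4/3 - 1 / ((j:ℝ) + 1)) 0 with h | h
    · filter_upwards with c u v _ _ _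
      rw [ENNReal.ofReal_of_nonpos h]
      exact bot_le
    · have h4 : (0:ℝ) < 1 / ((j:ℝ) + 1) := by positivity
      exact llA Y989.FR.QC.t_QC Y989.FR.GEO.t_GEO Y989.FR.CHN.t_CHN hT hk hμ h (by linarith)
        (by positivity)
  filter_upwards [h3] with c c3 u v huv1 huv2
  have hlim : Tendsto (fun j : ℕ => ENNReal.ofReal (4/3 - 1 / ((j:ℝ) + 1))) atTop
      (𝓝 (ENNReal.ofReal (4/3 - 0))) := by
    apply ENNReal.tendsto_ofReal
    apply tendsto_const_nhds.sub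
    exact tendsto_one_div_add_atTop_nhds_zero_nat
  rw [sub_zero, e43] at hlim
  refine le_of_tendsto' hlim (fun j => ?_)
  refine all_arcs mono_Dk ?_ (fun m u v huv h1 h2 => c3 j m u v huv h1 h2) ?_ huv2
  · rw [iUnion_Dk]
    exact isOpen_Dk 0
  · rw [iUnion_Dk]
    exact huv1

end Pool.Agent.U151.LB
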