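import Pool.Agent.U151.LB.ArcE
import Pool.Agent.U151.LB.LimV
import Pool.Agent.U151.LB.ArcL

/-!
All subpaths of the limits of the exploration path of a rectangle.
-/

set_option autoImplicit false

namespace Pool.Agent.U151.LB

open H974 H12S Finset H389NS H984P H984N H342P
open MeasureTheory Filter Topology Pool.Agent.H389R2.Dim
open Pool.Agent.Y989.FR (Tk AE Awy Qc Fro S_QC S_GEO S_CHN AwD)
open Pool.Agent.Y989.FR.LG (AA)
open Pool.Agent.W822.PD (EnV)
open Pool.Agent.TH966.DP (zp dist_pos_zp zp_dist zp_inj pl_node nt nt_mul)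
open scoped ENNReal NNReal

/-- Thick paths keep away from the exploration path. -/
theorem thick_X {D : Dm} {F : Finset Edg} {M B a k r : ℕ} (hM : 1 ≤ M) (hB : 1 ≤ B)
    (hk : k = a / 64) (ha : 192 ≤ a) (har : 16 * a ≤ r) {w : Vtx}
    (hw : inR (D.l + 3 * r) (D.r - 3 * r) (3 * r) (D.h - 3 * r) w)
    (h : Tk M B k w (D.cfg F)) :
    ∃ x ∈ bdB w 2, ∃ y ∈ bdB w k,
      Reach {e | e ∈ AE w 2 k ∧ AwD D F M B k w (src e) ∧ AwD D F M B k w (tgt e)} x y := by
  obtain ⟨x, hx, y, hy, hr0⟩ := h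
  refine ⟨x, hx, y, hy, hr0.mono ?_⟩
  have hfar : Far w a D.start.1 := by
    have e : D.start.1 = (D.t, D.h) := rfl
    rw [e]
    unfold inR at hw
    unfold Far
    simp only
    omega
  have key : ∀ z : Vtx, sd z w ≤ k → (∀ c ∈ Y989.FR.BB k w (D.cfg F), Awy M B k w c z) →
      AwD D F M B k w z := by
    intro z hz hA i _
    exact awc hM hB hk ha (Reach.refl _ _) hfar hz hA _ (pb_reach (D.cfg F) D.start i)
  rintro g ⟨h1, h2, h3⟩
  have h5 := Y989.FR.LIM3.mem_AE_sd h1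
  exact ⟨h1, key _ h5.1 h2, key _ h5.2 h3⟩

/-- Many points with small energy make a set good. -/
theorem good_of_VX {n : ℕ} {d s : ℝ} (hd : 0 < d) (hs : 0 < s) (hn : 0 < n) (hsn : s ≤ d * n)
    {V : Finset Vtx} {t c0 E0 ε' : ℝ} {T : Set ℂ}
    (ht : 0 < t) (hc0 : 0 < c0) (hE0 : 0 < E0) (hε' : d ≤ ε')
    (hcard : c0 * (n : ℝ) ^ (4/3 : ℝ) ≤ (V.card : ℝ))
    (hEn : EnV t V ≤ E0 * (n : ℝ) ^ (8/3 - t)) (hV : ∀ w ∈ V, zp d w ∈ T) :
    Good t ε' (2 ^ (-t) / (E0 / c0 ^ 2 * s ^ (-t))) T := by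
  classical
  have hn' : (0:ℝ) < n := by exact_mod_cast hn
  have hcpos : (0 : ℝ) < (V.card : ℝ) := lt_of_lt_of_le (by positivity) hcard
  have hne : V.Nonempty := by
    rw [← Finset.card_pos]; exact_mod_cast hcpos
  have hε0 : 0 < ε' := hd.trans_le hε'
  refine good_of_energy hε0 ht.le (by positivity) (V.image (zp d)) (hne.image _) ?_ ?_
  · intro z hz
    rw [Finset.mem_coe, Finset.mem_image] at hz
    obtain ⟨w, hw, rfl⟩ := hz
    exact hV w hw
  · rw [Finset.sum_image (fun a _ b _ hab => zp_inj hd hab),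
      Finset.card_image_of_injective _ (zp_inj hd)]
    have e1 : ∀ v ∈ V, ∑ y ∈ V.image (zp d), (max (dist (zp d v) y) ε') ^ (-t) ≤
        ∑ w ∈ V, d ^ (-t) * ((max (sd v w) 1 : ℤ) : ℝ) ^ (-t) := by
      intro v _
      rw [Finset.sum_image (fun a _ b _ hab => zp_inj hd hab)]
      refine Finset.sum_le_sum fun w _ => ?_
      have hm : (1 : ℝ) ≤ ((max (sd v w) 1 : ℤ) : ℝ) := by
        exact_mod_cast le_max_right (sd v w) 1
      rw [← Real.mul_rpow hd.le (by linarith)]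
      refine Real.rpow_le_rpow_of_nonpos (by positivity) ?_ (by linarith)
      have h6 := zp_dist hd.le v w
      rcases max_cases (sd v w) 1 with h | h
      · rw [h.1]; exact h6.trans (le_max_left _ _)
      · rw [h.1]; push_cast; rw [mul_one]
        exact hε'.trans (le_max_right _ _)
    refine (Finset.sum_le_sum e1).trans ?_
    have e2 : ∑ v ∈ V, ∑ w ∈ V, d ^ (-t) * ((max (sd v w) 1 : ℤ) : ℝ) ^ (-t)
        = d ^ (-t) * EnV t V := by
      unfold EnV
      rw [Finset.mul_sum]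
      refine Finset.sum_congr rfl fun v _ => ?_
      rw [Finset.mul_sum]
    rw [e2]
    have e3 : (c0 * (n : ℝ) ^ (4/3 : ℝ)) ^ 2 ≤ (V.card : ℝ) ^ 2 :=
      pow_le_pow_left₀ (by positivity) hcard 2
    have e4 : (c0 * (n : ℝ) ^ (4/3 : ℝ)) ^ 2 = c0 ^ 2 * (n : ℝ) ^ (8/3 : ℝ) := by
      rw [mul_pow, ← Real.rpow_natCast ((n : ℝ) ^ (4/3 : ℝ)) 2, ← Real.rpow_mul hn'.le]
      norm_num
    rw [e4] at e3
    have e6 : (d * n) ^ (-t) ≤ s ^ (-t) :=
      Real.rpow_le_rpow_of_nonpos hs hsn (by linarith)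
    calc d ^ (-t) * EnV t V ≤ d ^ (-t) * (E0 * (n : ℝ) ^ (8/3 - t)) :=
          mul_le_mul_of_nonneg_left hEn (by positivity)
      _ = E0 / c0 ^ 2 * (d * n) ^ (-t) * (c0 ^ 2 * (n : ℝ) ^ (8/3 : ℝ)) := by
          have : (n : ℝ) ^ (8/3 - t) = (n:ℝ) ^ (-t) * (n : ℝ) ^ (8/3 : ℝ) := by
            rw [← Real.rpow_add hn']
            congr 1
            ring
          rw [this, Real.mul_rpow hd.le hn'.le]
          field_simp
      _ ≤ E0 / c0 ^ 2 * s ^ (-t) * (c0 ^ 2 * (n : ℝ) ^ (8/3 : ℝ)) := by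
          refine mul_le_mul_of_nonneg_right ?_ (by positivity)
          exact mul_le_mul_of_nonneg_left e6 (by positivity)
      _ ≤ E0 / c0 ^ 2 * s ^ (-t) * (V.card : ℝ) ^ 2 :=
          mul_le_mul_of_nonneg_left e3 (by positivity)

theorem llX (hqc : S_QC) (hgeo : S_GEO) (hchn : S_CHN) (R : Rect) {δ : ℕ → ℝ}
    (hδ : ∀ i, 0 < δ i) (hlim : Tendsto δ atTop (𝓝 0)) {μ : ProbabilityMeasure X}
    (hμ : Tendsto (fun i => R.law (δ i)) atTop (𝓝 μ)) {t : ℝ} (ht : 0 < t)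
    (ht1 : t < 4/3) {κ : ℝ} (hκ : 0 < κ) :
    ∀ᵐ p : X ∂(μ : Measure X), ∀ u v : unitInterval, u ≤ v →
      p.1 u ∈ DkX R (5 * (κ / 2)) → κ < dist (p.1 u) (p.1 v) →
      ENNReal.ofReal t ≤ dimH (Fro (Set.range p.1) ∩ p.1 '' Set.Icc u v) := by
  refine lgA (fun p : X => p.1) hμ ht (fun f => Fro (Set.range f)) ?_
  intro ε hε
  obtain ⟨δ', hδ', hδε⟩ : ∃ δ : ℝ, 0 < δ ∧ ENNReal.ofReal δ ≤ ε := by
    rcases eq_or_ne ε ∞ with h | h
    · exact ⟨1, one_pos, by rw [h]; exact le_top⟩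
    · exact ⟨ε.toReal, ENNReal.toReal_pos hε.ne' h, by rw [ENNReal.ofReal_toReal h]⟩
  have hA := R.hA
  have hB' := R.hB
  have hH := R.hH
  obtain ⟨κs, S, δ0, hκs, hS, hδ0, hδ01, hsh⟩ := R.shape
  obtain ⟨M, B, ρ, c0, E0, hM, hB, hρ, hc0, hE0, n0, hn0⟩ :=
    parV ht ht1 (tri Y989.FR.a_GOOD3) (κ := κ / (16 * S)) (by positivity) hδ'
  obtain ⟨M', hM'⟩ : ∃ M' : ℝ, M' = 2 ^ B * M * κ ^ (B - 1) := ⟨_, rfl⟩
  have hMr : (0:ℝ) < M := by
    have : 0 < M := by omega
    exact_mod_cast this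
  have hM'0 : 0 < M' := by rw [hM']; positivity
  obtain ⟨R0, hR0⟩ : ∃ R0 : ℝ, R0 = R.A + R.B + R.H + κ := ⟨_, rfl⟩
  obtain ⟨NN, hNN⟩ := Classical.axiomOfChoice (fun k : ℕ =>
    hchn R0 (1 / ((k : ℝ) + 1)) (by positivity))
  obtain ⟨K, hKdef⟩ : ∃ K : Set ℂ, K = Set.Icc (-R.A) R.B ×ℂ Set.Icc 0 R.H := ⟨_, rfl⟩
  have hKc : IsCompact K := by
    rw [hKdef]
    exact isCompact_Icc.reProdIm isCompact_Icc
  obtain ⟨cc, hcc⟩ : ∃ cc : ℝ, cc = 2 ^ (-t) / (E0 / c0 ^ 2 * S ^ (-t)) := ⟨_, rfl⟩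
  have hcl : ∀ ε' : ℝ, IsClosed {p : X | GA t ε' cc κ (DkX R (5 * (κ / 2))) K
      (fun k => Qc M' (ρ * S / 128) R0 (1 / ((k : ℝ) + 1)) B (NN k)) p.1} := fun ε' =>
    (isClosed_GA (fun k => hqc _ _ _ _ _ _) hKc (isOpen_DkX R _)).preimage continuous_fst
  refine ⟨cc, K, fun k => Qc M' (ρ * S / 128) R0 (1 / ((k : ℝ) + 1)) B (NN k),
    by rw [hcc]; positivity, hKc, fun k => hqc _ _ _ _ _ _, hcl, ?_, ?_⟩
  · intro f z _ hz
    exact hgeo M' (ρ * S / 128) R0 B NN f z hM'0 (by positivity) hB hz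
  · intro ε' hε'
    obtain ⟨δm, hδm⟩ : ∃ δm : ℝ, δm = min (min δ0 (ε' / 4)) (min (min S (κ / 16))
      (min (ε' / M') (S / ((n0 : ℝ) + 1)))) := ⟨_, rfl⟩
    have hδm0 : 0 < δm := by
      rw [hδm]
      refine lt_min (lt_min hδ0 (by positivity)) (lt_min (lt_min hS (by positivity))
        (lt_min (by positivity) (by positivity)))
    have hev : ∀ᶠ i in atTop, δ i < δm := (tendsto_order.1 hlim).2 _ hδm0
    filter_upwards [hev] with i hi
    have hi0 : δ i ≤ δ0 := hi.le.trans (by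
      rw [hδm]; exact (min_le_left _ _).trans (min_le_left _ _))
    have hi1 : δ i ≤ ε' / 4 := hi.le.trans (by
      rw [hδm]; exact (min_le_left _ _).trans (min_le_right _ _))
    have hi2 : δ i ≤ S := hi.le.trans (by
      rw [hδm]; exact (min_le_right _ _).trans ((min_le_left _ _).trans (min_le_left _ _)))
    have hi3 : δ i ≤ κ / 16 := hi.le.trans (by
      rw [hδm]; exact (min_le_right _ _).trans ((min_le_left _ _).trans (min_le_right _ _)))
    have hi4 : δ i ≤ ε' / M' := hi.le.trans (by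
      rw [hδm]; exact (min_le_right _ _).trans ((min_le_right _ _).trans (min_le_left _ _)))
    have hi5 : δ i ≤ S / ((n0 : ℝ) + 1) := hi.le.trans (by
      rw [hδm]; exact (min_le_right _ _).trans ((min_le_right _ _).trans (min_le_right _ _)))
    have hδi := hδ i
    obtain ⟨d, hd⟩ : ∃ d : ℝ, d = δ i := ⟨_, rfl⟩
    have hop : IsOpen {p : X | ¬ GA t ε' cc κ (DkX R (5 * (κ / 2))) K
        (fun k => Qc M' (ρ * S / 128) R0 (1 / ((k : ℝ) + 1)) B (NN k)) p.1} :=
      (hcl ε').isOpen_compl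
    change (R.law (δ i) : Measure X) {p : X | ¬ GA t ε' cc κ (DkX R (5 * (κ / 2))) K
        (fun k => Qc M' (ρ * S / 128) R0 (1 / ((k : ℝ) + 1)) B (NN k)) p.1} ≤ ε
    rw [R.law_apply (δ i) hop.measurableSet]
    refine le_trans (ENNReal.ofReal_le_ofReal ?_) hδε
    rw [← hd] at hi0 hi1 hi2 hi3 hi4 hi5 hδi ⊢
    -- the lattice scale
    obtain ⟨n, hn⟩ : ∃ n : ℕ, n = ⌈S / d⌉₊ := ⟨_, rfl⟩
    have hn1 : S / d ≤ n := by rw [hn]; exact Nat.le_ceil _
    have hn2 : (n : ℝ) < S / d + 1 := by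
      rw [hn]
      exact Nat.ceil_lt_add_one (by positivity)
    have hdn1 : S ≤ d * n := by
      rw [div_le_iff₀ hδi] at hn1
      linarith
    have hdn2 : d * n ≤ 2 * S := by
      have h1 : d * n ≤ d * (S / d + 1) := mul_le_mul_of_nonneg_left hn2.le hδi.le
      have h2 : d * (S / d + 1) = S + d := by field_simp
      linarith
    have hnn0 : n0 ≤ n := by
      have h1 : (n0 : ℝ) + 1 ≤ S / d := by
        rw [le_div_iff₀ hδi]
        rw [le_div_iff₀ (by positivity)] at hi5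
        linarith
      have h2 : (n0 : ℝ) ≤ n := by linarith
      exact_mod_cast h2
    have hnpos : 0 < n := by
      have h1 : (0:ℝ) < n := lt_of_lt_of_le (by positivity) hn1
      exact_mod_cast h1
    obtain ⟨a, r, ha3, ha1, har, hrκ, hpr⟩ := hn0 n hnn0
    have hpr := hpr (R.dm d).l 0
    have hshape := hsh d hδi hi0
    have hrl : (R.dm d).r ≤ (R.dm d).l + n := by
      have h1 := hshape.w_le.trans hn1
      have h2 : (R.dm d).r - (R.dm d).l ≤ (n : ℤ) := by exact_mod_cast h1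
      omega
    have hhn : (R.dm d).h ≤ (n : ℤ) := by
      have h1 := hshape.h_le.trans hn1
      exact_mod_cast h1
    refine le_trans ?_ ((badX_le har (by omega) hrl hhn).trans hpr)
    apply Pr_mono Y989.FR.LIM3.okh
    intro F hF hbad
    by_contra hcon
    apply hbad
    intro u v huv hD hdist
    have har' : (16 : ℝ) * a ≤ r := by exact_mod_cast har
    have hdr : d * r ≤ κ / 8 := by
      have h1 : d * r ≤ d * (κ / (16 * S) * n) := mul_le_mul_of_nonneg_left hrκ hδi.le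
      have h2 : d * (κ / (16 * S) * n) = κ / (16 * S) * (d * n) := by ring
      have h3 : κ / (16 * S) * (d * n) ≤ κ / (16 * S) * (2 * S) :=
        mul_le_mul_of_nonneg_left hdn2 (by positivity)
      have h4 : κ / (16 * S) * (2 * S) = κ / 8 := by field_simp; norm_num
      linarith
    obtain ⟨V, hV1, hV2, hV3⟩ := arc_VX (κ1 := κ / 2) R hδi hcon huv (by nlinarith) hD
      (by linarith)
    rw [hcc]
    refine good_of_VX hδi hS hnpos hdn1 ht hc0 hE0 (by linarith) hV1 hV2 ?_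
    intro w hw
    obtain ⟨hTk, hin, i', hi', hiw, s, hs, hsc⟩ := hV3 w hw
    have hk64 : 64 * (a / 64) ≤ a := Nat.mul_div_le a 64
    have hk128 : a ≤ 128 * (a / 64) := by omega
    have hk64' : 64 * ((a / 64 : ℕ) : ℝ) ≤ a := by exact_mod_cast hk64
    have hk128' : (a : ℝ) ≤ 128 * ((a / 64 : ℕ) : ℝ) := by exact_mod_cast hk128
    have hk0 : (0:ℝ) ≤ ((a / 64 : ℕ) : ℝ) := Nat.cast_nonneg _
    have hda : d * a ≤ κ / 128 := by
      have := mul_le_mul_of_nonneg_left har' hδi.le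
      nlinarith
    have hda0 : 0 ≤ d * (a:ℝ) := by positivity
    have hda1 : ρ * S ≤ d * a := by
      have h1 := mul_le_mul_of_nonneg_left ha1 hδi.le
      have h2 : ρ * S ≤ ρ * (d * n) := mul_le_mul_of_nonneg_left hdn1 hρ.le
      linarith
    -- position of `w`
    have hl : ((R.dm d).l : ℝ) = (⌊-(R.A / d)⌋ : ℤ) + 1 := by
      have : (R.dm d).l = ⌊-(R.A / d)⌋ + 1 := rfl
      rw [this]; push_cast; ring
    have hrr : ((R.dm d).r : ℝ) = (⌈R.B / d⌉ : ℤ) - 1 := by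
      have : (R.dm d).r = ⌈R.B / d⌉ - 1 := rfl
      rw [this]; push_cast; ring
    have hh : ((R.dm d).h : ℝ) = (⌈R.H / d⌉ : ℤ) - 2 := by
      have : (R.dm d).h = ⌈R.H / d⌉ - 2 := rfl
      rw [this]; push_cast; ring
    have fl : -(R.A / d) < ((⌊-(R.A / d)⌋ : ℤ) : ℝ) + 1 := Int.lt_floor_add_one _
    have cB : ((⌈R.B / d⌉ : ℤ) : ℝ) < R.B / d + 1 := Int.ceil_lt_add_one _
    have cH : ((⌈R.H / d⌉ : ℤ) : ℝ) < R.H / d + 1 := Int.ceil_lt_add_one _
    have eA : d * (R.A / d) = R.A := by field_simp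
    have eB : d * (R.B / d) = R.B := by field_simp
    have eH : d * (R.H / d) = R.H := by field_simp
    obtain ⟨⟨w1, w2⟩, w3, w4⟩ := hin
    have w1' : ((R.dm d).l : ℝ) ≤ w.1 := by
      have : (R.dm d).l ≤ w.1 := by omega
      exact_mod_cast this
    have w2' : (w.1 : ℝ) ≤ (R.dm d).r := by
      have : w.1 ≤ (R.dm d).r := by omega
      exact_mod_cast this
    have w3' : (0 : ℝ) ≤ w.2 := by
      have : 0 ≤ w.2 := by omega
      exact_mod_cast this
    have w4' : (w.2 : ℝ) ≤ (R.dm d).h := by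
      have : w.2 ≤ (R.dm d).h := by omega
      exact_mod_cast this
    have er : (zp d w).re = d * w.1 := rfl
    have ei : (zp d w).im = d * (w.2 + 1) := rfl
    have x1 : -R.A ≤ d * w.1 := by
      have : d * (-(R.A / d)) ≤ d * w.1 := mul_le_mul_of_nonneg_left (by linarith) hδi.le
      linarith
    have x2 : d * w.1 ≤ R.B := by
      have : d * w.1 ≤ d * (R.B / d) := mul_le_mul_of_nonneg_left (by linarith) hδi.le
      linarith
    have x3 : 0 ≤ d * ((w.2 : ℝ) + 1) := by positivity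
    have x4 : d * ((w.2 : ℝ) + 1) ≤ R.H := by
      have : d * ((w.2 : ℝ) + 1) ≤ d * (R.H / d) :=
        mul_le_mul_of_nonneg_left (by linarith) hδi.le
      linarith
    have hM'd : M' * d ≤ ε' := by
      rw [le_div_iff₀ hM'0] at hi4
      linarith
    refine ⟨?_, fun j hj => ⟨?_, s, hs, ?_⟩⟩
    · rw [hKdef, Complex.mem_reProdIm, Set.mem_Icc, Set.mem_Icc, er, ei]
      exact ⟨⟨x1, x2⟩, x3, x4⟩
    · refine Y989.FR.LIM3.mem_Qc hδi hB (by omega) ⟨i', hi', hiw⟩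
        (thick_X (by omega) hB rfl ha3 har ⟨⟨w1, w2⟩, w3, w4⟩ hTk) hM'0.le ?_ (by linarith)
        (by linarith) ?_ ?_ (hNN j)
      · rw [hM']
        refine mul_le_mul_of_nonneg_left ?_ (by positivity)
        refine pow_le_pow_left₀ (by positivity) ?_ _
        have := mul_le_mul_of_nonneg_left hk64' hδi.le
        nlinarith
      · have := mul_le_mul_of_nonneg_left hk128' hδi.le
        linarith
      · have e1 : ‖zp d w‖ ≤ |(zp d w).re| + |(zp d w).im| := Complex.norm_le_abs_re_add_abs_im _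
        rw [er, ei] at e1
        have e2 : |d * (w.1 : ℝ)| ≤ R.A + R.B := by
          rw [abs_le]; constructor <;> linarith
        have e3 : |d * ((w.2 : ℝ) + 1)| ≤ R.H := by
          rw [abs_le]; constructor <;> linarith
        have := mul_le_mul_of_nonneg_left hk64' hδi.le
        rw [hR0]
        nlinarith
    · rw [hsc]
      have h1 := dist_pos_zp hδi.le ((R.dm d).walk F i')
      rw [hiw] at h1
      linarith

end Pool.Agent.U151.LB
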