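import Pool.Agent.U151.LB.ArcV
import Pool.Agent.U151.LB.Vis
import Pool.Agent.Y989.FR.T_LIM3
import Pool.Agent.H973R2.Arm1
import Pool.Agent.W462.DPL.B

/-!
Subpaths of the exploration path of a rectangle: many visited vertices with thick paths.
-/

set_option autoImplicit false

namespace Pool.Agent.U151.LB

open H974 H12S Finset H389NS H984P H984N H342P
open Pool.Agent.Y989.FR (Tk)
open Pool.Agent.W822.PD (EnV)

theorem sd_mv (σ : St) : sd (mv σ).1 σ.1 ≤ 1 := by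
  obtain ⟨⟨x, y⟩, q⟩ := σ
  cases q <;> unfold sd <;> simp

theorem sd_step (F : Set Edg) (σ : St) : sd (nxt F σ).1 σ.1 ≤ 1 := by
  by_cases h : ae σ ∈ F
  · rw [nxt_open h]
    exact sd_mv σ
  · rw [nxt_closed h]
    obtain ⟨⟨x, y⟩, q⟩ := σ
    cases q <;> unfold sd <;> simp

theorem sd_of_not_far {u w : Vtx} {R : ℕ} (h : ¬ Far u R w) : sd w u + 1 ≤ R := by
  unfold Far at h
  push Not at h
  unfold sd
  rcases max_choice |w.1 - u.1| |w.2 - u.2| with h1 | h1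
  · rw [h1]
    rcases abs_cases (w.1 - u.1) with ⟨h2, -⟩ | ⟨h2, -⟩ <;> omega
  · rw [h1]
    rcases abs_cases (w.2 - u.2) with ⟨h2, -⟩ | ⟨h2, -⟩ <;> omega

theorem near_orb {F : Set Edg} {σ : St} {R τ : ℕ} (h : ∀ s < τ, ¬ Far σ.1 R (orb F σ s).1)
    {s : ℕ} (hs : s ≤ τ) : sd (orb F σ s).1 σ.1 ≤ R := by
  rcases Nat.eq_zero_or_pos s with rfl | h0
  · rw [orb_zero]
    unfold sd
    simp
  · obtain ⟨s', rfl⟩ : ∃ s', s = s' + 1 := ⟨s - 1, by omega⟩
    have h1 := sd_of_not_far (h s' (by omega))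
    have h2 := sd_step F (orb F σ s')
    rw [← orb_succ] at h2
    have h3 := sd_tri (orb F σ (s' + 1)).1 (orb F σ s').1 σ.1
    omega

theorem exm_near {F : Set Edg} {σ : St} {R τ : ℕ} (h : ∀ s < τ, ¬ Far σ.1 R (orb F σ s).1)
    {e : Edg} (he : e ∈ Exm F σ τ) : e ∈ blk σ.1 (R + 1) := by
  obtain ⟨s, hs, rfl⟩ := mem_Exm.1 he
  have h1 := near_orb h hs.le
  have h2 := sd_mv (orb F σ s)
  have h3 := sd_tri (mv (orb F σ s)).1 (orb F σ s).1 σ.1
  rw [mem_blk]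
  push_cast
  rcases ends_mv (σ := orb F σ s) with ⟨h4, h5⟩ | ⟨h4, h5⟩
  · rw [h4, h5]; constructor <;> omega
  · rw [h4, h5]; constructor <;> omega

theorem RFrN_congr {t c E : ℝ} {M B n a R : ℕ} {σ : St} {τ : ℕ} {F G : Set Edg}
    (haR : 16 * a ≤ R) (hR : 1 ≤ R) (hfar : ∀ s < τ, ¬ Far σ.1 R (orb F σ s).1)
    (hFG : ∀ e ∈ blk σ.1 (2 * R), (e ∈ F ↔ e ∈ G)) (h : RFrN t c E M B n a σ τ F) :
    RFrN t c E M B n a σ τ G := by
  obtain ⟨V, h1, h2, h3⟩ := h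
  refine ⟨V, h1, h2, fun v hv => ?_⟩
  obtain ⟨⟨s, hs, hsv⟩, hT⟩ := h3 v hv
  have hex : ∀ e ∈ Exm F σ τ, (e ∈ F ↔ e ∈ G) := by
    intro e he
    apply hFG
    have h4 := exm_near hfar he
    rw [mem_blk] at h4 ⊢
    push_cast at h4 ⊢
    constructor <;> omega
  refine ⟨⟨s, hs, ?_⟩, ?_⟩
  · rw [orb_congr hex hs]
    exact hsv
  · refine Tk_congr (fun e he => hFG e ?_) hT
    have h4 := near_orb hfar hs
    rw [hsv] at h4
    rw [mem_blk] at he ⊢
    obtain ⟨e1, e2⟩ := he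
    have t1 := sd_tri (src e) v σ.1
    have t2 := sd_tri (tgt e) v σ.1
    have h6 : 8 * (a / 64) ≤ a := by omega
    push_cast at e1 e2 ⊢
    constructor <;> omega

/-- Some piece of size `R` of an orbit in the bulk of the domain has few vertices with thick
paths. -/
def BadX (t c E : ℝ) (M B n a R : ℕ) (D : Dm) (F : Finset Edg) : Prop :=
  ∃ (σ : St) (τ : ℕ), inR (D.l + 4 * R) (D.r - 4 * R) (4 * R) (D.h - 4 * R) σ.1 ∧
    (∀ s < τ, ¬ Far σ.1 R (orb (D.cfg F) σ s).1) ∧ Far σ.1 R (orb (D.cfg F) σ τ).1 ∧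
    ¬ RFrN t c E M B n a σ τ (D.cfg F)

theorem blk_bulk {D : Dm} {R : ℕ} (hR : 1 ≤ R) {v : Vtx}
    (hv : inR (D.l + 4 * R) (D.r - 4 * R) (4 * R) (D.h - 4 * R) v) {e : Edg}
    (he : e ∈ blk v (2 * R)) : e ∈ D.edges ∧ e ∉ D.wir := by
  unfold inR at hv
  obtain ⟨x, y, _ | _⟩ := e
  · unfold blk at he
    rw [mem_RE_false] at he
    push_cast at he
    refine ⟨?_, ?_⟩
    · unfold Dm.edges
      rw [mem_RE_false]
      omega
    · unfold Dm.wir
      simp only [Set.mem_ofPred_eq, Bool.false_eq_true, false_and, true_and, false_or, or_false,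
        not_and]
      omega
  · unfold blk at he
    rw [mem_RE_true] at he
    push_cast at he
    refine ⟨?_, ?_⟩
    · unfold Dm.edges
      rw [mem_RE_true]
      omega
    · unfold Dm.wir
      simp only [Set.mem_ofPred_eq, Bool.true_eq_false, false_and, true_and, false_or]
      omega

theorem badX_le {t c E : ℝ} {M B n a R : ℕ} {D : Dm} (haR : 16 * a ≤ R) (hR : 1 ≤ R)
    (hr : D.r ≤ D.l + n) (hh : D.h ≤ n) :
    Pr (fun _ => (1/2:ℝ)) D.edges (BadX t c E M B n a R D) ≤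
      Pr (fun _ => (1/2:ℝ)) (RE D.l (D.l + n) 0 (0 + n)) (BadN t c E M B n a R D.l 0) := by
  have hok : Ok (fun _ : Edg => (1/2:ℝ)) := fun _ => ⟨by norm_num, by norm_num⟩
  have hsub : D.edges ⊆ RE D.l (D.l + n) 0 (0 + n) := by
    intro e he
    unfold Dm.edges at he
    obtain ⟨x, y, _ | _⟩ := e
    · rw [mem_RE_false] at he ⊢
      omega
    · rw [mem_RE_true] at he ⊢
      omega
  rw [← H973.Pr_restrict hsub]
  refine Pr_mono hok ?_
  rintro F hF ⟨σ, τ, h1, h2, h3, h4⟩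
  have hFG : ∀ e ∈ blk σ.1 (2 * R), (e ∈ D.cfg (F ∩ D.edges) ↔ e ∈ (↑F : Set Edg)) := by
    intro e he
    obtain ⟨g1, g2⟩ := blk_bulk hR h1 he
    unfold Dm.cfg
    rw [Set.mem_union, Finset.mem_coe, Finset.mem_coe, Finset.mem_inter]
    constructor
    · rintro (h | h)
      · exact h.1
      · exact absurd h g2
    · intro h
      exact Or.inl ⟨h, g1⟩
  have hex : ∀ e ∈ Exm (D.cfg (F ∩ D.edges)) σ τ,
      (e ∈ D.cfg (F ∩ D.edges) ↔ e ∈ (↑F : Set Edg)) := by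
    intro e he
    apply hFG
    have h5 := exm_near h2 he
    rw [mem_blk] at h5 ⊢
    push_cast at h5 ⊢
    constructor <;> omega
  have horb : ∀ s ≤ τ, orb (↑F : Set Edg) σ s = orb (D.cfg (F ∩ D.edges)) σ s := fun s hs =>
    orb_congr hex hs
  refine ⟨σ, τ, ?_, fun s hs => ?_, ?_, fun hcon => h4 ?_⟩
  · unfold inR at h1 ⊢
    omega
  · rw [horb s hs.le]
    exact h2 s hs
  · rw [horb τ le_rfl]
    exact h3
  · refine RFrN_congr haR hR (fun s hs => ?_) (fun e he => (hFG e he).symm) hcon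
    rw [horb s hs.le]
    exact h2 s hs

end Pool.Agent.U151.LB
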