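import Pool.Agent.U151.LB.Sym
import Pool.Agent.W822.PD.LL
import Pool.Agent.W469.PD.Cur
import Pool.Agent.W978.PD.UL
import Pool.Agent.Y989.FR.T_LIM3
import Pool.Agent.Y989.FR.T_DET3

/-!
The tracing path and the thick paths (after `Pool.Agent.Y989.FR.LIM3`).
-/

set_option autoImplicit false

namespace Pool.Agent.U151.LB

open H974 H12S Finset H389NS H984P H984N H342P H342L H342T
open MeasureTheory Filter Topology Pool.Agent.H389R2.Dim
open Pool.Agent.W822.PD (EnV pt_dist pt_inj Sqc)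
open Pool.Agent.W469.PD.Cur (poly_at time)
open Pool.Agent.Y989.FR (Tk AE Awy Qc)
open Pool.Agent.W978.PDUL (poly_close pt_step')

/-- `x` keeps away from the cluster of `v`. -/
def AwC (F : Set Edg) (v : Vtx) (M B k : ℕ) (w x : Vtx) : Prop :=
  ∀ c, Reach F v c → sd x w ^ B ≤ (M : ℤ) * ((8 * k : ℕ) : ℤ) ^ (B - 1) * sd x c

theorem sd_comm (a b : Vtx) : sd a b = sd b a := by
  unfold sd
  rw [abs_sub_comm, abs_sub_comm a.2]

theorem sd_tri (a b c : Vtx) : sd a c ≤ sd a b + sd b c := by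
  unfold sd
  apply max_le
  · calc |a.1 - c.1| = |(a.1 - b.1) + (b.1 - c.1)| := by ring_nf
      _ ≤ |a.1 - b.1| + |b.1 - c.1| := abs_add_le _ _
      _ ≤ _ := add_le_add (le_max_left _ _) (le_max_left _ _)
  · calc |a.2 - c.2| = |(a.2 - b.2) + (b.2 - c.2)| := by ring_nf
      _ ≤ |a.2 - b.2| + |b.2 - c.2| := abs_add_le _ _
      _ ≤ _ := add_le_add (le_max_right _ _) (le_max_right _ _)

theorem sd_nn (a b : Vtx) : 0 ≤ sd a b := le_trans (abs_nonneg _) (le_max_left _ _)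

/-- Vertices of the cluster near `w` belong to `BB`. -/
theorem clu_BB {F : Set Edg} {v w c u : Vtx} {a k : ℕ} (hk : k = a / 64) (ha : 192 ≤ a)
    (hc : Reach F v c) (hu : Reach F v u) (hfar : Far w a u)
    (hcw : sd c w ≤ ((8 * k : ℕ) : ℤ)) : c ∈ Y989.FR.BB k w F := by
  obtain ⟨n, hn⟩ : ∃ n : ℕ, n = 8 * k := ⟨_, rfl⟩
  rw [← hn] at hcw
  have hna : (n : ℤ) ≤ a := by omega
  unfold sd at hcw
  rw [max_le_iff, abs_le, abs_le] at hcw
  unfold Far at hfar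
  obtain ⟨w', h1, h2, h3⟩ := first_exit (a := w.1 - n) (b := w.1 + n) (c := w.2 - n)
    (d := w.2 + n) (u := c) (by unfold inR; omega) (hc.symm.trans hu) (by omega)
  refine ⟨w', ?_, ?_⟩
  · rw [← hn]
    unfold inR at h1
    unfold bdB
    simp only [Set.mem_ofPred_eq]
    refine ⟨abs_le.mpr (by omega), abs_le.mpr (by omega), ?_⟩
    rcases h2 with h2 | h2 | h2 | h2
    · left; rw [h2, abs_eq (by positivity)]; omega
    · left; rw [h2, abs_eq (by positivity)]; omega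
    · right; rw [h2, abs_eq (by positivity)]; omega
    · right; rw [h2, abs_eq (by positivity)]; omega
  · rw [← hn]
    exact h3

/-- far points -/
theorem away_far {M B k : ℕ} (hM : 1 ≤ M) (hB : 1 ≤ B) {w c x : Vtx}
    (hx : sd x w ≤ k) (h : ((8 * k : ℕ) : ℤ) < sd c w) :
    sd x w ^ B ≤ (M : ℤ) * ((8 * k : ℕ) : ℤ) ^ (B - 1) * sd x c := by
  have hx0 := sd_nn x w
  have h1 : sd c w ≤ sd c x + sd x w := sd_tri c x w
  have h7 : (k : ℤ) ≤ sd x c := by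
    rw [sd_comm c x] at h1
    push_cast at h
    linarith
  obtain ⟨B', rfl⟩ : ∃ B', B = B' + 1 := ⟨B - 1, by omega⟩
  rw [Nat.add_sub_cancel, pow_succ]
  have e1 : sd x w ^ B' ≤ ((8 * k : ℕ) : ℤ) ^ B' := by
    apply pow_le_pow_left₀ hx0
    push_cast
    linarith
  have e2 : sd x w ≤ sd x c := hx.trans h7
  have e3 : (0 : ℤ) ≤ ((8 * k : ℕ) : ℤ) ^ B' := by positivity
  have hM' : (1 : ℤ) ≤ M := by exact_mod_cast hM
  have hxc : 0 ≤ sd x c := by linarith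
  calc sd x w ^ B' * sd x w ≤ ((8 * k : ℕ) : ℤ) ^ B' * sd x c :=
        mul_le_mul e1 e2 hx0 e3
    _ = 1 * (((8 * k : ℕ) : ℤ) ^ B' * sd x c) := (one_mul _).symm
    _ ≤ M * (((8 * k : ℕ) : ℤ) ^ B' * sd x c) :=
        mul_le_mul_of_nonneg_right hM' (mul_nonneg e3 hxc)
    _ = _ := by ring

theorem awc {F : Set Edg} {v w u : Vtx} {M B a k : ℕ} (hM : 1 ≤ M) (hB : 1 ≤ B) (hk : k = a / 64)
    (ha : 192 ≤ a) (hu : Reach F v u) (hfar : Far w a u) {x : Vtx} (hx : sd x w ≤ k)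
    (hA : ∀ c ∈ Y989.FR.BB k w F, Awy M B k w c x) : AwC F v M B k w x := by
  intro c hc
  rcases le_or_gt (sd c w) ((8 * k : ℕ) : ℤ) with h | h
  · exact (hA c (clu_BB hk ha hc hu hfar h)).le
  · exact away_far hM hB hx h

/-- distances -/
theorem pt_le {n : ℕ} (hn : 0 < n) (v w : Vtx) :
    dist (pt n v) (pt n w) ≤ 2 * ((n : ℝ)⁻¹ * ((sd v w : ℤ) : ℝ)) := by
  have hn' : (0:ℝ) < n := by exact_mod_cast hn
  have h1 : |(pt n v).re - (pt n w).re| ≤ (n : ℝ)⁻¹ * ((sd v w : ℤ) : ℝ) := by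
    have e : (pt n v).re - (pt n w).re = (n : ℝ)⁻¹ * ((v.1 - w.1 : ℤ) : ℝ) := by
      simp only [pt]; push_cast; ring
    rw [e, abs_mul, abs_of_pos (by positivity)]
    refine mul_le_mul_of_nonneg_left ?_ (by positivity)
    rw [← Int.cast_abs]
    exact_mod_cast le_max_left _ _
  have h2 : |(pt n v).im - (pt n w).im| ≤ (n : ℝ)⁻¹ * ((sd v w : ℤ) : ℝ) := by
    have e : (pt n v).im - (pt n w).im = (n : ℝ)⁻¹ * ((v.2 - w.2 : ℤ) : ℝ) := by
      simp only [pt]; push_cast; ring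
    rw [e, abs_mul, abs_of_pos (by positivity)]
    refine mul_le_mul_of_nonneg_left ?_ (by positivity)
    rw [← Int.cast_abs]
    exact_mod_cast le_max_right _ _
  refine (ML.dist_le_of h1 h2).trans ?_
  linarith

theorem sd_adj (e : Edg) : sd (src e) (tgt e) = 1 := by
  obtain ⟨x, y, _ | _⟩ := e
  · unfold sd
    simp
  · unfold sd
    simp

theorem pt_adj {n : ℕ} (hn : 0 < n) (e : Edg) :
    dist (pt n (src e)) (pt n (tgt e)) ≤ 2 * (n : ℝ)⁻¹ := by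
  have h := pt_le hn (src e) (tgt e)
  rw [sd_adj] at h
  simpa using h

/-- The points of the thick path. -/
def SPC (n : ℕ) (F : Set Edg) (v : Vtx) (M B k : ℕ) (w : Vtx) : Set ℂ :=
  {z | ∃ x, sd x w ≤ k ∧ AwC F v M B k w x ∧ z = pt n x}

theorem chainC {n : ℕ} (hn : 0 < n) {e : ℝ} (he : 2 * (n : ℝ)⁻¹ ≤ e) {F : Set Edg} {v : Vtx}
    {M B k : ℕ} {w x y : Vtx} (h : Reach {e | e ∈ AE w 2 k ∧ AwC F v M B k w (src e) ∧
        AwC F v M B k w (tgt e)} x y) :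
    Relation.ReflTransGen (fun a b => b ∈ SPC n F v M B k w ∧ dist a b ≤ e) (pt n x) (pt n y) := by
  induction h with
  | refl => exact Relation.ReflTransGen.refl
  | tail _ hs ih =>
    obtain ⟨g, ⟨h1, h2, h3⟩, h4⟩ := hs
    have h5 := Y989.FR.LIM3.mem_AE_sd h1
    rcases h4 with ⟨h6, h7⟩ | ⟨h6, h7⟩
    · refine ih.tail ⟨⟨tgt g, h5.2, h3, by rw [h7]⟩, ?_⟩
      rw [← h6, ← h7]
      exact (pt_adj hn g).trans he
    · refine ih.tail ⟨⟨src g, h5.1, h2, by rw [h6]⟩, ?_⟩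
      rw [← h6, ← h7, dist_comm]
      exact (pt_adj hn g).trans he

theorem startC {n : ℕ} {F : Set Edg} {v : Vtx} {M B k : ℕ} {w x y : Vtx}
    (h : Reach {e | e ∈ AE w 2 k ∧ AwC F v M B k w (src e) ∧
        AwC F v M B k w (tgt e)} x y) (hxy : x ≠ y) :
    pt n x ∈ SPC n F v M B k w := by
  rcases Relation.ReflTransGen.cases_head h with h | ⟨c, ⟨g, ⟨h1, h2, h3⟩, h4⟩, -⟩
  · exact absurd h hxy
  · have h5 := Y989.FR.LIM3.mem_AE_sd h1
    rcases h4 with ⟨h6, h7⟩ | ⟨h6, h7⟩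
    · exact ⟨src g, h5.1, h2, by rw [h6]⟩
    · exact ⟨tgt g, h5.2, h3, by rw [h7]⟩

/-- The path stays near the cluster. -/
theorem near_clu {n : ℕ} (hn : 0 < n) {F : Finset Edg} {v : Vtx} {c : Curve}
    (hT : IsTrace n F v c) (s : unitInterval) :
    ∃ u, Reach (↑F : Set Edg) v u ∧ dist (c.path s) (pt n u) ≤ (n : ℝ)⁻¹ := by
  obtain ⟨σ, N, hN, hσ, _, hper, _, hpath⟩ := hT
  have hst' : ∀ k < N, dist (pt n (orb (↑F) σ k).1) (pt n (orb (↑F) σ (k + 1)).1) ≤ 1 / (n : ℝ) :=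
    fun k _ => pt_step' hn _ σ k
  obtain ⟨i, hiN, -, hi⟩ := poly_close hN hst' s
  rw [← hpath, one_div] at hi
  exact ⟨_, ((Plain.mem_cluster F v σ.1).1 hσ).trans (pb_reach _ _ _), hi⟩

/-- The path visits the vertices of the outer boundary. -/
theorem visC {n : ℕ} {F : Finset Edg} {v w : Vtx} {c : Curve}
    (hT : IsTrace n F v c) (hw : Reach (↑F : Set Edg) v w)
    (ho : ∃ q : Q4, Outer (↑F) v (face (w, q))) : ∃ s, c.path s = pt n w := by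
  obtain ⟨σ, N, hN, hσ, ho', hper, _, hpath⟩ := hT
  obtain ⟨q, hq⟩ := ho
  obtain ⟨s1, hs1⟩ := t_ORB F v σ (w, q) hσ ((Plain.mem_cluster F v w).2 hw) ho' (by
      rw [Plain.outer_iff]; exact hq)
  rw [← RNG_mod hper] at hs1
  have m1 : s1 % N < N := Nat.mod_lt _ hN
  obtain ⟨x, hx⟩ := time (j := s1 % N) hN m1.le
  refine ⟨x, ?_⟩
  rw [hpath, poly_at _ hN m1.le hx, hs1]

theorem awayC {n : ℕ} (hn : 0 < n) {F : Finset Edg} {v : Vtx} {c : Curve}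
    (hT : IsTrace n F v c) {M B k : ℕ} (hB : 1 ≤ B)
    {w x : Vtx} (hx : AwC (↑F) v M B k w x) {M' : ℝ} (hM' : 0 ≤ M')
    (h : 2 ^ B * M * ((n : ℝ)⁻¹ * (8 * k)) ^ (B - 1) ≤ M') (s : unitInterval) :
    dist (pt n x) (pt n w) ^ B ≤ M' * dist (pt n x) (c.path s) + M' * (n : ℝ)⁻¹ := by
  have hn' : (0:ℝ) < n := by exact_mod_cast hn
  obtain ⟨δ, hδ⟩ : ∃ δ : ℝ, δ = (n : ℝ)⁻¹ := ⟨_, rfl⟩
  have hδ0 : 0 < δ := by rw [hδ]; positivity
  obtain ⟨u, hu, hd⟩ := near_clu hn hT s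
  have h1 := hx u hu
  have h1' : (((sd x w : ℤ) : ℝ)) ^ B ≤ (M : ℝ) * ((8 * k : ℕ) : ℝ) ^ (B - 1) *
      ((sd x u : ℤ) : ℝ) := by exact_mod_cast h1
  have h0 : (0:ℝ) ≤ ((sd x w : ℤ) : ℝ) := by exact_mod_cast sd_nn x w
  rw [← hδ] at h hd ⊢
  have h2 : dist (pt n x) (pt n w) ^ B ≤ (2 * (δ * ((sd x w : ℤ) : ℝ))) ^ B := by
    rw [hδ]
    exact pow_le_pow_left₀ dist_nonneg (pt_le hn _ _) B
  have h3 : δ * ((sd x u : ℤ) : ℝ) ≤ dist (pt n x) (c.path s) + δ := by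
    have e1 := pt_dist hn x u
    have e3 := dist_triangle (pt n x) (c.path s) (pt n u)
    rw [← hδ] at e1
    linarith
  obtain ⟨b, rfl⟩ : ∃ b, B = b + 1 := ⟨B - 1, by omega⟩
  simp only [Nat.add_sub_cancel] at h h1'
  have h4 : (2 * (δ * ((sd x w : ℤ) : ℝ))) ^ (b + 1) =
      2 ^ (b + 1) * δ ^ (b + 1) * ((sd x w : ℤ) : ℝ) ^ (b + 1) := by
    rw [mul_pow, mul_pow]; ring
  have h5 : 2 ^ (b + 1) * δ ^ (b + 1) * ((sd x w : ℤ) : ℝ) ^ (b + 1) ≤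
      2 ^ (b + 1) * δ ^ (b + 1) * ((M : ℝ) * ((8 * k : ℕ) : ℝ) ^ b *
      ((sd x u : ℤ) : ℝ)) := by
    refine mul_le_mul_of_nonneg_left h1' (by positivity)
  have h6 : 2 ^ (b + 1) * δ ^ (b + 1) * ((M : ℝ) * ((8 * k : ℕ) : ℝ) ^ b *
      ((sd x u : ℤ) : ℝ)) = (2 ^ (b + 1) * M * (δ * (8 * k)) ^ b) *
        (δ * ((sd x u : ℤ) : ℝ)) := by
    rw [mul_pow δ]; push_cast; ring
  have h7 : 0 ≤ δ * ((sd x u : ℤ) : ℝ) := by
    have : (0:ℝ) ≤ ((sd x u : ℤ) : ℝ) := by exact_mod_cast sd_nn x u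
    positivity
  calc dist (pt n x) (pt n w) ^ (b + 1) ≤ _ := h2
    _ = _ := h4
    _ ≤ _ := h5
    _ = _ := h6
    _ ≤ M' * (δ * ((sd x u : ℤ) : ℝ)) := mul_le_mul_of_nonneg_right h h7
    _ ≤ M' * (dist (pt n x) (c.path s) + δ) := mul_le_mul_of_nonneg_left h3 hM'
    _ = _ := by ring

/-- Vertices with a thick path give points of the approximate set. -/
theorem mem_QcC {n : ℕ} (hn : 0 < n) {F : Finset Edg} {v w : Vtx} {c : Curve}
    (hT : IsTrace n F v c) {M B a k : ℕ} (hM : 1 ≤ M) (hB : 1 ≤ B) (ha : 192 ≤ a)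
    (hk : k = a / 64) (hw : FrO M B a v (↑F) w) {e M' κ R0 : ℝ} (hM' : 0 ≤ M')
    (h : 2 ^ B * M * ((n : ℝ)⁻¹ * (8 * k)) ^ (B - 1) ≤ M') (he : 4 * (n : ℝ)⁻¹ ≤ e)
    (he' : M' * (n : ℝ)⁻¹ ≤ e)
    (hκ : κ ≤ (n : ℝ)⁻¹ * k) (hR : ‖pt n w‖ + 2 * ((n : ℝ)⁻¹ * k) ≤ R0) {N : ℕ}
    (hN : ∀ (S : Set ℂ) (a b : ℂ), (∀ x ∈ S, ‖x‖ ≤ R0) →
      a ∈ S → Relation.ReflTransGen (fun x y => y ∈ S ∧ dist x y ≤ e) a b →
      ∃ x : Fin (N + 1) → ℂ, (∀ i, x i ∈ S) ∧ x 0 = a ∧ x (Fin.last N) = b ∧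
      ∀ i : Fin N, dist (x i.castSucc) (x i.succ) ≤ e) :
    (c.path, pt n w) ∈ Qc M' κ R0 e B N := by
  have hn' : (0:ℝ) < n := by exact_mod_cast hn
  have hni : 0 < (n : ℝ)⁻¹ := by positivity
  obtain ⟨hvw, ho, ⟨u, hu, hfar⟩, x, hx, y, hy, hr0⟩ := hw
  rw [← hk] at hy hr0
  have hx' := (mem_bdB _ _ _).1 hx
  have hy' := (mem_bdB _ _ _).1 hy
  have hk3 : 3 ≤ k := by omega
  have hxy : x ≠ y := by
    rintro rfl
    rw [hx'] at hy'
    have : (2:ℕ) = k := by exact_mod_cast hy'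
    omega
  have hr : Reach {e | e ∈ AE w 2 k ∧ AwC (↑F) v M B k w (src e) ∧
      AwC (↑F) v M B k w (tgt e)} x y := by
    refine hr0.mono ?_
    rintro g ⟨h1, h2, h3⟩
    have h5 := Y989.FR.LIM3.mem_AE_sd h1
    exact ⟨h1, awc hM hB hk ha hu hfar h5.1 h2, awc hM hB hk ha hu hfar h5.2 h3⟩
  have hbd : ∀ z ∈ SPC n (↑F) v M B k w, ‖z‖ ≤ R0 := by
    rintro z ⟨p, hp, -, rfl⟩
    have h1 := pt_le hn p w
    have h2 : (n : ℝ)⁻¹ * ((sd p w : ℤ) : ℝ) ≤ (n : ℝ)⁻¹ * k :=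
      mul_le_mul_of_nonneg_left (by exact_mod_cast hp) hni.le
    have h3 : ‖pt n p‖ ≤ ‖pt n w‖ + dist (pt n p) (pt n w) := by
      rw [dist_eq_norm]
      have := norm_add_le (pt n w) (pt n p - pt n w)
      rwa [add_sub_cancel] at this
    linarith
  obtain ⟨X, h1, h2, h3, h4⟩ := hN (SPC n (↑F) v M B k w) (pt n x) (pt n y) hbd
    (startC hr hxy) (chainC hn (by linarith) hr)
  refine ⟨?_, ?_, X, fun i => hbd _ (h1 i), ?_, ?_, h4, ?_⟩
  · have : 0 ≤ 2 * ((n : ℝ)⁻¹ * k) := by positivity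
    show ‖pt n w‖ ≤ R0
    linarith
  · obtain ⟨s, hs⟩ := visC hT hvw ho
    refine ⟨s, ?_⟩
    show dist (c.path s) (pt n w) ≤ e
    rw [hs, dist_self]
    linarith
  · show dist (X 0) (pt n w) ≤ e
    rw [h2]
    have := pt_le hn x w
    rw [hx'] at this
    push_cast at this
    linarith
  · show κ ≤ dist (X (Fin.last N)) (pt n w) + e
    rw [h3]
    have := pt_dist hn y w
    rw [hy'] at this
    push_cast at this
    linarith
  · intro i s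
    show dist (X i) (pt n w) ^ B ≤ M' * dist (X i) (c.path s) + e
    obtain ⟨p, -, hp, hz⟩ := h1 i
    rw [hz]
    have := awayC hn hT hB hp hM' h s
    linarith

/-- Many points with small energy make a set good. -/
theorem good_of_V {n : ℕ} (hn : 0 < n) {V : Finset Vtx} {t c0 E0 ε' : ℝ} {T : Set ℂ}
    (ht : 0 < t) (hc0 : 0 < c0) (hE0 : 0 < E0) (hε' : 1 / (n : ℝ) ≤ ε')
    (hcard : c0 * (n : ℝ) ^ (4/3 : ℝ) ≤ (V.card : ℝ))
    (hEn : EnV t V ≤ E0 * (n : ℝ) ^ (8/3 - t)) (hV : ∀ w ∈ V, pt n w ∈ T) :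
    Good t ε' (2 ^ (-t) / (E0 / c0 ^ 2)) T := by
  classical
  have hn' : (0:ℝ) < n := by exact_mod_cast hn
  have hcpos : (0 : ℝ) < (V.card : ℝ) := lt_of_lt_of_le (by positivity) hcard
  have hne : V.Nonempty := by
    rw [← Finset.card_pos]; exact_mod_cast hcpos
  have hε0 : 0 < ε' := lt_of_lt_of_le (by positivity) hε'
  refine good_of_energy hε0 ht.le (by positivity) (V.image (pt n)) (hne.image _) ?_ ?_
  · intro z hz
    rw [Finset.mem_coe, Finset.mem_image] at hz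
    obtain ⟨w, hw, rfl⟩ := hz
    exact hV w hw
  · rw [Finset.sum_image (fun a _ b _ hab => pt_inj hn hab),
      Finset.card_image_of_injective _ (pt_inj hn)]
    have e1 : ∀ v ∈ V, ∑ y ∈ V.image (pt n), (max (dist (pt n v) y) ε') ^ (-t) ≤
        ∑ w ∈ V, ((n:ℝ)⁻¹) ^ (-t) * ((max (sd v w) 1 : ℤ) : ℝ) ^ (-t) := by
      intro v _
      rw [Finset.sum_image (fun a _ b _ hab => pt_inj hn hab)]
      refine Finset.sum_le_sum fun w _ => ?_
      have hm : (1 : ℝ) ≤ ((max (sd v w) 1 : ℤ) : ℝ) := by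
        exact_mod_cast le_max_right (sd v w) 1
      rw [← Real.mul_rpow (by positivity) (by linarith)]
      refine Real.rpow_le_rpow_of_nonpos (by positivity) ?_ (by linarith)
      have h6 := pt_dist hn v w
      rcases max_cases (sd v w) 1 with h | h
      · rw [h.1]; exact h6.trans (le_max_left _ _)
      · rw [h.1]; push_cast; rw [mul_one]
        refine le_trans ?_ (le_max_right _ _)
        rwa [one_div] at hε'
    refine (Finset.sum_le_sum e1).trans ?_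
    have e2 : ∑ v ∈ V, ∑ w ∈ V, ((n:ℝ)⁻¹) ^ (-t) * ((max (sd v w) 1 : ℤ) : ℝ) ^ (-t)
        = ((n:ℝ)⁻¹) ^ (-t) * EnV t V := by
      unfold EnV
      rw [Finset.mul_sum]
      refine Finset.sum_congr rfl fun v _ => ?_
      rw [Finset.mul_sum]
    rw [e2]
    have e3 : (c0 * (n : ℝ) ^ (4/3 : ℝ)) ^ 2 ≤ (V.card : ℝ) ^ 2 :=
      pow_le_pow_left₀ (by positivity) hcard 2
    have e4 : (c0 * (n : ℝ) ^ (4/3 : ℝ)) ^ 2 = c0 ^ 2 * (n : ℝ) ^ (8/3 : ℝ) := by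
      rw [mul_pow, ← Real.rpow_natCast ((n : ℝ) ^ (4/3 : ℝ)) 2, ← Real.rpow_mul hn'.le]
      norm_num
    rw [e4] at e3
    have e5 : ((n:ℝ)⁻¹) ^ (-t) = (n:ℝ) ^ t := by
      rw [Real.inv_rpow hn'.le, Real.rpow_neg hn'.le, inv_inv]
    rw [e5]
    calc (n:ℝ) ^ t * EnV t V ≤ (n:ℝ) ^ t * (E0 * (n : ℝ) ^ (8/3 - t)) :=
          mul_le_mul_of_nonneg_left hEn (by positivity)
      _ = E0 / c0 ^ 2 * (c0 ^ 2 * (n : ℝ) ^ (8/3 : ℝ)) := by
          have : (n:ℝ) ^ t * (n : ℝ) ^ (8/3 - t) = (n : ℝ) ^ (8/3 : ℝ) := by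
            rw [← Real.rpow_add hn']
            congr 1
            ring
          rw [← this]
          field_simp
      _ ≤ E0 / c0 ^ 2 * (V.card : ℝ) ^ 2 := mul_le_mul_of_nonneg_left e3 (by positivity)

end Pool.Agent.U151.LB
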