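import Pool.Agent.U151.LB.ParV
import Pool.Agent.U151.LB.Cur
import Pool.Agent.U151.LB.Big

/-!
Arcs of the tracing path: many visited vertices with thick paths.
-/

set_option autoImplicit false

namespace Pool.Agent.U151.LB

open H974 H12S Finset H389NS H984P H984N H342P H342L H342T
open MeasureTheory Filter Topology Pool.Agent.H389R2.Dim
open Pool.Agent.W822.PD (EnV pt_dist pt_inj Sqc)
open Pool.Agent.W469.PD.Cur (poly_at time)
open Pool.Agent.W978.PDUL (poly_close pt_step')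

/-- The open square without a neighbourhood of the boundary. -/
def Dk (η : ℝ) : Set ℂ := {z | (η < z.re ∧ z.re < 1 - η) ∧ (η < z.im ∧ z.im < 1 - η)}

theorem isOpen_Dk (η : ℝ) : IsOpen (Dk η) := by
  refine IsOpen.inter (IsOpen.inter ?_ ?_) (IsOpen.inter ?_ ?_)
  · exact isOpen_lt continuous_const Complex.continuous_re
  · exact isOpen_lt Complex.continuous_re continuous_const
  · exact isOpen_lt continuous_const Complex.continuous_im
  · exact isOpen_lt Complex.continuous_im continuous_const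

theorem far_of_sd {u w : Vtx} {R : ℕ} (h : (R : ℤ) ≤ sd u w) : Far u R w := by
  unfold sd at h
  unfold Far
  rw [le_max_iff, le_abs, le_abs] at h
  omega

theorem arc_V {t c E : ℝ} {M B n a R : ℕ} (hn : 0 < n) {F : Finset Edg} {v : Vtx} {γ : Curve}
    (hT : IsTrace n F v γ) (haR : 16 * a ≤ R)
    (hbad : ¬ BadN t c E M B n a R 0 0 F) {x y : unitInterval} (hxy : x ≤ y) {κ1 : ℝ}
    (hR : (R : ℝ) + 4 ≤ κ1 * n) (hD : γ.path x ∈ Dk (5 * κ1))
    (hd : 2 * κ1 < dist (γ.path x) (γ.path y)) :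
    ∃ V : Finset Vtx, c * (n : ℝ) ^ (4/3 : ℝ) ≤ (V.card : ℝ) ∧
      EnV t V ≤ E * (n : ℝ) ^ (8/3 - t) ∧ ∀ w ∈ V, FrO M B a v (↑F) w ∧
        ∃ s : unitInterval, (x ≤ s ∧ s ≤ y) ∧ γ.path s = pt n w := by
  obtain ⟨σ, N, hN, hσ, ho, hper, _, hpath⟩ := hT
  have hn' : (0:ℝ) < n := by exact_mod_cast hn
  have hN' : (0:ℝ) < N := by exact_mod_cast hN
  have hst : ∀ k < N, dist (pt n (orb (↑F) σ k).1) (pt n (orb (↑F) σ (k + 1)).1) ≤ 1 / (n : ℝ) :=
    fun k _ => pt_step' hn _ σ k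
  obtain ⟨i, hiN, ⟨hi1, hi2⟩, hi⟩ := poly_close hN hst x
  obtain ⟨j, hjN, ⟨hj1, hj2⟩, hj⟩ := poly_close hN hst y
  rw [← hpath] at hi hj
  have hxy' : (x : ℝ) ≤ y := hxy
  have hxyN : (x : ℝ) * N ≤ y * N := mul_le_mul_of_nonneg_right hxy' hN'.le
  obtain ⟨ε, hε⟩ : ∃ ε : ℝ, ε = 1 / (n : ℝ) := ⟨_, rfl⟩
  have hε0 : 0 < ε := by rw [hε]; positivity
  have hεn : ε * n = 1 := by rw [hε]; field_simp
  have hκε : (R + 4 : ℝ) * ε ≤ κ1 := by
    have : κ1 = κ1 * n * ε := by rw [mul_assoc, mul_comm (n:ℝ), hεn, mul_one]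
    rw [this]
    exact mul_le_mul_of_nonneg_right hR hε0.le
  have hR0 : (0:ℝ) ≤ R := Nat.cast_nonneg _
  rw [← hε] at hi hj
  have hst' := fun k => pt_step' hn (↑F) σ k
  rw [← hε] at hst'
  -- the indices
  have hij : i + 1 ≤ j := by
    by_contra hcon
    have h1 : j ≤ i := by omega
    have h2 : i ≤ j + 1 := by
      have : (i : ℝ) ≤ j + 1 := by linarith
      exact_mod_cast this
    have h3 : dist (pt n (orb (↑F) σ i).1) (pt n (orb (↑F) σ j).1) ≤ ε := by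
      rcases (show i = j ∨ i = j + 1 by omega) with h | h
      · rw [h, dist_self]; exact hε0.le
      · rw [h, dist_comm]; exact hst' j
    have h4 := dist_triangle4 (γ.path x) (pt n (orb (↑F) σ i).1) (pt n (orb (↑F) σ j).1) (γ.path y)
    rw [dist_comm (pt n (orb (↑F) σ j).1)] at h4
    nlinarith
  have hi' : dist (γ.path x) (pt n (orb (↑F) σ (i + 1)).1) ≤ 2 * ε := by
    have h1 := hst' i
    have h2 := dist_triangle (γ.path x) (pt n (orb (↑F) σ i).1) (pt n (orb (↑F) σ (i + 1)).1)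
    linarith
  obtain ⟨σ', hσ'⟩ : ∃ σ' : St, σ' = orb (↑F) σ (i + 1) := ⟨_, rfl⟩
  obtain ⟨m, hm⟩ : ∃ m, j = m + (i + 1) := ⟨j - (i + 1), by omega⟩
  have hjm : orb (↑F : Set Edg) σ j = orb (↑F) σ' m := by rw [hm, orb_add, hσ']
  rw [← hσ'] at hi'
  rw [hjm] at hj
  have hfar : Far σ'.1 R (orb (↑F) σ' m).1 := by
    apply far_of_sd
    by_contra hcon
    push Not at hcon
    have h1 : ((sd σ'.1 (orb (↑F) σ' m).1 : ℤ) : ℝ) ≤ R := by
      have : sd σ'.1 (orb (↑F) σ' m).1 ≤ (R : ℤ) := hcon.le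
      exact_mod_cast this
    have h2 := pt_le hn σ'.1 (orb (↑F) σ' m).1
    have h3 : (n : ℝ)⁻¹ * ((sd σ'.1 (orb (↑F) σ' m).1 : ℤ) : ℝ) ≤ ε * R := by
      rw [hε, one_div]
      exact mul_le_mul_of_nonneg_left h1 (by positivity)
    have h4 := dist_triangle4 (γ.path x) (pt n σ'.1) (pt n (orb (↑F) σ' m).1) (γ.path y)
    rw [dist_comm (pt n (orb (↑F) σ' m).1) (γ.path y)] at h4
    nlinarith
  -- first exit
  have hex : ∃ τ, Far σ'.1 R (orb (↑F) σ' τ).1 := ⟨m, hfar⟩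
  classical
  obtain ⟨τ, hτ, hτ1, hτm⟩ : ∃ τ, Far σ'.1 R (orb (↑F) σ' τ).1 ∧
      (∀ s < τ, ¬ Far σ'.1 R (orb (↑F) σ' s).1) ∧ τ ≤ m :=
    ⟨Nat.find hex, Nat.find_spec hex, fun s hs => Nat.find_min hex hs, Nat.find_min' hex hfar⟩
  have hin : inR (0 + 4 * R) (0 + n - 4 * R) (0 + 4 * R) (0 + n - 4 * R) σ'.1 := by
    obtain ⟨⟨d1, d2⟩, d3, d4⟩ := hD
    have e1 : |(γ.path x).re - (pt n σ'.1).re| ≤ 2 * ε := by
      have := Complex.abs_re_le_norm (γ.path x - pt n σ'.1)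
      rw [Complex.sub_re, ← dist_eq_norm] at this
      exact this.trans hi'
    have e2 : |(γ.path x).im - (pt n σ'.1).im| ≤ 2 * ε := by
      have := Complex.abs_im_le_norm (γ.path x - pt n σ'.1)
      rw [Complex.sub_im, ← dist_eq_norm] at this
      exact this.trans hi'
    rw [abs_le] at e1 e2
    have p1 : (pt n σ'.1).re = (σ'.1.1 : ℝ) * ε := by rw [hε, mul_one_div]; rfl
    have p2 : (pt n σ'.1).im = (σ'.1.2 : ℝ) * ε := by rw [hε, mul_one_div]; rfl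
    rw [p1] at e1
    rw [p2] at e2
    have q : ∀ z : ℤ, ∀ w : ℝ, (5 * κ1 < w ∧ w < 1 - 5 * κ1) →
        (-(2 * ε) ≤ w - z * ε ∧ w - z * ε ≤ 2 * ε) →
        0 + 4 * (R : ℤ) ≤ z ∧ z ≤ 0 + n - 4 * R := by
      intro z w hw hz
      constructor
      · have h1 : 4 * (R : ℝ) * ε < z * ε := by nlinarith
        have h2 : 4 * (R : ℝ) < z := lt_of_mul_lt_mul_right h1 hε0.le
        have h3 : 4 * (R : ℤ) < z := by exact_mod_cast h2
        omega
      · have h1 : (z : ℝ) * ε < (n - 4 * R) * ε := by nlinarith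
        have h2 : (z : ℝ) < n - 4 * R := lt_of_mul_lt_mul_right h1 hε0.le
        have h3 : z < n - 4 * R := by exact_mod_cast h2
        omega
    exact ⟨q _ _ ⟨d1, d2⟩ e1, q _ _ ⟨d3, d4⟩ e2⟩
  have hgood : RFrN t c E M B n a σ' τ (↑F) := by
    by_contra hcon
    exact hbad ⟨σ', τ, hin, hτ1, hτ, hcon⟩
  obtain ⟨V, hV1, hV2, hV3⟩ := hgood
  refine ⟨V, hV1, hV2, fun w hw => ?_⟩
  obtain ⟨⟨s, hsτ, hsw⟩, hTk⟩ := hV3 w hw
  have horb : orb (↑F : Set Edg) σ' s = orb (↑F) σ (s + (i + 1)) := by rw [orb_add, hσ']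
  have hvσ := (Plain.mem_cluster F v σ.1).1 hσ
  have hreach : ∀ k, Reach (↑F : Set Edg) v (orb (↑F) σ k).1 := fun k =>
    hvσ.trans (pb_reach _ _ _)
  refine ⟨⟨?_, ?_, ?_, hTk⟩, ?_⟩
  · rw [← hsw, horb]
    exact hreach _
  · refine ⟨(orb (↑F) σ' s).2, ?_⟩
    have e1 : (w, (orb (↑F : Set Edg) σ' s).2) = orb (↑F) σ' s := by rw [← hsw]
    rw [e1, horb]
    rw [Plain.outer_iff] at ho
    unfold Outer at ho ⊢
    have h3 := pb_dreach (↑F) σ (s + (i + 1))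
    refine (h3.symm.mono ?_).trans ho
    apply Set.compl_subset_compl.2
    intro e he
    exact he.1
  · rcases (show Far w a σ'.1 ∨ Far w a (orb (↑F) σ' τ).1 by
      unfold Far at hτ ⊢
      omega) with h | h
    · refine ⟨_, ?_, h⟩
      rw [hσ']
      exact hreach _
    · refine ⟨_, ?_, h⟩
      rw [hσ', ← orb_add]
      exact hreach _
  · have hle : s + (i + 1) ≤ j := by omega
    obtain ⟨T, hT⟩ := time (j := s + (i + 1)) hN (by omega)
    refine ⟨T, ⟨?_, ?_⟩, ?_⟩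
    · show (x : ℝ) ≤ T
      rw [hT, le_div_iff₀ hN']
      push_cast
      have : (0:ℝ) ≤ s := Nat.cast_nonneg _
      linarith
    · show (T : ℝ) ≤ y
      rw [hT, div_le_iff₀ hN']
      have : ((s + (i + 1) : ℕ) : ℝ) ≤ j := by exact_mod_cast hle
      linarith
    · rw [hpath, poly_at _ hN (by omega) hT, ← horb, hsw]

end Pool.Agent.U151.LB
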