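import Pool.Agent.U151.LB.Sym

/-!
Deterministic part of a trial, for one vertex (after `H984P.det_count`).
-/

set_option autoImplicit false

namespace Pool.Agent.U151.LB

open H974 Finset H342P H984P

theorem det_v {F : Finset Edg} {A y0 X Y : ℤ} {T a : ℕ} {hv hf : Vtx → ZMod 2} (ha : 1 ≤ a)
    (hL : LEv X Y a {v | ∃ s ≤ T, (orb (↑F) (st0 A y0) s).1 = v} (Tlow (↑F) A y0 X Y T a hv) ↑F)
    (hU : UEv X Y a {f | ∃ s ≤ T, face (orb (↑F) (st0 A y0) s) = f}
      (Tup (↑F) A y0 X Y T a hf) ↑F) {v : Vtx} (hvc : v ∈ ctr (X + 32 * a, Y) a)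
    (hRA : RA v a ↑F) :
    (Reach ((↑F : Set Edg) ∩ ↑(Exm (↑F) (st0 A y0) T ∪ Bl X Y a)) (st0 A y0).1 v ∧
      DReach (↑(Exm (↑F) (st0 A y0) T ∪ Bl X Y a) \ (↑F : Set Edg)) (face (st0 A y0)) v) ∧
    ∃ u, Reach ((↑F : Set Edg) ∩ ↑(Exm (↑F) (st0 A y0) T ∪ Bl X Y a)) v u ∧ Far v a u := by
  classical
  obtain ⟨⟨w, hw, hRw⟩, ⟨g, hg, hDg⟩⟩ := hRA
  have e2 : Reach ((↑F : Set Edg) ∩ ↑(Bl X Y a)) w v := hRw.symm.mono (by
    simp only [ctr, Finset.mem_product, Finset.mem_Icc] at hvc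
    rintro ⟨x, y, _ | _⟩ ⟨h0, h⟩
    · refine ⟨h0, ?_⟩
      simp only [PR, Bl, mem_coe, mem_RE_false] at h ⊢; omega
    · refine ⟨h0, ?_⟩
      simp only [PR, Bl, mem_coe, mem_RE_true] at h ⊢; omega)
  refine ⟨⟨?_, ?_⟩, w, ?_, ?_⟩
  · obtain ⟨yb, yc, hyb, hyc, hR1, c, ⟨s, hs, rfl⟩, hR2⟩ := hL
    simp only [ctr, Finset.mem_product, Finset.mem_Icc] at hvc
    obtain ⟨v1, v2⟩ := v
    simp only at hvc hw
    have e1 : Reach ((↑F : Set Edg) ∩ ↑(Bl X Y a)) w (X + 8 * a, yc) := by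
      refine meet_gen (p := X + 19 * a) (q := X + 45 * a) (c := Y - 8 * a) (d := Y - 4 * a)
        (by omega) (by omega) (V := PR (v1, v2) a) (Hh := LS X Y a) ?_ ?_ ?_ ?_ ?_ ?_ ?_
        hRw.symm (by omega) (by simp only; omega) hR1 (by simp only; omega) (by simp only; omega)
      · rintro ⟨x, y, _ | _⟩ h
        · simp only [PR, Bl, mem_RE_false] at h ⊢; omega
        · simp only [PR, Bl, mem_RE_true] at h ⊢; omega
      · rintro ⟨x, y, _ | _⟩ h
        · simp only [LS, Bl, mem_RE_false, mem_LRE_false] at h ⊢; omega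
        · simp only [LS, Bl, mem_RE_true, mem_LRE_true] at h ⊢; omega
      · rintro ⟨x, y, _ | _⟩ h
        · simp only [Bl, mem_RE_false] at h ⊢; omega
        · simp only [Bl, mem_RE_true] at h ⊢; omega
      · intro x y h; simp only [PR, mem_RE_false] at h; omega
      · intro x y h; simp only [PR, mem_RE_true] at h; omega
      · intro x y h; simp only [LS, mem_LRE_true] at h; omega
      · intro x y h; simp only [LS, mem_LRE_false] at h; omega
    have e3 : Reach ((↑F : Set Edg) ∩ ↑(Bl X Y a)) (X + 8 * a, yc) (orb (↑F) (st0 A y0) s).1 :=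
      hR2.mono (by
        rintro e ⟨h0, h⟩
        exact ⟨h0, H984P.HkE_sub ha h.1⟩)
    have e4 := orb_reach (F := (↑F : Set Edg)) (W := ↑(Exm (↑F) (st0 A y0) T)) (σ := st0 A y0)
      (T := T) (fun s hs => by exact_mod_cast mem_Exm.mpr ⟨s, hs, rfl⟩) hs
    have e5 : Reach ((↑F : Set Edg) ∩ ↑(Bl X Y a)) (orb (↑F) (st0 A y0) s).1 (v1, v2) :=
      (e3.symm.trans e1.symm).trans e2
    refine (e4.mono ?_).trans (e5.mono ?_)
    · rintro e ⟨h0, h⟩
      exact ⟨h0, by simp only [Finset.coe_union]; exact Or.inl h⟩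
    · rintro e ⟨h0, h⟩
      exact ⟨h0, by simp only [Finset.coe_union]; exact Or.inr h⟩
  · obtain ⟨yb, yc, hyb, hyc, hR1, c, ⟨s, hs, rfl⟩, hR2⟩ := hU
    simp only [ctr, Finset.mem_product, Finset.mem_Icc] at hvc
    obtain ⟨v1, v2⟩ := v
    simp only at hvc hg
    set H : Set Edg := dl '' (↑F : Set Edg)ᶜ with hH
    have conv : ∀ V : Finset Edg, dl '' (dE V \ ↑F) ⊆ H ∩ ↑V := by
      rintro V _ ⟨e, ⟨he1, he2⟩, rfl⟩
      exact ⟨⟨e, he2, rfl⟩, he1⟩
    set S : Finset Edg := RE (X - 59 * a) (X + 59 * a) (Y - 59 * a) (Y + 59 * a) with hS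
    have back : ∀ u w : Vtx, Reach (H ∩ ↑S) u w → DReach (↑(Bl X Y a) \ ↑F) u w := by
      intro u w h
      rw [← reach_dl]
      refine h.mono ?_
      rintro _ ⟨⟨e, he, rfl⟩, he2⟩
      refine ⟨e, ⟨dE_sub ha (Finset.Subset.refl _) he2, he⟩, rfl⟩
    have a1 : Reach (H ∩ ↑(DR (v1, v2) a)) (v1, v2) g := (reach_dl.mpr hDg).mono (conv _)
    have a2 : Reach (H ∩ ↑(US X Y a)) (X + 8 * a, yc) (X + 56 * a, yb) :=
      (reach_dl.mpr hR1).mono (conv _)
    have e1 : Reach (H ∩ ↑S) (v1, v2) (X + 8 * a, yc) := by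
      refine meet_gen (p := X + 19 * a) (q := X + 45 * a) (c := Y + 4 * a) (d := Y + 8 * a)
        (by omega) (by omega) (V := DR (v1, v2) a) (Hh := US X Y a) ?_ ?_ ?_ ?_ ?_ ?_ ?_
        a1 (by simp only; omega) (by omega) a2 (by simp only; omega) (by simp only; omega)
      · rintro ⟨x, y, _ | _⟩ h
        · simp only [DR, hS, mem_RE_false] at h ⊢; omega
        · simp only [DR, hS, mem_RE_true] at h ⊢; omega
      · rintro ⟨x, y, _ | _⟩ h
        · simp only [US, hS, mem_RE_false, mem_LRE_false] at h ⊢; omega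
        · simp only [US, hS, mem_RE_true, mem_LRE_true] at h ⊢; omega
      · rintro ⟨x, y, _ | _⟩ h
        · simp only [hS, mem_RE_false] at h ⊢; omega
        · simp only [hS, mem_RE_true] at h ⊢; omega
      · intro x y h; simp only [DR, mem_RE_false] at h; omega
      · intro x y h; simp only [DR, mem_RE_true] at h; omega
      · intro x y h; simp only [US, mem_LRE_true] at h; omega
      · intro x y h; simp only [US, mem_LRE_false] at h; omega
    have e2 : DReach (↑(Bl X Y a) \ (↑F : Set Edg)) (X + 8 * a, yc)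
        (face (orb (↑F) (st0 A y0) s)) :=
      hR2.mono (by
        rintro e ⟨h0, h⟩
        refine ⟨dE_sub ha ?_ h0.1, h⟩
        rintro ⟨x, y, _ | _⟩ h
        · simp only [HkE', Finset.mem_union, mem_RE_false] at h ⊢; omega
        · simp only [HkE', Finset.mem_union, mem_RE_true] at h ⊢; omega)
    have e4 := orb_dreach (F := (↑F : Set Edg)) (W := ↑(Exm (↑F) (st0 A y0) T)) (σ := st0 A y0)
      (T := T) (fun s hs => by exact_mod_cast mem_Exm.mpr ⟨s, hs, rfl⟩) hs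
    have e5 : DReach (↑(Bl X Y a) \ (↑F : Set Edg)) (face (orb (↑F) (st0 A y0) s)) (v1, v2) :=
      e2.symm.trans (back _ _ e1).symm
    refine (e4.mono ?_).trans (e5.mono ?_)
    · rintro e ⟨h0, h⟩
      exact ⟨by simp only [Finset.coe_union]; exact Or.inl h0, h⟩
    · rintro e ⟨h0, h⟩
      exact ⟨by simp only [Finset.coe_union]; exact Or.inr h0, h⟩
  · refine (e2.mono ?_).symm
    rintro e ⟨h0, h⟩
    exact ⟨h0, by simp only [Finset.coe_union]; exact Or.inr h⟩
  · unfold Far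
    omega

end Pool.Agent.U151.LB
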