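import Pool.Agent.U151.LB.LowV
import Pool.Agent.U151.LB.Tri
import Pool.Agent.H984R3.Per.FinalSharp

/-!
Choice of the parameters, for visited vertices.
-/

set_option autoImplicit false

namespace Pool.Agent.U151.LB

open H974 H12S Finset H389NS H984P H984N H342P
open Pool.Agent.W822.PD (EnV)
open Pool.Agent.Y989.FR (Tk)

/-- Many visited vertices with thick paths, with small energy, relative to the scale `n`. -/
def RFrN (t c E : ℝ) (M B n a : ℕ) (σ : St) (τ : ℕ) (F : Set Edg) : Prop :=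
  ∃ V : Finset Vtx, c * (n : ℝ) ^ (4/3 : ℝ) ≤ (V.card : ℝ) ∧
    EnV t V ≤ E * (n : ℝ) ^ (8/3 - t) ∧ ∀ v ∈ V, (∃ s ≤ τ, (orb F σ s).1 = v) ∧ Tk M B (a / 64) v F

/-- Some strand of size `R` in the bulk of the box has few vertices with thick paths. -/
def BadN (t c E : ℝ) (M B n a R : ℕ) (b c' : ℤ) (F : Finset Edg) : Prop :=
  ∃ (σ : St) (τ : ℕ), inR (b + 4 * R) (b + n - 4 * R) (c' + 4 * R) (c' + n - 4 * R) σ.1 ∧
    (∀ s < τ, ¬ Far σ.1 R (orb (↑F) σ s).1) ∧ Far σ.1 R (orb (↑F) σ τ).1 ∧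
    ¬ RFrN t c E M B n a σ τ (↑F)

theorem parV {t : ℝ} (ht0 : 0 < t) (ht1 : t < 4/3) (hT : S_TRI) {κ δ : ℝ} (hκ : 0 < κ)
    (hδ : 0 < δ) : ∃ (M B : ℕ) (ρ c E : ℝ), 16 ≤ M ∧ 1 ≤ B ∧ 0 < ρ ∧ 0 < c ∧ 0 < E ∧
    ∃ n0 : ℕ, ∀ n : ℕ, n0 ≤ n → ∃ a R : ℕ, 192 ≤ a ∧ ρ * n ≤ a ∧ 16 * a ≤ R ∧ (R : ℝ) ≤ κ * n ∧
      ∀ b c' : ℤ, Pr (fun _ => (1/2:ℝ)) (RE b (b + n) c' (c' + n)) (BadN t c E M B n a R b c') ≤
        δ := by
  have hok : Ok (fun _ : Edg => (1/2:ℝ)) := fun _ => ⟨by norm_num, by norm_num⟩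
  obtain ⟨MM, BB0, a0, c, E, δ1, hMM, hBB0, ha192, hc, hE, hδ1, htr⟩ := hT t ht0 ht1
  obtain ⟨C', hC', hlow⟩ := lowV
  obtain ⟨δ0, hδ0⟩ : ∃ δ0 : ℝ, δ0 = min δ1 (1/2) := ⟨_, rfl⟩
  have hδ0pos : 0 < δ0 := by rw [hδ0]; exact lt_min hδ1 (by norm_num)
  have hδ01 : δ0 ≤ 1 := by rw [hδ0]; exact (min_le_right _ _).trans (by norm_num)
  have hδ02 : δ0 ≤ 1/2 := by rw [hδ0]; exact min_le_right _ _
  obtain ⟨D2, hD2⟩ := exists_nat_gt (248 / κ)
  have hD2R : (0:ℝ) < D2 := lt_trans (by positivity) hD2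
  have hD2pos : 0 < D2 := by exact_mod_cast hD2R
  rw [div_lt_iff₀ hκ] at hD2
  obtain ⟨K, hKpos, hK⟩ := fs_small2 (C' * (9 * (D2:ℝ) ^ 2)) (q := 1 - δ0) (by linarith)
    (by linarith) hδ
  have hKR : (0:ℝ) < K := by exact_mod_cast hKpos
  have hK1 : (1:ℝ) ≤ K := by exact_mod_cast hKpos
  have hDK : 0 < D2 * K := by positivity
  refine ⟨MM, BB0, 1 / (2 * (D2 * K)), c * (1 / (2 * (D2 * K))) ^ (4/3 : ℝ), E, hMM, hBB0,
    by positivity, by positivity, hE, 2 * (D2 * K) + D2 * K * a0, fun n hn0 => ?_⟩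
  obtain ⟨a, ha⟩ : ∃ a : ℕ, a = n / (D2 * K) := ⟨_, rfl⟩
  obtain ⟨haa, hab⟩ := fs_div hDK (show 2 * (D2 * K) ≤ n by omega)
  rw [← ha] at haa hab
  push_cast at haa hab
  have haa0 : a0 ≤ a := by
    rw [ha, Nat.le_div_iff_mul_le hDK, mul_comm]
    omega
  have ha1 : 192 ≤ a := ha192.trans haa0
  have haR : (192:ℝ) ≤ a := by exact_mod_cast ha1
  have hnpos : (0:ℝ) < n := by
    have : 0 < n := by omega
    exact_mod_cast this
  obtain ⟨R, hR⟩ : ∃ R : ℕ, R = 121 * a * (K + 1) + a + 2 := ⟨_, rfl⟩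
  have hRa : 242 * a ≤ R := by
    rw [hR]
    have : 1 ≤ K := hKpos
    nlinarith
  refine ⟨a, R, ha1, ?_, by omega, ?_, ?_⟩
  · have f1 : 1 / (2 * ((D2:ℝ) * K)) * n = (n:ℝ) / (2 * (D2 * K)) := by
      field_simp
    rw [f1]
    exact haa
  · have h1 : (R:ℝ) ≤ 248 * (a * K) := by
      rw [hR]
      push_cast
      nlinarith
    have h2 : (a:ℝ) * (D2 * K) ≤ n := by
      rw [le_div_iff₀ (by positivity)] at hab; exact hab
    have h3 : (248:ℝ) * (a * K) ≤ D2 * κ * (a * K) :=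
      mul_le_mul_of_nonneg_right hD2.le (by positivity)
    calc (R:ℝ) ≤ D2 * κ * (a * K) := h1.trans h3
      _ = κ * (a * (D2 * K)) := by ring
      _ ≤ κ * n := mul_le_mul_of_nonneg_left h2 hκ.le
  · intro b c'
    have hall : ∀ b c' A y0 : ℤ, TrialF t c E MM BB0 (RE b (b + n) c' (c' + n)) A y0 a δ0 := by
      intro b c' A y0 k F0 X Y T h1 h2 h3 h4 h5 h6 h7 h8
      refine le_trans ?_ (htr _ A y0 a haa0 k F0 X Y T h1 h2 h3 h4 h5 h6 h7 h8)
      rw [hδ0]; exact min_le_left _ _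
    have hRz : (121:ℤ) * a * (K + 1 : ℕ) + a + 2 ≤ (R:ℤ) := by
      rw [hR]; push_cast; linarith
    have hRz2 : (60:ℤ) * a ≤ R := by
      have : 60 * a ≤ R := by omega
      exact_mod_cast this
    have h1 := hlow t c E MM BB0 n a K δ0 (R:ℤ) (by omega) hKpos hδ0pos.le hδ01 hall hRz b c'
    refine le_trans (Pr_mono hok ?_) (h1.trans (le_trans ?_ hK))
    · rintro F _ ⟨σ, τ, g1, g2, g3, g4⟩
      refine ⟨σ, τ, ?_, g2, g3, ?_⟩
      · unfold inR at g1 ⊢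
        omega
      · rintro ⟨V, hV1, hV2, hV3⟩
        apply g4
        refine ⟨V, ?_, ?_, hV3⟩
        · refine le_trans ?_ hV1
          rw [mul_assoc, ← Real.mul_rpow (by positivity) hnpos.le]
          refine mul_le_mul_of_nonneg_left ?_ hc.le
          refine Real.rpow_le_rpow (by positivity) ?_ (by norm_num)
          calc 1 / (2 * ((D2:ℝ) * K)) * n = n / (2 * (D2 * K)) := by ring
            _ ≤ a := haa
        · refine hV2.trans ?_
          refine mul_le_mul_of_nonneg_left ?_ hE.le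
          refine Real.rpow_le_rpow (by positivity) ?_ (by linarith)
          have : a ≤ n := by
            rw [ha]
            exact Nat.div_le_self _ _
          exact_mod_cast this
    · have f1 : (n:ℝ) / a ≤ 2 * (D2 * K) := by
        rw [div_le_iff₀ (by linarith)]
        rw [div_le_iff₀ (by positivity)] at haa
        linarith
      have f2 : (1:ℝ) ≤ D2 * K := by exact_mod_cast hDK
      have f3 : ((n:ℝ) / a + 1) ^ 2 ≤ (3 * (D2 * K)) ^ 2 := by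
        apply pow_le_pow_left₀ (by positivity)
        linarith
      have f4 : (0:ℝ) ≤ (1 - δ0) ^ K := pow_nonneg (by linarith) _
      calc C' * ((n:ℝ) / a + 1) ^ 2 * (1 - δ0) ^ K ≤ C' * (3 * (D2 * K)) ^ 2 * (1 - δ0) ^ K := by
            gcongr
        _ = _ := by ring

end Pool.Agent.U151.LB
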