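import Pool.Agent.W822.PD.Stm
import Pool.Agent.Y989.FR.StmD

/-!
Boundaries of the complementary components of the limits of closed lattice paths: local events for
the strands of the interface.
-/

set_option autoImplicit false

namespace Pool.Agent.U151.LB

open H974 H12S Finset H389NS H984P H984N H342P
open Pool.Agent.Y989.FR (Tk E3 core3 V3 BB Awy AE Gd3)
open Pool.Agent.W822.PD (EnV tr)

/-- `v` belongs to the open cluster of the vertex of `σ`, one of its faces to the dual cluster of the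
face of `σ` (edges of `W`), the cluster reaches distance `a` from `v`, and a thick path starts near
`v`. -/
def FrA (M B a : ℕ) (σ : St) (W F : Set Edg) (v : Vtx) : Prop :=
  Reach (F ∩ W) σ.1 v ∧ (∃ q : Q4, DReach (W \ F) (face σ) (face (v, q))) ∧
    (∃ u, Reach (F ∩ W) v u ∧ Far v a u) ∧
    ((↑(blk v (8 * (a / 64))) : Set Edg) ⊆ W ∧ Tk M B (a / 64) v F)

/-- `w` belongs to the cluster of `v`, one of its faces is outside, and a thick path starts near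
`w`. -/
def FrO (M B a : ℕ) (v : Vtx) (F : Set Edg) (w : Vtx) : Prop :=
  Reach F v w ∧ (∃ q : Q4, Outer F v (face (w, q))) ∧ (∃ u, Reach F v u ∧ Far w a u) ∧
    Tk M B (a / 64) w F

/-- Many such vertices, with small energy. -/
def RFr (t c E : ℝ) (M B a : ℕ) (σ : St) (W F : Set Edg) : Prop :=
  ∃ V : Finset Vtx, c * (a : ℝ) ^ (4/3 : ℝ) ≤ (V.card : ℝ) ∧
    EnV t V ≤ E * (a : ℝ) ^ (8/3 - t) ∧ ∀ v ∈ V, FrA M B a σ W F v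

/-- Many such vertices of the outer boundary of the cluster of `v`, with small energy, relative to
the scale `n`. -/
def RFrO (t c E : ℝ) (M B n a : ℕ) (v : Vtx) (F : Set Edg) : Prop :=
  ∃ V : Finset Vtx, c * (n : ℝ) ^ (4/3 : ℝ) ≤ (V.card : ℝ) ∧
    EnV t V ≤ E * (n : ℝ) ^ (8/3 - t) ∧ ∀ w ∈ V, FrO M B a v F w

/-- Trials succeed with probability at least `δ`. -/
def TrialF (t c E : ℝ) (M B : ℕ) (S : Finset Edg) (A y0 : ℤ) (a : ℕ) (δ : ℝ) : Prop :=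
  ∀ (k F0 : Finset Edg) (X Y : ℤ) (T : ℕ),
    F0 ⊆ S → k ⊆ S → Strand (↑F0 : Set Edg) A y0 X Y T → A + 100 * a ≤ X →
    Bl X Y a ⊆ S → ((A - 1, y0, true) : Edg) ∈ k → Exm (↑F0) (st0 A y0) T ⊆ k →
    (∀ e ∈ k, e ∈ Bl X Y a → e ∈ Exm (↑F0) (st0 A y0) T) →
    δ ≤ Pr (fun _ => (1/2:ℝ)) (S \ k) (fun G => RFr t c E M B a (st0 A y0)
        (↑(Exm (↑F0) (st0 A y0) T ∪ Bl X Y a)) (↑((F0 ∩ k) ∪ G)))

/-- The number and the energy of the vertices of the core. -/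
def NN (t c E : ℝ) (M B a : ℕ) (F : Finset Edg) : Prop :=
  ∃ V : Finset Vtx, (c * (a : ℝ) ^ (4/3 : ℝ) ≤ (V.card : ℝ) ∧
    EnV t V ≤ E * (a : ℝ) ^ (8/3 - t)) ∧ ∀ v ∈ V, v ∈ core3 a ∧ E3 M B a v F

theorem NN_of_Gd {t c E : ℝ} {M B a : ℕ} {F : Finset Edg} (h : Gd3 c E t M B a F) :
    NN t c E M B a F := by
  classical
  obtain ⟨-, h1, h2⟩ := h
  refine ⟨V3 M B a F, ⟨h1, h2⟩, ?_⟩
  intro v hv
  unfold V3 at hv
  exact Finset.mem_filter.1 hv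

/-- The box of the core. -/
noncomputable def CB (a : ℕ) : Finset Edg := NB (-(59 * (a : ℤ)), 21 * (a : ℤ)) a

/-- TRI: trials create many vertices with a probability bounded below. -/
def S_TRI : Prop := ∀ t : ℝ, 0 < t → t < 4/3 → ∃ (M B a0 : ℕ) (c E δ : ℝ), 16 ≤ M ∧ 1 ≤ B ∧
  192 ≤ a0 ∧ 0 < c ∧ 0 < E ∧ 0 < δ ∧ ∀ (S : Finset Edg) (A y0 : ℤ) (a : ℕ), a0 ≤ a →
    TrialF t c E M B S A y0 a δ

/-- ITE: iteration of the trials. -/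
def S_ITE : Prop := ∀ (t c E : ℝ) (M B : ℕ) (S : Finset Edg) (A y0 H : ℤ) (a K : ℕ) (δ : ℝ),
  1 ≤ a → 1 ≤ K → 0 ≤ δ → δ ≤ 1 →
  RE (A - 60 * a) (A + 121 * a * K + 60 * a) (y0 - H - 60 * a) (y0 + H + 60 * a) ⊆ S →
  TrialF t c E M B S A y0 a δ →
  Pr (fun _ => (1/2:ℝ)) S
      (fun F => Long' A y0 H a K (↑F) ∧ ¬ RFr t c E M B a (st0 A y0) Set.univ (↑F)) ≤
    (1 - δ) ^ K * Pr (fun _ => (1/2:ℝ)) S (fun F => Long' A y0 H a 1 (↑F))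

/-- ROT: rotation invariance. -/
def S_ROT : Prop := ∀ (t c E : ℝ) (M B a : ℕ) (σ : St) (F : Finset Edg),
  RFr t c E M B a (rS σ) Set.univ (↑(rM F)) → RFr t c E M B a σ Set.univ (↑F)

/-- LOW: union bound over the starts and the four directions. -/
def S_LOW : Prop := ∃ C : ℝ, 0 < C ∧ ∀ (t c E : ℝ) (M B n a K : ℕ) (δ : ℝ) (R : ℤ), 5 ≤ a →
    1 ≤ K → 0 ≤ δ → δ ≤ 1 →
    (∀ b c' A y0 : ℤ, TrialF t c E M B (RE b (b + n) c' (c' + n)) A y0 a δ) →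
    121 * a * K + a + 2 ≤ R →
    Pr (fun _ => (1/2:ℝ)) (RE 0 n 0 n) (fun F => ∃ σ : St,
      inR (3 * R + 60 * a) (n - 3 * R - 60 * a) (3 * R + 60 * a) (n - 3 * R - 60 * a) σ.1 ∧
      (∃ t, Far σ.1 R (orb (↑F) σ t).1) ∧ ¬ RFr t c E M B a σ Set.univ (↑F)) ≤
      C * ((n:ℝ) / a + 1) ^ 2 * (1 - δ) ^ K

/-- BIG: deterministic conclusion for the largest cluster. -/
def S_BIG : Prop := ∀ (t c E : ℝ) (M B a n : ℕ) (F : Finset Edg) (R R1 m : ℤ), F ⊆ RE 0 n 0 n →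
  Big n m (↑F) → 1 ≤ R → R1 < m → 2 * R < m → ¬ LayEv n R1 m (↑F) →
  (¬ ∃ σ : St, inR R1 (n - R1) R1 (n - R1) σ.1 ∧
      (∃ t, Far σ.1 R (orb (↑F) σ t).1) ∧ ¬ RFr t c E M B a σ Set.univ (↑F)) →
  ∀ v, IsMax n (↑F) v → RFrO t c E M B a a v (↑F)

/-- PAR: choice of the parameters. -/
def S_PAR : Prop := ∀ t : ℝ, 0 < t → t < 4/3 → ∀ δ : ℝ, 0 < δ → ∃ (M B : ℕ) (ρ c E : ℝ),
  16 ≤ M ∧ 1 ≤ B ∧ 0 < ρ ∧ 0 < c ∧ 0 < E ∧ ∃ n0 : ℕ, ∀ n : ℕ, n0 ≤ n →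
  Pr (fun _ => (1/2:ℝ)) (RE 0 n 0 n) (fun F => ∃ v, IsMax n (↑F) v ∧
    ¬ ∃ a : ℕ, ρ * n ≤ a ∧ a ≤ n ∧ 192 ≤ a ∧ RFrO t c E M B n a v (↑F)) ≤ δ

end Pool.Agent.U151.LB
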