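import Pool.Agent.U151.LB.Stm
import Pool.Agent.W806.PD.Tri
import Pool.Agent.W801.DPdet
import Pool.Agent.H984R3.Per.LowThm

/-!
Symmetries and locality of the thick path.
-/

set_option autoImplicit false

namespace Pool.Agent.U151.LB

open H974 H12S Finset H389NS H984P H984N H342P
open Pool.Agent.Y989.FR (Tk E3 core3 V3 BB Awy AE Gd3)
open Pool.Agent.W822.PD (EnV tr)
open Pool.Agent.W806.PDTri (she mem_tr sd_shift shv EnV_shift)

theorem mem_bdB (v x : Vtx) (n : ℕ) : x ∈ bdB v n ↔ sd x v = n := by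
  obtain ⟨a, b⟩ := x
  simp only [bdB, sd, Set.mem_ofPred_eq]
  constructor
  · rintro ⟨h1, h2, h3⟩
    rcases h3 with h3 | h3
    · rw [max_eq_left] <;> omega
    · rw [max_eq_right] <;> omega
  · intro h
    have h1 := le_max_left |a - v.1| |b - v.2|
    have h2 := le_max_right |a - v.1| |b - v.2|
    have h3 := max_choice |a - v.1| |b - v.2|
    omega

theorem mem_blk (v : Vtx) (e : Edg) (n : ℕ) :
    e ∈ blk v n ↔ sd (src e) v ≤ n ∧ sd (tgt e) v ≤ n := by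
  obtain ⟨x, y, _ | _⟩ := e
  · simp only [blk, sd, mem_RE_false, src, tgt, max_le_iff, abs_le]
    simp
    omega
  · simp only [blk, sd, mem_RE_true, src, tgt, max_le_iff, abs_le]
    simp
    omega

/-- Symmetries of the square lattice which preserve the sup distance. -/
structure Iso (g : LSym) : Prop where
  dist : ∀ a b : Vtx, sd (g.ψ a) (g.ψ b) = sd a b

theorem Iso.inv {g : LSym} (h : Iso g) : Iso g.inv := by
  refine ⟨fun a b => ?_⟩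
  have := h.dist (g.inv.ψ a) (g.inv.ψ b)
  simpa [LSym.inv] using this.symm

theorem Iso.blk {g : LSym} (h : Iso g) (v : Vtx) (e : Edg) (n : ℕ) :
    g.φ e ∈ H12S.blk (g.ψ v) n ↔ e ∈ H12S.blk v n := by
  rw [mem_blk, mem_blk]
  rcases g.compat e with ⟨h1, h2⟩ | ⟨h1, h2⟩
  · rw [h1, h2, h.dist, h.dist]
  · rw [h1, h2, h.dist, h.dist, and_comm]

theorem Iso.bdB {g : LSym} (h : Iso g) (v x : Vtx) (n : ℕ) :
    g.ψ x ∈ H12S.bdB (g.ψ v) n ↔ x ∈ H12S.bdB v n := by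
  rw [mem_bdB, mem_bdB, h.dist]

theorem Iso.BBm {g : LSym} (h : Iso g) {k : ℕ} {v : Vtx} {F : Set Edg} {c : Vtx}
    (hc : c ∈ BB k v F) : g.ψ c ∈ BB k (g.ψ v) (g.φ '' F) := by
  obtain ⟨w, hw, hr⟩ := hc
  refine ⟨g.ψ w, (h.bdB _ _ _).2 hw, ?_⟩
  refine (g.reach hr).mono ?_
  rintro _ ⟨e, ⟨he1, he2⟩, rfl⟩
  exact ⟨Set.mem_image_of_mem _ he1, Finset.mem_coe.2 ((h.blk _ _ _).2 (Finset.mem_coe.1 he2))⟩

theorem image_inv (g : LSym) (F : Set Edg) : g.inv.φ '' (g.φ '' F) = F := by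
  simp [LSym.inv, Set.image_image]

theorem inv_ψ (g : LSym) (v : Vtx) : g.inv.ψ (g.ψ v) = v := by
  simp [LSym.inv]

theorem Iso.BBi {g : LSym} (h : Iso g) {k : ℕ} {v : Vtx} {F : Set Edg} {c : Vtx}
    (hc : g.ψ c ∈ BB k (g.ψ v) (g.φ '' F)) : c ∈ BB k v F := by
  have := h.inv.BBm hc
  rwa [image_inv, inv_ψ, inv_ψ] at this

theorem Iso.Awy {g : LSym} (h : Iso g) {M B k : ℕ} {v c x : Vtx} :
    Y989.FR.Awy M B k (g.ψ v) (g.ψ c) (g.ψ x) ↔ Y989.FR.Awy M B k v c x := by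
  unfold Y989.FR.Awy
  rw [h.dist, h.dist]

theorem Iso.AwyAll {g : LSym} (h : Iso g) {M B k : ℕ} {v : Vtx} {F : Set Edg} {x : Vtx}
    (hx : ∀ c ∈ BB k v F, Y989.FR.Awy M B k v c x) :
    ∀ c ∈ BB k (g.ψ v) (g.φ '' F), Y989.FR.Awy M B k (g.ψ v) c (g.ψ x) := by
  intro c hc
  obtain ⟨c', rfl⟩ := g.ψ.surjective c
  exact h.Awy.2 (hx c' (h.BBi hc))

theorem Iso.Tk_of {g : LSym} (h : Iso g) {M B k : ℕ} {v : Vtx} {F : Set Edg}
    (hT : Tk M B k v F) : Tk M B k (g.ψ v) (g.φ '' F) := by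
  obtain ⟨x, hx, y, hy, hr⟩ := hT
  refine ⟨g.ψ x, (h.bdB _ _ _).2 hx, g.ψ y, (h.bdB _ _ _).2 hy, ?_⟩
  refine (g.reach hr).mono ?_
  rintro _ ⟨e, ⟨he, h1, h2⟩, rfl⟩
  have hA : g.φ e ∈ AE (g.ψ v) 2 k := by
    unfold AE at he ⊢
    rw [Finset.mem_coe, Finset.mem_sdiff] at he ⊢
    rw [h.blk, h.blk]
    exact he
  rcases g.compat e with ⟨c1, c2⟩ | ⟨c1, c2⟩
  · refine ⟨hA, ?_, ?_⟩
    · rw [c1]; exact h.AwyAll h1
    · rw [c2]; exact h.AwyAll h2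
  · refine ⟨hA, ?_, ?_⟩
    · rw [c1]; exact h.AwyAll h2
    · rw [c2]; exact h.AwyAll h1

theorem Iso.Tk_iff {g : LSym} (h : Iso g) {M B k : ℕ} {v : Vtx} (F : Set Edg) :
    Tk M B k (g.ψ v) (g.φ '' F) ↔ Tk M B k v F := by
  constructor
  · intro hT
    have := h.inv.Tk_of hT
    rwa [image_inv, inv_ψ] at this
  · exact h.Tk_of

theorem iso_trl (s t : ℤ) : Iso (trl s t) := by
  refine ⟨?_⟩
  rintro ⟨a, b⟩ ⟨c, d⟩
  show max |a + s - (c + s)| |b + t - (d + t)| = max |a - c| |b - d|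
  rw [show a + s - (c + s) = a - c by ring, show b + t - (d + t) = b - d by ring]

/-- Translation of the thick path. -/
theorem Tk_tr {M B k : ℕ} {z w : Vtx} {F : Finset Edg} :
    Tk M B k w (↑(tr z F) : Set Edg) ↔ Tk M B k (w.1 + z.1, w.2 + z.2) (↑F : Set Edg) := by
  unfold tr
  rw [LSym.coe_mp]
  have h : w = (trl (-z.1) (-z.2)).ψ (w.1 + z.1, w.2 + z.2) := by
    show w = (w.1 + z.1 + -z.1, w.2 + z.2 + -z.2)
    ext
    · show w.1 = w.1 + z.1 + -z.1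
      ring
    · show w.2 = w.2 + z.2 + -z.2
      ring
  conv_lhs => rw [h]
  exact (iso_trl _ _).Tk_iff _

/-- The rotation as a symmetry. -/
def rotL : LSym := ⟨rE, rV, p14_ends⟩

theorem iso_rot : Iso rotL := by
  refine ⟨?_⟩
  intro v w
  show sd (rV v) (rV w) = sd v w
  simp only [sd, rV, Equiv.coe_fn_mk]
  have h : -v.2 - -w.2 = -(v.2 - w.2) := by ring
  rw [h, abs_neg, max_comm]

theorem Tk_rot {M B k : ℕ} {w : Vtx} {F : Finset Edg} :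
    Tk M B k (rV w) (↑(rM F) : Set Edg) ↔ Tk M B k w (↑F : Set Edg) := by
  have h : (↑(rM F) : Set Edg) = rotL.φ '' (↑F : Set Edg) := by
    unfold rM
    rw [Finset.coe_map]
    rfl
  rw [h]
  exact iso_rot.Tk_iff _

/-- Locality. -/
theorem Tk_congr {M B k : ℕ} {v : Vtx} {F G : Set Edg}
    (h : ∀ e ∈ H12S.blk v (8 * k), (e ∈ F ↔ e ∈ G)) (hT : Tk M B k v F) : Tk M B k v G := by
  have e1 : F ∩ ↑(H12S.blk v (8 * k)) = G ∩ ↑(H12S.blk v (8 * k)) := by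
    ext e
    constructor
    · rintro ⟨h1, h2⟩; exact ⟨(h e h2).mp h1, h2⟩
    · rintro ⟨h1, h2⟩; exact ⟨(h e h2).mpr h1, h2⟩
  have e2 : BB k v F = BB k v G := by
    unfold Y989.FR.BB
    rw [e1]
  unfold Tk at hT ⊢
  rwa [← e2]

theorem E3_mono {M B a : ℕ} {v : Vtx} {F G : Finset Edg}
    (h1 : ∀ e ∈ PR v a, e ∈ F → e ∈ G) (h2 : ∀ e, dl e ∈ DR v a → e ∈ G → e ∈ F)
    (h3 : ∀ e ∈ H12S.blk v (8 * (a / 64)), (e ∈ F ↔ e ∈ G)) (h : E3 M B a v F) :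
    E3 M B a v G :=
  ⟨Tr760.RA_mono (fun e he hF => Finset.mem_coe.2 (h1 e he (Finset.mem_coe.1 hF)))
    (fun e he hG => Finset.mem_coe.2 (h2 e he (Finset.mem_coe.1 hG))) h.1,
    Tk_congr (fun e he => h3 e he) h.2⟩

/-- Translation of the separated arms. -/
theorem RA_tr {a : ℕ} {z w : Vtx} {F : Finset Edg} (h : RA w a (↑(tr z F) : Set Edg)) :
    RA (w.1 + z.1, w.2 + z.2) a (↑F : Set Edg) := by
  obtain ⟨⟨u, hu, hr⟩, g, hg, hd⟩ := h
  refine ⟨⟨(u.1 + z.1, u.2 + z.2), ?_, ?_⟩, (g.1 + z.1, g.2 + z.2), ?_, ?_⟩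
  · show u.2 + z.2 = w.2 + z.2 - 12 * a
    omega
  · refine W801.DPdet.reach_sh (v := z) ?_ hr
    rintro ⟨x, y, b⟩ ⟨h1, h2⟩
    refine ⟨Finset.mem_coe.2 (mem_tr.1 (Finset.mem_coe.1 h1)), ?_⟩
    rw [Finset.mem_coe] at h2 ⊢
    unfold PR at h2 ⊢
    cases b
    · rw [mem_RE_false] at h2
      show ((x + z.1, y + z.2, false) : Edg) ∈ _
      rw [mem_RE_false]
      simp only
      omega
    · rw [mem_RE_true] at h2
      show ((x + z.1, y + z.2, true) : Edg) ∈ _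
      rw [mem_RE_true]
      simp only
      omega
  · show g.2 + z.2 = w.2 + z.2 + 12 * a
    omega
  · refine W801.DPdet.dreach_sh (v := z) ?_ hd
    rintro ⟨x, y, b⟩ ⟨h1, h2⟩
    refine ⟨?_, fun h3 => h2 (Finset.mem_coe.2 (mem_tr.2 (Finset.mem_coe.1 h3)))⟩
    unfold dE DR at h1 ⊢
    cases b
    · have h1' : dl ((x, y, false) : Edg) ∈ RE (w.1 - 12 * a) (w.1 + 12 * a) (w.2 - 3 * a)
        (w.2 + 12 * a) := h1
      rw [dl_f, mem_RE_true] at h1'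
      show dl ((x + z.1, y + z.2, false) : Edg) ∈ RE _ _ _ _
      rw [dl_f, mem_RE_true]
      simp only
      omega
    · have h1' : dl ((x, y, true) : Edg) ∈ RE (w.1 - 12 * a) (w.1 + 12 * a) (w.2 - 3 * a)
        (w.2 + 12 * a) := h1
      rw [dl_t, mem_RE_false] at h1'
      show dl ((x + z.1, y + z.2, true) : Edg) ∈ RE _ _ _ _
      rw [dl_t, mem_RE_false]
      simp only
      omega

end Pool.Agent.U151.LB
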